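import Mathlib

/-!
# MP_d4d904_co : truncated polynomials
-/

namespace Anq13

open Polynomial Matrix

noncomputable section

/-- `F[t]/(t^(m+1))` -/
abbrev Rg (F : Type) [Field F] (m : ℕ) := AdjoinRoot (X ^ (m + 1) : F[X])

variable {F : Type} [Field F] {m : ℕ}

/-- the coefficient of `t^i`, for `i ≤ m` -/
def cf (i : ℕ) (r : Rg F m) : F :=
  (AdjoinRoot.modByMonicHom (monic_X_pow (R := F) (m + 1)) r).coeff i

/-- the class of a polynomial -/
abbrev mk (m : ℕ) (f : F[X]) : Rg F m := AdjoinRoot.mk (X ^ (m + 1) : F[X]) f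

theorem cf_mk (i : ℕ) (hi : i ≤ m) (f : F[X]) : cf i (mk m f) = f.coeff i := by
  unfold cf
  rw [AdjoinRoot.modByMonicHom_mk]
  have h := modByMonic_add_div f (X ^ (m + 1) : F[X])
  conv_rhs => rw [← h]
  rw [coeff_add, coeff_X_pow_mul', if_neg (by omega), add_zero]

theorem exists_mk (r : Rg F m) : ∃ f : F[X], r = mk m f := by
  obtain ⟨f, hf⟩ := AdjoinRoot.mk_surjective r
  exact ⟨f, hf.symm⟩

theorem mk_eq_iff (f g : F[X]) : mk m f = mk m g ↔ ∀ i ≤ m, f.coeff i = g.coeff i := by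
  constructor
  · intro h i hi
    rw [← cf_mk i hi f, h, cf_mk i hi g]
  · intro h
    rw [AdjoinRoot.mk_eq_mk, X_pow_dvd_iff]
    intro d hd
    rw [coeff_sub, h d (by omega), sub_self]

theorem cf_ext (r s : Rg F m) (h : ∀ i ≤ m, cf i r = cf i s) : r = s := by
  obtain ⟨f, rfl⟩ := exists_mk r
  obtain ⟨g, rfl⟩ := exists_mk s
  rw [mk_eq_iff]
  intro i hi
  rw [← cf_mk i hi f, h i hi, cf_mk i hi g]

@[simp] theorem cf_add (i : ℕ) (r s : Rg F m) : cf i (r + s) = cf i r + cf i s := by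
  simp [cf]

@[simp] theorem cf_sub (i : ℕ) (r s : Rg F m) : cf i (r - s) = cf i r - cf i s := by
  simp [cf]

@[simp] theorem cf_neg (i : ℕ) (r : Rg F m) : cf i (-r) = - cf i r := by
  simp [cf]

@[simp] theorem cf_zero (i : ℕ) : cf i (0 : Rg F m) = 0 := by
  simp [cf]

theorem cf_mul (i : ℕ) (hi : i ≤ m) (r s : Rg F m) :
    cf i (r * s) = ∑ p ∈ Finset.HasAntidiagonal.antidiagonal i, cf p.1 r * cf p.2 s := by
  obtain ⟨f, rfl⟩ := exists_mk r
  obtain ⟨g, rfl⟩ := exists_mk s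
  rw [show mk m f * mk m g = mk m (f * g) from (map_mul _ _ _).symm, cf_mk i hi, coeff_mul]
  refine Finset.sum_congr rfl ?_
  intro p hp
  rw [Finset.HasAntidiagonal.mem_antidiagonal] at hp
  rw [cf_mk _ (by omega), cf_mk _ (by omega)]

@[simp] theorem cf0_mul (r s : Rg F m) : cf 0 (r * s) = cf 0 r * cf 0 s := by
  rw [cf_mul 0 (Nat.zero_le _)]
  simp

@[simp] theorem cf0_one : cf 0 (1 : Rg F m) = 1 := by
  rw [show (1 : Rg F m) = mk m 1 from (map_one _).symm, cf_mk 0 (Nat.zero_le _)]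
  simp

theorem cf_one (i : ℕ) (hi : i ≤ m) : cf i (1 : Rg F m) = if i = 0 then 1 else 0 := by
  rw [show (1 : Rg F m) = mk m 1 from (map_one _).symm, cf_mk i hi, coeff_one]

/-- the constant `c` -/
abbrev cs (c : F) : Rg F m := mk m (C c)

/-- the element `t` -/
abbrev tt : Rg F m := mk m X

theorem cf_cs (i : ℕ) (hi : i ≤ m) (c : F) : cf i (cs c : Rg F m) = if i = 0 then c else 0 := by
  rw [cf_mk i hi, coeff_C]

theorem cf_cs_tpow (i : ℕ) (hi : i ≤ m) (c : F) (j : ℕ) :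
    cf i (cs c * tt ^ j : Rg F m) = if i = j then c else 0 := by
  rw [show (cs c * tt ^ j : Rg F m) = mk m (C c * X ^ j) by simp, cf_mk i hi, coeff_C_mul,
    coeff_X_pow]
  split_ifs <;> simp

theorem tt_pow_eq_zero (j : ℕ) (hj : m < j) : (tt : Rg F m) ^ j = 0 := by
  apply cf_ext
  intro i hi
  have h := cf_cs_tpow (F := F) (m := m) i hi 1 j
  rw [if_neg (by omega)] at h
  rw [cf_zero, ← h]
  simp

/-- an element with vanishing low coefficients is a multiple of a power of `t` -/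
theorem exists_tpow_mul (r : Rg F m) (v : ℕ) (h : ∀ i < v, i ≤ m → cf i r = 0) :
    ∃ s : Rg F m, r = tt ^ v * s ∧ ∀ i, i + v ≤ m → cf i s = cf (i + v) r := by
  obtain ⟨f, rfl⟩ := exists_mk r
  by_cases hv : v ≤ m
  · have hd : (X : F[X]) ^ v ∣ f := by
      rw [X_pow_dvd_iff]
      intro d hd
      have hd' : d ≤ m := by omega
      rw [← cf_mk d hd' f]
      exact h d hd hd'
    obtain ⟨g, rfl⟩ := hd
    refine ⟨mk m g, by simp, ?_⟩
    intro i hi
    rw [cf_mk i (by omega), cf_mk (i + v) hi, coeff_X_pow_mul]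
  · refine ⟨0, ?_, ?_⟩
    · rw [mul_zero]
      apply cf_ext
      intro i hi
      rw [h i (by omega) hi, cf_zero]
    · intro i hi
      omega

/-- an element with constant term `1` has an inverse with constant term `1` -/
theorem exists_inv (r : Rg F m) (h : cf 0 r = 1) : ∃ s : Rg F m, r * s = 1 ∧ cf 0 s = 1 := by
  have hn : (1 - r) ^ (m + 1) = 0 := by
    obtain ⟨s, hs, -⟩ := exists_tpow_mul (1 - r) 1 (by
      intro i hi _
      have : i = 0 := by omega
      subst this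
      simp [h])
    rw [hs, pow_one, mul_pow, tt_pow_eq_zero _ (by omega), zero_mul]
  refine ⟨∑ i ∈ Finset.range (m + 1), (1 - r) ^ i, ?_, ?_⟩
  · have := mul_neg_geom_sum (1 - r) (m + 1)
    rw [hn, sub_zero, sub_sub_cancel] at this
    exact this
  · have h1 := mul_neg_geom_sum (1 - r) (m + 1)
    rw [hn, sub_zero, sub_sub_cancel] at h1
    have h2 := congrArg (cf 0) h1
    rw [cf0_mul, h, one_mul, cf0_one] at h2
    exact h2

/-- the truncated ring has at most `q^(m+1)` elements -/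
theorem inj_cf : Function.Injective (fun (r : Rg F m) (i : Fin (m + 1)) => cf (i : ℕ) r) := by
  intro r s h
  apply cf_ext
  intro i hi
  exact congrFun h ⟨i, by omega⟩

instance [Finite F] : Finite (Rg F m) := Finite.of_injective _ (inj_cf (F := F) (m := m))

/-- the matrices that are lower unipotent modulo `t` -/
def Gs (F : Type) [Field F] (m : ℕ) : Subgroup (SpecialLinearGroup (Fin 2) (Rg F m)) where
  carrier := {g | cf 0 (g 0 0) = 1 ∧ cf 0 (g 0 1) = 0 ∧ cf 0 (g 1 1) = 1}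
  mul_mem' := by
    rintro a b ⟨h1, h2, h3⟩ ⟨k1, k2, k3⟩
    refine ⟨?_, ?_, ?_⟩ <;>
      simp [Matrix.mul_apply, Fin.sum_univ_two, h1, h2, h3, k1, k2, k3]
  one_mem' := by
    refine ⟨?_, ?_, ?_⟩ <;> simp
  inv_mem' := by
    rintro a ⟨h1, h2, h3⟩
    refine ⟨?_, ?_, ?_⟩ <;>
      simp [Matrix.adjugate_fin_two, h1, h2, h3]

theorem mem_Gs (g : SpecialLinearGroup (Fin 2) (Rg F m)) :
    g ∈ Gs F m ↔ cf 0 (g 0 0) = 1 ∧ cf 0 (g 0 1) = 0 ∧ cf 0 (g 1 1) = 1 := Iff.rfl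

/-- the matrix `(a b; c d)` of determinant one -/
def sl {R : Type*} [CommRing R] (a b c d : R) (h : a * d - b * c = 1) :
    SpecialLinearGroup (Fin 2) R :=
  ⟨!![a, b; c, d], by rw [Matrix.det_fin_two_of]; exact h⟩

section
variable {R : Type*} [CommRing R] (a b c d : R) (h : a * d - b * c = 1)
@[simp] theorem sl_00 : (sl a b c d h) 0 0 = a := rfl
@[simp] theorem sl_01 : (sl a b c d h) 0 1 = b := rfl
@[simp] theorem sl_10 : (sl a b c d h) 1 0 = c := rfl
@[simp] theorem sl_11 : (sl a b c d h) 1 1 = d := rfl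
end

theorem sl_ext {R : Type*} [CommRing R] (g k : SpecialLinearGroup (Fin 2) R)
    (h00 : g 0 0 = k 0 0) (h01 : g 0 1 = k 0 1) (h10 : g 1 0 = k 1 0) (h11 : g 1 1 = k 1 1) :
    g = k := by
  ext i j
  fin_cases i <;> fin_cases j <;> assumption

section
variable {R : Type*} [CommRing R] (g k : SpecialLinearGroup (Fin 2) R)
theorem mul_00 : (g * k) 0 0 = g 0 0 * k 0 0 + g 0 1 * k 1 0 := by
  simp [Matrix.mul_apply, Fin.sum_univ_two]
theorem mul_01 : (g * k) 0 1 = g 0 0 * k 0 1 + g 0 1 * k 1 1 := by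
  simp [Matrix.mul_apply, Fin.sum_univ_two]
theorem mul_10 : (g * k) 1 0 = g 1 0 * k 0 0 + g 1 1 * k 1 0 := by
  simp [Matrix.mul_apply, Fin.sum_univ_two]
theorem mul_11 : (g * k) 1 1 = g 1 0 * k 0 1 + g 1 1 * k 1 1 := by
  simp [Matrix.mul_apply, Fin.sum_univ_two]
theorem inv_00 : (g⁻¹) 0 0 = g 1 1 := by
  simp [Matrix.adjugate_fin_two]
theorem inv_01 : (g⁻¹) 0 1 = - g 0 1 := by
  simp [Matrix.adjugate_fin_two]
theorem inv_10 : (g⁻¹) 1 0 = - g 1 0 := by
  simp [Matrix.adjugate_fin_two]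
theorem inv_11 : (g⁻¹) 1 1 = g 0 0 := by
  simp [Matrix.adjugate_fin_two]
theorem det_eq : g 0 0 * g 1 1 - g 0 1 * g 1 0 = 1 := by
  have := g.2
  rw [Matrix.det_fin_two] at this
  exact this
end

end

end Anq13
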