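import Mathlib
import Pool.Agent.Anq13.Ring

/-!
# MP_d4d904_co : a bound for the second eigenvalue of A(n,q), uniform in n (definitions)
-/

namespace Anq13

open Polynomial Matrix

noncomputable section

/-! ## Abstract part: Chebyshev words in two letters -/

/-- the letters `e, u, e, u, ...` -/
def L {A : Type*} (e u : A) (i : ℕ) : A := if Even i then e else u

/-- Chebyshev words in the alternating letters `L s, L (s+1), ...` -/
def Y {A : Type*} [Ring A] [Algebra ℝ A] (q : ℝ) (e u : A) (s : ℕ) : ℕ → A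
  | 0 => L e u s
  | 1 => L e u s * L e u (s + 1)
  | (k + 2) => Y q e u s (k + 1) * L e u (s + k + 2) - (q - 1) • Y q e u s k

/-- the scalar Chebyshev recursion -/
def ch (q lam : ℝ) : ℕ → ℝ
  | 0 => 1
  | 1 => lam
  | (k + 2) => lam * ch q lam (k + 1) - (q - 1) * ch q lam k

/-- reduced words with `l+1` letters `u` -/
def W {A : Type*} [Ring A] (e u : A) (l : ℕ) : A := (u - 1) * ((e - 1) * (u - 1)) ^ l * e

/-! ## Group part -/

/-- right multiplication by `h` as a 0/1 matrix -/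
def rho {G : Type*} [Group G] [DecidableEq G] (h : G) : Matrix G G ℝ :=
  fun g g' => if g * h = g' then 1 else 0

/-- the sum of the matrices `rho (E x)` -/
def em {G F : Type*} [Group G] [DecidableEq G] [Fintype F] (E : F → G) : Matrix G G ℝ :=
  ∑ x, rho (E x)

/-- `(Phi, Psi)` is an eigenpair (lines, points) on the group with step functions `E, U` -/
structure EigG {G F : Type*} [Group G] [Fintype F] (E U : F → G) (lam : ℝ)
    (Phi Psi : G → ℂ) : Prop where
  invE : ∀ g x, Phi (g * E x) = Phi g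
  invU : ∀ g s, Psi (g * U s) = Psi g
  sumE : ∀ g, ∑ x, Psi (g * E x) = (lam : ℂ) * Phi g
  sumU : ∀ g, ∑ s, Phi (g * U s) = (lam : ℂ) * Psi g

/-- reduced words ending in a nontrivial `u`, with `l+1` letters `u` -/
def Qw {Γ F : Type*} [Group Γ] [DecidableEq Γ] [Fintype F] [DecidableEq F] [Zero F]
    (e0 u0 : F → Γ) : ℕ → Finset Γ
  | 0 => (Finset.univ.filter (fun s : F => s ≠ 0)).image u0
  | (l + 1) => ((Qw e0 u0 l) ×ˢ ((Finset.univ.filter (fun x : F => x ≠ 0)) ×ˢ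
      (Finset.univ.filter (fun s : F => s ≠ 0)))).image (fun p => p.1 * e0 p.2.1 * u0 p.2.2)

/-- reduced words ending in an arbitrary `e` -/
def Tw {Γ F : Type*} [Group Γ] [DecidableEq Γ] [Fintype F] [DecidableEq F] [Zero F]
    (e0 u0 : F → Γ) (l : ℕ) : Finset Γ :=
  ((Qw e0 u0 l) ×ˢ (Finset.univ : Finset F)).image (fun p => p.1 * e0 p.2)

/-! ## The concrete groups -/

/-- matrices over `F[X]` that are lower unipotent modulo `X` -/
def Gam (F : Type) [Field F] (m : ℕ) : Subgroup (SpecialLinearGroup (Fin 2) F[X]) :=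
  (Gs F m).comap (SpecialLinearGroup.map (AdjoinRoot.mk (X ^ (m + 1) : F[X])))

/-- reduction modulo `X^(m+1)` -/
def pr (F : Type) [Field F] (m : ℕ) : Gam F m →* Gs F m :=
  MonoidHom.subgroupComap (SpecialLinearGroup.map (AdjoinRoot.mk (X ^ (m + 1) : F[X]))) (Gs F m)

variable {F : Type} [Field F]

theorem mem_Gam (m : ℕ) (g : SpecialLinearGroup (Fin 2) F[X]) :
    g ∈ Gam F m ↔ (g 0 0).coeff 0 = 1 ∧ (g 0 1).coeff 0 = 0 ∧ (g 1 1).coeff 0 = 1 := by
  have h : ∀ f : F[X], cf 0 (mk m f) = f.coeff 0 := fun f => cf_mk 0 (Nat.zero_le _) f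
  constructor
  · rintro ⟨h1, h2, h3⟩
    exact ⟨(h _).symm.trans h1, (h _).symm.trans h2, (h _).symm.trans h3⟩
  · rintro ⟨h1, h2, h3⟩
    exact ⟨(h _).trans h1, (h _).trans h2, (h _).trans h3⟩

/-- `(1 0; x 1)` over `F[X]` -/
def eP (m : ℕ) (x : F) : Gam F m :=
  ⟨sl 1 0 (C x) 1 (by ring), by
    rw [mem_Gam]
    simp⟩

/-- `(1 -sX; 0 1)` over `F[X]` -/
def uP (m : ℕ) (s : F) : Gam F m :=
  ⟨sl 1 (-(C s * X)) 0 1 (by ring), by
    rw [mem_Gam]
    simp⟩

/-- `(1 0; x 1)` over the truncated ring -/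
def eG (m : ℕ) (x : F) : Gs F m := pr F m (eP m x)

/-- `(1 -st; 0 1)` over the truncated ring -/
def uG (m : ℕ) (s : F) : Gs F m := pr F m (uP m s)

/-- `(1 0; y 1)` over the truncated ring -/
def nl {m : ℕ} (y : Rg F m) : Gs F m :=
  ⟨sl 1 0 y 1 (by ring), by
    rw [mem_Gs]
    simp⟩

/-- `(1+ct^m 0; 0 1-ct^m)` over the truncated ring -/
def zl {m : ℕ} (hm : 1 ≤ m) (c : F) : Gs F m :=
  ⟨sl (1 + cs c * tt ^ m) 0 0 (1 - cs c * tt ^ m) (by
    have h : (cs c * tt ^ m : Rg F m) * (cs c * tt ^ m) = 0 := by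
      rw [mul_mul_mul_comm, ← pow_add, tt_pow_eq_zero _ (by omega), mul_zero]
    linear_combination -h), by
    rw [mem_Gs]
    have h : cf 0 (cs c * tt ^ m : Rg F m) = 0 := by
      rw [cf_cs_tpow 0 (Nat.zero_le _), if_neg (by omega)]
    refine ⟨?_, ?_, ?_⟩
    · rw [sl_00, cf_add, h]; simp
    · rw [sl_01]; simp
    · rw [sl_11, cf_sub, h]; simp⟩

/-! ## The graph A(n,q) -/

/-- the point `p` and the line `l` of `A(n,q)` are incident (coordinates numbered from `0`) -/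
def Inc {F : Type} [Field F] {n : ℕ} (p l : Fin n → F) : Prop :=
  ∀ (j : ℕ) (h : j + 1 < n), p ⟨j + 1, h⟩ + l ⟨j + 1, h⟩ =
    if Even j then p ⟨j, by omega⟩ * l ⟨0, by omega⟩ else p ⟨0, by omega⟩ * l ⟨j, by omega⟩

open Classical in
/-- `(f, g)` is an eigenpair (points, lines) of `A(n,q)` with eigenvalue `lam` -/
structure EigA {F : Type} [Field F] [Fintype F] {n : ℕ} (lam : ℝ)
    (f g : (Fin n → F) → ℂ) : Prop where
  sumP : ∀ l, ∑ p ∈ Finset.univ.filter (fun p : Fin n → F => Inc p l), f p = (lam : ℂ) * g l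
  sumL : ∀ p, ∑ l ∈ Finset.univ.filter (fun l : Fin n → F => Inc p l), g l = (lam : ℂ) * f p

/-- the bipartite graph `A(n,q)`; `Sum.inl p` are the points and `Sum.inr l` the lines -/
def graphA (F : Type) [Field F] (n : ℕ) : SimpleGraph ((Fin n → F) ⊕ (Fin n → F)) where
  Adj v w := (∃ p l, v = Sum.inl p ∧ w = Sum.inr l ∧ Inc p l) ∨
    (∃ p l, v = Sum.inr l ∧ w = Sum.inl p ∧ Inc p l)
  symm := ⟨by
    rintro v w (⟨p, l, rfl, rfl, h⟩ | ⟨p, l, rfl, rfl, h⟩)
    · exact Or.inr ⟨p, l, rfl, rfl, h⟩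
    · exact Or.inl ⟨p, l, rfl, rfl, h⟩⟩
  loopless := ⟨by
    rintro v (⟨p, l, h1, h2, -⟩ | ⟨p, l, h1, h2, -⟩)
    · exact Sum.inl_ne_inr (h1.symm.trans h2)
    · exact Sum.inr_ne_inl (h1.symm.trans h2)⟩

open Classical in
/-- the adjacency matrix of `A(n,q)` -/
def adjA (F : Type) [Field F] (n : ℕ) :
    Matrix ((Fin n → F) ⊕ (Fin n → F)) ((Fin n → F) ⊕ (Fin n → F)) ℝ :=
  (graphA F n).adjMatrix ℝ

theorem adjA_herm (F : Type) [Field F] (n : ℕ) : (adjA F n).IsHermitian := by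
  classical
  unfold adjA
  have h := SimpleGraph.isSymm_adjMatrix (α := ℝ) (graphA F n)
  rw [Matrix.IsHermitian, Matrix.conjTranspose_eq_transpose_of_trivial]
  exact h

open Classical in
theorem one_lt_card (F : Type) [Field F] [Fintype F] (n : ℕ) :
    1 < Fintype.card ((Fin n → F) ⊕ (Fin n → F)) := by
  rw [Fintype.card_sum]
  have h : 0 < Fintype.card (Fin n → F) := Fintype.card_pos
  omega

open Classical in
/-- the second largest eigenvalue of `A(n,q)`, with multiplicity -/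
def lam2 (F : Type) [Field F] [Fintype F] (n : ℕ) : ℝ :=
  (adjA_herm F n).eigenvalues₀ ⟨1, one_lt_card F n⟩

end

end Anq13
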