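import Mathlib
import Pool.Agent.Anq13.Defs

/-!
# MP_d4d904_co : module B, the inequality of Bessel for an orthogonal family of eigenpairs
-/

namespace Anq13

open Matrix

section Act94

variable {G : Type*} [Fintype G] [DecidableEq G]

/-- a real matrix acting on complex functions -/
noncomputable def act94 (M : Matrix G G ℝ) (f : G → ℂ) (g : G) : ℂ := ∑ g', (M g g' : ℂ) * f g'

theorem act_mul94 (M N : Matrix G G ℝ) (f : G → ℂ) :
    act94 (M * N) f = act94 M (act94 N f) := by
  funext g
  unfold act94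
  simp only [Matrix.mul_apply, Complex.ofReal_sum, Complex.ofReal_mul, Finset.sum_mul,
    Finset.mul_sum]
  rw [Finset.sum_comm]
  refine Finset.sum_congr rfl fun a _ => Finset.sum_congr rfl fun b _ => ?_
  ring

theorem act_sub_smul94 (M N : Matrix G G ℝ) (c : ℝ) (f : G → ℂ) (g : G) :
    act94 (M - c • N) f g = act94 M f g - (c : ℂ) * act94 N f g := by
  unfold act94
  rw [Finset.mul_sum, ← Finset.sum_sub_distrib]
  refine Finset.sum_congr rfl fun a _ => ?_
  rw [Matrix.sub_apply, Matrix.smul_apply, smul_eq_mul]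
  push_cast
  ring

theorem act_const94 (M : Matrix G G ℝ) (c : ℂ) (f : G → ℂ) (g : G) :
    act94 M (fun x => c * f x) g = c * act94 M f g := by
  unfold act94
  rw [Finset.mul_sum]
  refine Finset.sum_congr rfl fun a _ => ?_
  ring

theorem act_symm94 (M : Matrix G G ℝ) (hM : Mᵀ = M) (f h : G → ℂ) :
    ∑ g, (starRingEnd ℂ) (act94 M f g) * h g = ∑ g, (starRingEnd ℂ) (f g) * act94 M h g := by
  unfold act94
  simp only [map_sum, map_mul, Complex.conj_ofReal, Finset.sum_mul, Finset.mul_sum]
  rw [Finset.sum_comm]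
  refine Finset.sum_congr rfl fun a _ => Finset.sum_congr rfl fun b _ => ?_
  have h1 : M b a = M a b := by
    have := congrFun (congrFun hM a) b
    rwa [Matrix.transpose_apply] at this
  rw [h1]
  ring

end Act94

theorem Yend94' {G : Type*} [Fintype G] [DecidableEq G] (q : ℝ) (e u : Matrix G G ℝ)
    (he : e * e = q • e) (hu : u * u = q • u) (k : ℕ) :
    Y q e u 0 k * L e u k = q • Y q e u 0 k := by
  have hsq : ∀ i, L e u i * L e u i = q • L e u i := by
    intro i
    unfold L
    split_ifs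
    · exact he
    · exact hu
  have htwo : ∀ i, L e u (i + 2) = L e u i := by
    intro i
    unfold L
    have h : Even (i + 2) ↔ Even i := by
      rw [Nat.even_add]
      simp
    by_cases h1 : Even i
    · rw [if_pos h1, if_pos (h.2 h1)]
    · rw [if_neg h1, if_neg (fun h2 => h1 (h.1 h2))]
  induction k using Nat.twoStepInduction with
  | zero => rw [Y, hsq]
  | one => rw [Y, mul_assoc, zero_add, hsq, mul_smul_comm]
  | more k ih1 _ =>
    rw [Y, sub_mul, mul_assoc, zero_add, hsq, smul_mul_assoc, htwo, ih1, mul_smul_comm,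
      smul_sub, smul_comm q (q - 1)]

theorem bessel {G ι : Type*} [Fintype G] [DecidableEq G] [Fintype ι] (q : ℝ) (hq : 0 < q)
    (e u : Matrix G G ℝ) (he : e * e = q • e) (hu : u * u = q • u) (het : eᵀ = e) (hut : uᵀ = u)
    (lam : ℝ) (hlam : lam ≠ 0) (φ ψ : ι → G → ℂ)
    (h1 : ∀ i g, ∑ g', (e g g' : ℂ) * φ i g' = (q : ℂ) * φ i g)
    (h2 : ∀ i g, ∑ g', (u g g' : ℂ) * ψ i g' = (q : ℂ) * ψ i g)
    (h3 : ∀ i g, ∑ g', (e g g' : ℂ) * ψ i g' = (lam : ℂ) * φ i g)
    (h4 : ∀ i g, ∑ g', (u g g' : ℂ) * φ i g' = (lam : ℂ) * ψ i g)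
    (hne : ∀ i, φ i ≠ 0)
    (horth : ∀ i j, i ≠ j → ∑ g, (starRingEnd ℂ) (φ i g) * φ j g = 0) (k : ℕ) :
    (Fintype.card ι : ℝ) * (q * ch q lam k) ^ 2 ≤ ∑ g, ∑ g', (Y q e u 0 k g g') ^ 2 := by
  classical
  have hqc : (q : ℂ) ≠ 0 := by exact_mod_cast hq.ne'
  have hlc : (lam : ℂ) ≠ 0 := by exact_mod_cast hlam
  have a1 : ∀ i, act94 e (φ i) = fun g => (q : ℂ) * φ i g := fun i => funext (h1 i)
  have a2 : ∀ i, act94 u (ψ i) = fun g => (q : ℂ) * ψ i g := fun i => funext (h2 i)
  have a3 : ∀ i, act94 e (ψ i) = fun g => (lam : ℂ) * φ i g := fun i => funext (h3 i)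
  have a4 : ∀ i, act94 u (φ i) = fun g => (lam : ℂ) * ψ i g := fun i => funext (h4 i)
  -- Gram matrices
  have gram : ∀ i j, ∑ g, (starRingEnd ℂ) (ψ i g) * ψ j g =
      ∑ g, (starRingEnd ℂ) (φ i g) * φ j g := by
    intro i j
    have s1 := act_symm94 u hut (φ i) (ψ j)
    have s2 := act_symm94 e het (φ i) (ψ j)
    rw [a4 i, a2 j] at s1
    rw [a1 i, a3 j] at s2
    simp only [map_mul, Complex.conj_ofReal] at s1 s2
    have t1 : (lam : ℂ) * ∑ g, (starRingEnd ℂ) (ψ i g) * ψ j g =
        (q : ℂ) * ∑ g, (starRingEnd ℂ) (φ i g) * ψ j g := by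
      rw [Finset.mul_sum, Finset.mul_sum]
      refine Eq.trans ?_ (s1.trans ?_)
      · exact Finset.sum_congr rfl fun g _ => by ring
      · exact Finset.sum_congr rfl fun g _ => by ring
    have t2 : (q : ℂ) * ∑ g, (starRingEnd ℂ) (φ i g) * ψ j g =
        (lam : ℂ) * ∑ g, (starRingEnd ℂ) (φ i g) * φ j g := by
      rw [Finset.mul_sum, Finset.mul_sum]
      refine Eq.trans ?_ (s2.trans ?_)
      · exact Finset.sum_congr rfl fun g _ => by ring
      · exact Finset.sum_congr rfl fun g _ => by ring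
    exact mul_left_cancel₀ hlc (t1.trans t2)
  -- the action of the words
  set χ : ℕ → ι → G → ℂ := fun k i => if Even k then φ i else ψ i with hχ
  have hLχ : ∀ k i, act94 (L e u k) (χ k i) = fun g => (q : ℂ) * χ k i g := by
    intro k i
    by_cases hk : Even k
    · simp only [hχ, L, if_pos hk]
      exact a1 i
    · simp only [hχ, L, if_neg hk]
      exact a2 i
  have hLχ' : ∀ k i, act94 (L e u (k + 1)) (χ k i) = fun g => (lam : ℂ) * χ (k + 1) i g := by
    intro k i
    by_cases hk : Even k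
    · have hk' : ¬ Even (k + 1) := by
        rw [Nat.even_add_one]
        exact not_not.2 hk
      simp only [hχ, L, if_pos hk, if_neg hk']
      exact a4 i
    · have hk' : Even (k + 1) := Nat.even_add_one.2 hk
      simp only [hχ, L, if_neg hk, if_pos hk']
      exact a3 i
  have hχ2 : ∀ k i, χ (k + 2) i = χ k i := by
    intro k i
    have h : Even (k + 2) ↔ Even k := by
      rw [Nat.even_add]
      simp
    by_cases hk : Even k
    · simp only [hχ, if_pos hk, if_pos (h.2 hk)]
    · simp only [hχ, if_neg hk, if_neg (fun h' => hk (h.1 h'))]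
  have hY : ∀ k i g, act94 (Y q e u 0 k) (χ k i) g = (q : ℂ) * (ch q lam k : ℂ) * φ i g := by
    intro k
    induction k using Nat.twoStepInduction with
    | zero =>
      intro i g
      have hl : act94 (L e u 0) (χ 0 i) g = (q : ℂ) * χ 0 i g := congrFun (hLχ 0 i) g
      rw [Y, hl]
      simp [hχ, ch]
    | one =>
      intro i g
      rw [Y, act_mul94]
      have hl : act94 (L e u (0 + 1)) (χ 1 i) = fun g => (q : ℂ) * χ 1 i g := hLχ 1 i
      rw [hl, act_const94]
      have hx : χ 1 i = ψ i := by simp [hχ]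
      have hl0 : L e u 0 = e := by simp [L]
      rw [hx, hl0, a3 i]
      simp only [ch]
      ring
    | more k ih1 ih2 =>
      intro i g
      have b1 : act94 (Y q e u 0 (k + 1)) (χ k i) g =
          (lam : ℂ) * (ch q lam (k + 1) : ℂ) * φ i g := by
        have c1 : act94 (Y q e u 0 (k + 1) * L e u (k + 1)) (χ k i) g =
            (q : ℂ) * act94 (Y q e u 0 (k + 1)) (χ k i) g := by
          rw [Yend94' q e u he hu]
          unfold act94
          rw [Finset.mul_sum]
          refine Finset.sum_congr rfl fun a _ => ?_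
          rw [Matrix.smul_apply, smul_eq_mul]
          push_cast
          ring
        rw [act_mul94, hLχ' k i, act_const94, ih2 i g] at c1
        have c2 : (q : ℂ) * act94 (Y q e u 0 (k + 1)) (χ k i) g =
            (q : ℂ) * ((lam : ℂ) * (ch q lam (k + 1) : ℂ) * φ i g) := by
          rw [← c1]
          ring
        exact mul_left_cancel₀ hqc c2
      rw [hχ2, Y, act_sub_smul94, act_mul94]
      have hl : act94 (L e u (0 + k + 2)) (χ k i) = fun g => (q : ℂ) * χ k i g := by
        have := hLχ (k + 2) i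
        rw [hχ2] at this
        rw [zero_add]
        exact this
      rw [hl, act_const94, b1, ih1 i g, ch]
      push_cast
      ring
  -- Bessel
  set nn : ι → ℝ := fun i => ∑ g, ‖φ i g‖ ^ 2 with hnn
  have hnpos : ∀ i, 0 < nn i := by
    intro i
    have h0 : ∃ g, φ i g ≠ 0 := by
      by_contra hcon
      push Not at hcon
      exact hne i (funext hcon)
    obtain ⟨g, hg⟩ := h0
    refine Finset.sum_pos' (fun g _ => by positivity) ⟨g, Finset.mem_univ _, ?_⟩
    have : 0 < ‖φ i g‖ := norm_pos_iff.2 hg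
    positivity
  have hgram : ∀ i j, ∑ g, (starRingEnd ℂ) (χ k i g) * χ k j g =
      if i = j then (nn i : ℂ) else 0 := by
    intro i j
    have h0 : ∑ g, (starRingEnd ℂ) (χ k i g) * χ k j g =
        ∑ g, (starRingEnd ℂ) (φ i g) * φ j g := by
      by_cases hk : Even k
      · simp only [hχ, if_pos hk]
      · simp only [hχ, if_neg hk]
        exact gram i j
    rw [h0]
    by_cases hij : i = j
    · subst hij
      rw [if_pos rfl, hnn]
      push_cast
      refine Finset.sum_congr rfl fun g _ => ?_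
      rw [← Complex.normSq_eq_conj_mul_self, Complex.normSq_eq_norm_sq]
      push_cast
      rfl
    · rw [if_neg hij]
      exact horth i j hij
  let v : ι → EuclideanSpace ℂ G := fun i =>
    ((1 / Real.sqrt (nn i) : ℝ) : ℂ) • WithLp.toLp 2 (χ k i)
  have hinner : ∀ (f h : G → ℂ), inner ℂ (WithLp.toLp 2 f : EuclideanSpace ℂ G)
      (WithLp.toLp 2 h) = ∑ g, (starRingEnd ℂ) (f g) * h g := by
    intro f h
    rw [PiLp.inner_apply]
    refine Finset.sum_congr rfl fun g _ => ?_
    simp [mul_comm]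
  have hv : Orthonormal ℂ v := by
    rw [orthonormal_iff_ite]
    intro i j
    simp only [v]
    rw [inner_smul_left, inner_smul_right, hinner, hgram]
    by_cases hij : i = j
    · subst hij
      rw [if_pos rfl, if_pos rfl, Complex.conj_ofReal]
      have h0 : Real.sqrt (nn i) ≠ 0 := (Real.sqrt_pos.2 (hnpos i)).ne'
      have h5 : (1 / Real.sqrt (nn i)) * ((1 / Real.sqrt (nn i)) * nn i) = 1 := by
        have h6 := Real.mul_self_sqrt (hnpos i).le
        field_simp
        nlinarith [h6]
      exact_mod_cast h5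
    · rw [if_neg hij, if_neg hij, mul_zero, mul_zero]
  have hb : ∀ g, ∑ i, ‖act94 (Y q e u 0 k) (χ k i) g‖ ^ 2 / nn i ≤
      ∑ g', (Y q e u 0 k g g') ^ 2 := by
    intro g
    have hx := hv.sum_inner_products_le
      (WithLp.toLp 2 (fun g' => ((Y q e u 0 k g g' : ℝ) : ℂ)) : EuclideanSpace ℂ G)
      (s := Finset.univ)
    have hr : ‖(WithLp.toLp 2 (fun g' => ((Y q e u 0 k g g' : ℝ) : ℂ)) :
        EuclideanSpace ℂ G)‖ ^ 2 = ∑ g', (Y q e u 0 k g g') ^ 2 := by
      rw [EuclideanSpace.norm_sq_eq]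
      refine Finset.sum_congr rfl fun g' _ => ?_
      simp
    rw [hr] at hx
    refine le_trans (le_of_eq ?_) hx
    refine Finset.sum_congr rfl fun i _ => ?_
    simp only [v]
    rw [inner_smul_left, hinner, Complex.conj_ofReal, norm_mul]
    have h7 : ∑ g', (starRingEnd ℂ) (χ k i g') * ((Y q e u 0 k g g' : ℝ) : ℂ) =
        (starRingEnd ℂ) (act94 (Y q e u 0 k) (χ k i) g) := by
      unfold act94
      simp only [map_sum, map_mul, Complex.conj_ofReal]
      exact Finset.sum_congr rfl fun _ _ => mul_comm _ _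
    rw [h7, RCLike.norm_conj, mul_pow, Complex.norm_real, Real.norm_eq_abs, sq_abs, div_pow,
      Real.sq_sqrt (hnpos i).le]
    ring
  calc (Fintype.card ι : ℝ) * (q * ch q lam k) ^ 2
      = ∑ i : ι, ∑ g, ‖act94 (Y q e u 0 k) (χ k i) g‖ ^ 2 / nn i := by
        have h8 : ∀ i : ι, ∑ g, ‖act94 (Y q e u 0 k) (χ k i) g‖ ^ 2 / nn i =
            (q * ch q lam k) ^ 2 := by
          intro i
          have h9 : ∀ g, ‖act94 (Y q e u 0 k) (χ k i) g‖ ^ 2 / nn i =
              (q * ch q lam k) ^ 2 / nn i * ‖φ i g‖ ^ 2 := by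
            intro g
            rw [hY k i g, ← Complex.ofReal_mul, norm_mul, Complex.norm_real, mul_pow,
              Real.norm_eq_abs, sq_abs]
            ring
          rw [Finset.sum_congr rfl fun g _ => h9 g, ← Finset.mul_sum]
          exact div_mul_cancel₀ _ (hnpos i).ne'
        rw [Finset.sum_congr rfl fun i _ => h8 i, Finset.sum_const, Finset.card_univ,
          nsmul_eq_mul]
    _ = ∑ g, ∑ i : ι, ‖act94 (Y q e u 0 k) (χ k i) g‖ ^ 2 / nn i := Finset.sum_comm
    _ ≤ ∑ g, ∑ g', (Y q e u 0 k g g') ^ 2 := Finset.sum_le_sum fun g _ => hb g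

end Anq13
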