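import Mathlib
import Pool.Agent.Anq13.Defs

/-!
# MP_d4d904_co : module F, the order of the group
-/

namespace Anq13

open Polynomial Matrix

theorem card_Gs {F : Type} [Field F] [Fintype F] (m : ℕ) [Fintype (Gs F m)] :
    Fintype.card (Gs F m) ≤ Fintype.card F ^ (3 * m + 1) := by
  classical
  have hinj : Function.Injective (fun g : Gs F m =>
      ((fun i : Fin m => cf ((i : ℕ) + 1) ((g : SpecialLinearGroup (Fin 2) (Rg F m)) 0 0),
        fun i : Fin m => cf ((i : ℕ) + 1) ((g : SpecialLinearGroup (Fin 2) (Rg F m)) 0 1),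
        fun i : Fin (m + 1) => cf (i : ℕ) ((g : SpecialLinearGroup (Fin 2) (Rg F m)) 1 0)) :
        (Fin m → F) × (Fin m → F) × (Fin (m + 1) → F))) := by
    intro g k h
    simp only [Prod.mk.injEq] at h
    obtain ⟨h1, h2, h3⟩ := h
    have hg := (mem_Gs _).mp g.2
    have hk := (mem_Gs _).mp k.2
    have h00 : (g : SpecialLinearGroup (Fin 2) (Rg F m)) 0 0 =
        (k : SpecialLinearGroup (Fin 2) (Rg F m)) 0 0 := by
      apply cf_ext
      intro i hi
      rcases Nat.eq_zero_or_pos i with rfl | hpos
      · rw [hg.1, hk.1]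
      · have := congrFun h1 ⟨i - 1, by omega⟩
        simp only [Nat.sub_add_cancel hpos] at this
        exact this
    have h01 : (g : SpecialLinearGroup (Fin 2) (Rg F m)) 0 1 =
        (k : SpecialLinearGroup (Fin 2) (Rg F m)) 0 1 := by
      apply cf_ext
      intro i hi
      rcases Nat.eq_zero_or_pos i with rfl | hpos
      · rw [hg.2.1, hk.2.1]
      · have := congrFun h2 ⟨i - 1, by omega⟩
        simp only [Nat.sub_add_cancel hpos] at this
        exact this
    have h10 : (g : SpecialLinearGroup (Fin 2) (Rg F m)) 1 0 =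
        (k : SpecialLinearGroup (Fin 2) (Rg F m)) 1 0 := by
      apply cf_ext
      intro i hi
      exact congrFun h3 ⟨i, by omega⟩
    have h11 : (g : SpecialLinearGroup (Fin 2) (Rg F m)) 1 1 =
        (k : SpecialLinearGroup (Fin 2) (Rg F m)) 1 1 := by
      obtain ⟨s, hs, -⟩ := exists_inv _ hg.1
      have d1 := det_eq (g : SpecialLinearGroup (Fin 2) (Rg F m))
      have d2 := det_eq (k : SpecialLinearGroup (Fin 2) (Rg F m))
      rw [← h00, ← h01, ← h10] at d2
      have d3 : (g : SpecialLinearGroup (Fin 2) (Rg F m)) 0 0 *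
          (g : SpecialLinearGroup (Fin 2) (Rg F m)) 1 1 =
          (g : SpecialLinearGroup (Fin 2) (Rg F m)) 0 0 *
          (k : SpecialLinearGroup (Fin 2) (Rg F m)) 1 1 := by
        linear_combination d1 - d2
      have d4 := congrArg (fun z => s * z) d3
      simp only [← mul_assoc] at d4
      rw [mul_comm s, hs, one_mul, one_mul] at d4
      exact d4
    exact Subtype.ext (sl_ext _ _ h00 h01 h10 h11)
  have hc := Fintype.card_le_of_injective _ hinj
  refine hc.trans (le_of_eq ?_)
  simp only [Fintype.card_prod, Fintype.card_fun, Fintype.card_fin]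
  rw [← pow_add, ← pow_add]
  congr 1
  ring

end Anq13
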