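import Mathlib
import Pool.Agent.Anq13.Defs

/-!
# MP_d4d904_co : module A, Chebyshev words and the Hilbert-Schmidt norm
-/

namespace Anq13

open Matrix

section Alg94

variable {A : Type*} [Ring A] [Algebra ℝ A] (q : ℝ) (e u : A)

theorem L_two94 (i : ℕ) : L e u (i + 2) = L e u i := by
  unfold L
  have h : Even (i + 2) ↔ Even i := by
    rw [Nat.even_add]
    simp
  by_cases h1 : Even i
  · rw [if_pos h1, if_pos (h.2 h1)]
  · rw [if_neg h1, if_neg (fun h2 => h1 (h.1 h2))]

theorem L_mul94 (a i : ℕ) : L e u (a + 2 * i) = L e u a := by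
  induction i with
  | zero => rfl
  | succ i ih =>
    rw [show a + 2 * (i + 1) = a + 2 * i + 2 by ring, L_two94, ih]

theorem Y_zero94 (s : ℕ) : Y q e u s 0 = L e u s := by rw [Y]

theorem Y_one94 (s : ℕ) : Y q e u s 1 = L e u s * L e u (s + 1) := by rw [Y]

theorem Y_succ94 (s k : ℕ) : Y q e u s (k + 2) =
    Y q e u s (k + 1) * L e u (s + k + 2) - (q - 1) • Y q e u s k := by rw [Y]

theorem L_sq94 (he : e * e = q • e) (hu : u * u = q • u) (i : ℕ) :
    L e u i * L e u i = q • L e u i := by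
  unfold L
  split_ifs
  · exact he
  · exact hu

theorem Y_two94 (s k : ℕ) : Y q e u (s + 2) k = Y q e u s k := by
  induction k using Nat.twoStepInduction with
  | zero => rw [Y_zero94, Y_zero94, L_two94]
  | one => rw [Y_one94, Y_one94, L_two94, show s + 2 + 1 = s + 1 + 2 by ring, L_two94]
  | more k ih1 ih2 =>
    rw [Y_succ94, Y_succ94, ih1, ih2, show s + 2 + k + 2 = s + k + 2 + 2 by ring, L_two94]

theorem Y_end94 (he : e * e = q • e) (hu : u * u = q • u) (s k : ℕ) :
    Y q e u s k * L e u (s + k) = q • Y q e u s k := by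
  induction k using Nat.twoStepInduction with
  | zero => rw [Y_zero94, add_zero, L_sq94 q e u he hu]
  | one => rw [Y_one94, mul_assoc, L_sq94 q e u he hu, mul_smul_comm]
  | more k ih1 _ =>
    have h1 : L e u (s + (k + 2)) = L e u (s + k) := by
      rw [show s + (k + 2) = s + k + 2 by ring, L_two94]
    rw [Y_succ94, sub_mul, mul_assoc, show s + k + 2 = s + (k + 2) by ring,
      L_sq94 q e u he hu, smul_mul_assoc, h1, ih1, mul_smul_comm, smul_sub,
      smul_comm q (q - 1)]

theorem Y_next94 (s k : ℕ) : Y q e u s (k + 1) * L e u (s + k + 2) =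
    Y q e u s (k + 2) + (q - 1) • Y q e u s k := by
  rw [Y_succ94, sub_add_cancel]

theorem Y_prod94 (he : e * e = q • e) (hu : u * u = q • u) (s : ℕ) (j : ℕ) :
    ∀ k, j ≤ k → Y q e u s k * Y q e u (s + k) j =
      q • ∑ i ∈ Finset.range (j + 1), (q - 1) ^ i • Y q e u s (k + j - 2 * i) := by
  induction j using Nat.twoStepInduction with
  | zero =>
    intro k _
    rw [Y_zero94, Y_end94 q e u he hu]
    simp
  | one =>
    intro k hk
    obtain ⟨m, rfl⟩ : ∃ m, k = m + 1 := ⟨k - 1, by omega⟩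
    rw [Y_one94, ← mul_assoc, Y_end94 q e u he hu, smul_mul_assoc,
      show s + (m + 1) + 1 = s + m + 2 by ring, Y_next94, Finset.sum_range_succ,
      Finset.sum_range_one, pow_zero, one_smul, pow_one]
    rfl
  | more j ih1 ih2 =>
    intro k hk
    rw [Y_succ94, mul_sub, ← mul_assoc, ih2 k (by omega), mul_smul_comm, ih1 k (by omega),
      smul_mul_assoc, Finset.sum_mul]
    have h1 : ∀ i ∈ Finset.range (j + 1 + 1), ((q - 1) ^ i • Y q e u s (k + (j + 1) - 2 * i)) *
        L e u (s + k + j + 2) = (q - 1) ^ i • Y q e u s (k + (j + 2) - 2 * i) +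
          (q - 1) ^ (i + 1) • Y q e u s (k + (j + 2) - 2 * (i + 1)) := by
      intro i hi
      rw [Finset.mem_range] at hi
      obtain ⟨m, hm⟩ : ∃ m, k + j = m + 2 * i := ⟨k + j - 2 * i, by omega⟩
      have e1 : k + (j + 1) - 2 * i = m + 1 := by omega
      have e2 : k + (j + 2) - 2 * i = m + 2 := by omega
      have e3 : k + (j + 2) - 2 * (i + 1) = m := by omega
      have e4 : s + k + j + 2 = (s + m + 2) + 2 * i := by omega
      rw [e1, e2, e3, e4, L_mul94, smul_mul_assoc, Y_next94, smul_add, smul_smul, pow_succ]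
    rw [Finset.sum_congr rfl h1, Finset.sum_add_distrib]
    have h2 : ∑ i ∈ Finset.range (j + 1), (q - 1) ^ i • Y q e u s (k + j - 2 * i) =
        ∑ i ∈ Finset.range (j + 1), (q - 1) ^ i • Y q e u s (k + (j + 2) - 2 * (i + 1)) := by
      refine Finset.sum_congr rfl fun i _ => ?_
      rw [show k + (j + 2) - 2 * (i + 1) = k + j - 2 * i by omega]
    have h3 : (q - 1) • q • ∑ i ∈ Finset.range (j + 1), (q - 1) ^ i •
        Y q e u s (k + (j + 2) - 2 * (i + 1)) = q • ∑ i ∈ Finset.range (j + 1),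
          (q - 1) ^ (i + 1) • Y q e u s (k + (j + 2) - 2 * (i + 1)) := by
      rw [smul_comm, Finset.smul_sum]
      congr 1
      refine Finset.sum_congr rfl fun i _ => ?_
      rw [smul_smul, pow_succ, mul_comm]
    rw [h2, h3, ← smul_sub]
    congr 1
    rw [Finset.sum_range_succ (fun i => (q - 1) ^ (i + 1) • Y q e u s (k + (j + 2) - 2 * (i + 1)))
      (j + 1), Finset.sum_range_succ (fun i => (q - 1) ^ i • Y q e u s (k + (j + 2) - 2 * i))
      (j + 2)]
    abel

theorem Y_left94 (s k : ℕ) : Y q e u s (k + 2) =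
    L e u s * Y q e u (s + 1) (k + 1) - (q - 1) • Y q e u s k := by
  induction k using Nat.twoStepInduction with
  | zero =>
    rw [Y_succ94, Y_one94, Y_zero94, zero_add, Y_one94, mul_assoc]
  | one =>
    have h3 : L e u (s + 1 + 2) = L e u (s + 1) := L_two94 e u (s + 1)
    rw [Y_succ94 q e u s 1, Y_succ94 q e u s 0, Y_succ94 q e u (s + 1) 0]
    simp only [Y_zero94, Y_one94, zero_add, add_zero, Nat.reduceAdd]
    rw [show s + 1 + 1 + 1 = s + 1 + 2 by ring, h3, show s + 1 + 1 = s + 2 by ring, L_two94,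
      mul_sub, sub_mul, mul_smul_comm, smul_mul_assoc]
    simp only [mul_assoc]
  | more k ih1 ih2 =>
    have hx : L e u s * Y q e u (s + 1) (k + 1) = Y q e u s (k + 2) + (q - 1) • Y q e u s k := by
      rw [ih1, sub_add_cancel]
    rw [Y_succ94 q e u s (k + 2), ih2, Y_succ94 q e u (s + 1) (k + 1)]
    have h3 : L e u (s + (k + 2) + 2) = L e u (s + k + 2) := by
      rw [show s + (k + 2) + 2 = s + k + 2 + 2 by ring, L_two94]
    have h4 : L e u (s + 1 + (k + 1) + 2) = L e u (s + k + 2) := by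
      rw [show s + 1 + (k + 1) + 2 = s + k + 2 + 2 by ring, L_two94]
    rw [h3, h4, sub_mul, mul_sub, smul_mul_assoc, mul_smul_comm, mul_assoc, Y_next94, hx]

theorem N_step94 (he : e * e = q • e) (hu : u * u = q • u) (j : ℕ) :
    (Y q e u 0 (2 * j + 2) = Y q e u 0 (2 * j) + e * W e u j) ∧
    (Y q e u 0 (2 * j + 3) = Y q e u 0 (2 * j + 1) +
      e * ((u - 1) * ((e - 1) * (u - 1)) ^ j) * (e - 1) * u) := by
  have hL0 : ∀ i, L e u (2 * i) = e := fun i => by simp [L]
  have hL1 : ∀ i, L e u (2 * i + 1) = u := fun i => by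
    unfold L
    rw [if_neg (by simp)]
  have hee : (e - 1) * e = (q - 1) • e := by
    rw [sub_mul, he, one_mul, sub_smul, one_smul]
  have huu : (u - 1) * u = (q - 1) • u := by
    rw [sub_mul, hu, one_mul, sub_smul, one_smul]
  induction j with
  | zero =>
    have hl0 : L e u 0 = e := hL0 0
    have hl1 : L e u 1 = u := hL1 0
    have hl2 : L e u 2 = e := hL0 1
    have hl3 : L e u 3 = u := hL1 1
    have hE2 : ∀ x, e * (e * x) = q • (e * x) := fun x => by
      rw [← mul_assoc, he, smul_mul_assoc]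
    have h2 : Y q e u 0 2 = e * u * e - (q - 1) • e := by
      rw [Y_succ94 q e u 0 0]
      simp only [zero_add, Y_zero94, Y_one94, hl0, hl1, hl2]
    constructor
    · simp only [mul_zero, zero_add, h2, Y_zero94, hl0, W, pow_zero, mul_one]
      rw [sub_mul, one_mul, mul_sub, he, ← mul_assoc, sub_smul, one_smul]
      abel
    · simp only [mul_zero, zero_add, pow_zero, mul_one]
      rw [Y_succ94 q e u 0 1, h2]
      simp only [zero_add, Y_one94, hl0, hl1, hl3, Nat.reduceAdd]
      have h5 : e * (u - 1) * (e - 1) * u = e * u * e * u - e * u * u - e * e * u + e * u := by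
        noncomm_ring
      rw [h5]
      simp only [sub_mul, mul_assoc, hu, he, hE2, mul_smul_comm, smul_mul_assoc, sub_smul,
        one_smul]
      abel
  | succ j ih =>
    obtain ⟨ih1, ih2⟩ := ih
    obtain ⟨a, ha⟩ : ∃ a : A, a = (u - 1) * ((e - 1) * (u - 1)) ^ j := ⟨_, rfl⟩
    rw [← ha] at ih2
    have ha' : (u - 1) * ((e - 1) * (u - 1)) ^ (j + 1) = a * (e - 1) * (u - 1) := by
      rw [pow_succ, ha]
      simp only [mul_assoc]
    have hWj : e * W e u j = e * a * e := by
      rw [W, ← ha, ← mul_assoc]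
    have hWj' : e * W e u (j + 1) = e * a * (e - 1) * u * e - (q - 1) • (e * a * e) := by
      rw [W, ha']
      have h6 : e * (a * (e - 1) * (u - 1) * e) = e * a * (e - 1) * u * e -
          e * a * ((e - 1) * e) := by
        noncomm_ring
      rw [h6, hee, mul_smul_comm]
    have hE : Y q e u 0 (2 * (j + 1) + 2) = Y q e u 0 (2 * (j + 1)) + e * W e u (j + 1) := by
      have r1 : Y q e u 0 (2 * (j + 1) + 2) = Y q e u 0 (2 * j + 3) * e -
          (q - 1) • Y q e u 0 (2 * j + 2) := by
        rw [Y_succ94 q e u 0 (2 * (j + 1)), show 0 + 2 * (j + 1) + 2 = 2 * (j + 2) by ring, hL0]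
        rfl
      have r2 : Y q e u 0 (2 * (j + 1)) = Y q e u 0 (2 * j + 1) * e -
          (q - 1) • Y q e u 0 (2 * j) := by
        rw [show 2 * (j + 1) = 2 * j + 2 by ring, Y_succ94 q e u 0 (2 * j),
          show 0 + 2 * j + 2 = 2 * (j + 1) by ring, hL0]
      rw [r1, ih2, ih1, hWj', add_mul, smul_add, r2, hWj]
      abel
    refine ⟨hE, ?_⟩
    have r3 : Y q e u 0 (2 * (j + 1) + 3) = Y q e u 0 (2 * (j + 1) + 2) * u -
        (q - 1) • Y q e u 0 (2 * j + 3) := by
      rw [show 2 * (j + 1) + 3 = (2 * (j + 1) + 1) + 2 by ring,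
        Y_succ94 q e u 0 (2 * (j + 1) + 1), show 0 + (2 * (j + 1) + 1) + 2 = 2 * (j + 2) + 1 by
          ring, hL1]
      rfl
    have r4 : Y q e u 0 (2 * (j + 1) + 1) = Y q e u 0 (2 * (j + 1)) * u -
        (q - 1) • Y q e u 0 (2 * j + 1) := by
      rw [show 2 * (j + 1) + 1 = (2 * j + 1) + 2 by ring,
        Y_succ94 q e u 0 (2 * j + 1), show 0 + (2 * j + 1) + 2 = 2 * (j + 1) + 1 by ring, hL1]
      rfl
    rw [r3, hE, ih2, r4, ha', add_mul, smul_add, W, ha']
    have h7 : e * (a * (e - 1) * (u - 1)) * (e - 1) * u =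
        e * (a * (e - 1) * (u - 1) * e) * u - e * a * (e - 1) * ((u - 1) * u) := by
      noncomm_ring
    rw [h7, huu, mul_smul_comm]
    have h8 : e * a * (e - 1) * u = e * a * (e - 1) * u := rfl
    abel

theorem Y_even94 (he : e * e = q • e) (hu : u * u = q • u) (j : ℕ) :
    Y q e u 0 (2 * j) = e + ∑ l ∈ Finset.range j, e * W e u l := by
  induction j with
  | zero => simp [Y_zero94, L]
  | succ j ih =>
    rw [show 2 * (j + 1) = 2 * j + 2 by ring, (N_step94 q e u he hu j).1, ih,
      Finset.sum_range_succ, add_assoc]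

end Alg94

theorem num94 (q : ℝ) (hq : 1 ≤ q) (E : ℝ) (hE : 0 ≤ E) (w : ℕ → ℝ) (hw : ∀ l, 0 ≤ w l)
    (k : ℕ) : ∑ i ∈ Finset.range (k + 1), (q - 1) ^ i *
      (E + q * ∑ l ∈ Finset.range (k - i), w l) ≤
      q ^ k * E + ∑ l ∈ Finset.range k, q ^ (k - l) * w l := by
  have hq0 : 0 ≤ q := by linarith
  induction k with
  | zero => simp
  | succ k ih =>
    have h1 : ∑ i ∈ Finset.range (k + 1 + 1), (q - 1) ^ i *
        (E + q * ∑ l ∈ Finset.range (k + 1 - i), w l) =
        (E + q * ∑ l ∈ Finset.range (k + 1), w l) + (q - 1) *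
          ∑ i ∈ Finset.range (k + 1), (q - 1) ^ i *
            (E + q * ∑ l ∈ Finset.range (k - i), w l) := by
      have h0 : (q - 1) * ∑ i ∈ Finset.range (k + 1), (q - 1) ^ i *
          (E + q * ∑ l ∈ Finset.range (k - i), w l) = ∑ i ∈ Finset.range (k + 1),
            (q - 1) ^ (i + 1) * (E + q * ∑ l ∈ Finset.range (k + 1 - (i + 1)), w l) := by
        rw [Finset.mul_sum]
        refine Finset.sum_congr rfl fun i _ => ?_
        rw [show k + 1 - (i + 1) = k - i by omega, pow_succ]
        ring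
      rw [h0, Finset.sum_range_succ', pow_zero, one_mul, Nat.sub_zero, add_comm]
    have h2 : ∑ l ∈ Finset.range (k + 1), q ^ (k + 1 - l) * w l =
        q * ∑ l ∈ Finset.range k, q ^ (k - l) * w l + q * w k := by
      rw [Finset.sum_range_succ, Finset.mul_sum, show k + 1 - k = 1 by omega, pow_one]
      refine congrArg (· + q * w k) ?_
      refine Finset.sum_congr rfl fun l hl => ?_
      rw [Finset.mem_range] at hl
      rw [show k + 1 - l = (k - l) + 1 by omega, pow_succ]
      ring
    have h3 : E + q * ∑ l ∈ Finset.range k, w l ≤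
        q ^ k * E + ∑ l ∈ Finset.range k, q ^ (k - l) * w l := by
      have h4 : E ≤ q ^ k * E := le_mul_of_one_le_left hE (one_le_pow₀ hq)
      have h5 : q * ∑ l ∈ Finset.range k, w l ≤ ∑ l ∈ Finset.range k, q ^ (k - l) * w l := by
        rw [Finset.mul_sum]
        refine Finset.sum_le_sum fun l hl => ?_
        rw [Finset.mem_range] at hl
        refine mul_le_mul_of_nonneg_right ?_ (hw l)
        calc q = q ^ 1 := (pow_one q).symm
          _ ≤ q ^ (k - l) := pow_le_pow_right₀ hq (by omega)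
      linarith
    rw [h1, h2, Finset.sum_range_succ, pow_succ]
    have h6 := mul_le_mul_of_nonneg_left ih (show 0 ≤ q - 1 by linarith)
    nlinarith [h3, h6]

theorem L_transpose94 {G : Type*} (e u : Matrix G G ℝ) (het : eᵀ = e) (hut : uᵀ = u) (i : ℕ) :
    (L e u i)ᵀ = L e u i := by
  unfold L
  split_ifs
  · exact het
  · exact hut

theorem Y_transpose94 {G : Type*} [Fintype G] [DecidableEq G] (q : ℝ)
    (e u : Matrix G G ℝ) (het : eᵀ = e) (hut : uᵀ = u) (s k : ℕ) :
    (Y q e u s k)ᵀ = Y q e u (s + k) k := by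
  induction k using Nat.twoStepInduction with
  | zero => rw [Y_zero94, Y_zero94, L_transpose94 e u het hut, add_zero]
  | one =>
    rw [Y_one94, Y_one94, transpose_mul, L_transpose94 e u het hut, L_transpose94 e u het hut,
      show s + 1 + 1 = s + 2 by ring, L_two94]
  | more k ih1 ih2 =>
    rw [Y_succ94, transpose_sub, transpose_mul, transpose_smul, ih1, ih2,
      L_transpose94 e u het hut, Y_left94 q e u (s + (k + 2)) k,
      show s + (k + 2) + 1 = s + (k + 1) + 2 by ring, Y_two94,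
      show s + (k + 2) = s + k + 2 by ring, Y_two94]

theorem hs_le {G : Type*} [Fintype G] [DecidableEq G] (q : ℝ) (hq : 1 ≤ q)
    (e u : Matrix G G ℝ) (he : e * e = q • e) (hu : u * u = q • u) (het : eᵀ = e) (hut : uᵀ = u)
    (h0 : 0 ≤ e.trace) (hW : ∀ l, 0 ≤ (W e u l).trace) (k : ℕ) :
    ∑ g, ∑ g', (Y q e u 0 k g g') ^ 2 ≤
      q * (q ^ k * e.trace + ∑ l ∈ Finset.range k, q ^ (k - l) * (W e u l).trace) := by
  have hq0 : 0 ≤ q := by linarith
  have h1 : ∑ g, ∑ g', (Y q e u 0 k g g') ^ 2 = (Y q e u 0 k * (Y q e u 0 k)ᵀ).trace := by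
    rw [Matrix.trace]
    refine Finset.sum_congr rfl fun g _ => ?_
    rw [Matrix.diag_apply, Matrix.mul_apply]
    refine Finset.sum_congr rfl fun g' _ => ?_
    rw [Matrix.transpose_apply, sq]
  have h2 : ∀ l, (e * W e u l).trace = q * (W e u l).trace := by
    intro l
    rw [Matrix.trace_mul_comm, W, mul_assoc, he, mul_smul_comm, Matrix.trace_smul, smul_eq_mul]
  have h3 : ∀ j, (Y q e u 0 (2 * j)).trace =
      e.trace + q * ∑ l ∈ Finset.range j, (W e u l).trace := by
    intro j
    rw [Y_even94 q e u he hu, Matrix.trace_add, Matrix.trace_sum, Finset.mul_sum]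
    congr 1
    exact Finset.sum_congr rfl fun l _ => h2 l
  rw [h1, Y_transpose94 q e u het hut, Y_prod94 q e u he hu 0 k k le_rfl, Matrix.trace_smul,
    smul_eq_mul, Matrix.trace_sum]
  refine mul_le_mul_of_nonneg_left ?_ hq0
  refine le_trans (le_of_eq ?_) (num94 q hq e.trace h0 (fun l => (W e u l).trace) hW k)
  refine Finset.sum_congr rfl fun i hi => ?_
  rw [Finset.mem_range] at hi
  rw [Matrix.trace_smul, smul_eq_mul, show k + k - 2 * i = 2 * (k - i) by omega, h3]

end Anq13
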