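import Mathlib
import Pool.Agent.Anq13.Defs

/-!
# MP_d4d904_co : module D, uniqueness of reduced words and their degrees
-/

namespace Anq13

open Polynomial Matrix

/-- the entries of `h * eP x` and `h * uP s` -/
theorem ent_e1 {F : Type} [Field F] (m : ℕ) (h : Gam F m) (x : F) :
    ((h * eP m x : Gam F m) : SpecialLinearGroup (Fin 2) F[X]) 0 0 =
      (h : SpecialLinearGroup (Fin 2) F[X]) 0 0 +
        (h : SpecialLinearGroup (Fin 2) F[X]) 0 1 * C x ∧
    ((h * eP m x : Gam F m) : SpecialLinearGroup (Fin 2) F[X]) 0 1 =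
      (h : SpecialLinearGroup (Fin 2) F[X]) 0 1 ∧
    ((h * eP m x : Gam F m) : SpecialLinearGroup (Fin 2) F[X]) 1 0 =
      (h : SpecialLinearGroup (Fin 2) F[X]) 1 0 +
        (h : SpecialLinearGroup (Fin 2) F[X]) 1 1 * C x ∧
    ((h * eP m x : Gam F m) : SpecialLinearGroup (Fin 2) F[X]) 1 1 =
      (h : SpecialLinearGroup (Fin 2) F[X]) 1 1 := by
  refine ⟨?_, ?_, ?_, ?_⟩
  · change ((h : SpecialLinearGroup (Fin 2) F[X]) * sl 1 0 (C x) 1 (by ring)) 0 0 = _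
    rw [mul_00]; simp
  · change ((h : SpecialLinearGroup (Fin 2) F[X]) * sl 1 0 (C x) 1 (by ring)) 0 1 = _
    rw [mul_01]; simp
  · change ((h : SpecialLinearGroup (Fin 2) F[X]) * sl 1 0 (C x) 1 (by ring)) 1 0 = _
    rw [mul_10]; simp
  · change ((h : SpecialLinearGroup (Fin 2) F[X]) * sl 1 0 (C x) 1 (by ring)) 1 1 = _
    rw [mul_11]; simp

theorem ent_u1 {F : Type} [Field F] (m : ℕ) (h : Gam F m) (s : F) :
    ((h * uP m s : Gam F m) : SpecialLinearGroup (Fin 2) F[X]) 0 0 =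
      (h : SpecialLinearGroup (Fin 2) F[X]) 0 0 ∧
    ((h * uP m s : Gam F m) : SpecialLinearGroup (Fin 2) F[X]) 0 1 =
      (h : SpecialLinearGroup (Fin 2) F[X]) 0 1 -
        (h : SpecialLinearGroup (Fin 2) F[X]) 0 0 * (C s * X) ∧
    ((h * uP m s : Gam F m) : SpecialLinearGroup (Fin 2) F[X]) 1 0 =
      (h : SpecialLinearGroup (Fin 2) F[X]) 1 0 ∧
    ((h * uP m s : Gam F m) : SpecialLinearGroup (Fin 2) F[X]) 1 1 =
      (h : SpecialLinearGroup (Fin 2) F[X]) 1 1 -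
        (h : SpecialLinearGroup (Fin 2) F[X]) 1 0 * (C s * X) := by
  refine ⟨?_, ?_, ?_, ?_⟩
  · change ((h : SpecialLinearGroup (Fin 2) F[X]) * (sl (1 : F[X]) (-(C s * X)) 0 1 (by ring) : SpecialLinearGroup (Fin 2) F[X])) 0 0 = _
    rw [mul_00]; simp
  · change ((h : SpecialLinearGroup (Fin 2) F[X]) * (sl (1 : F[X]) (-(C s * X)) 0 1 (by ring) : SpecialLinearGroup (Fin 2) F[X])) 0 1 = _
    rw [mul_01]; simp; ring
  · change ((h : SpecialLinearGroup (Fin 2) F[X]) * (sl (1 : F[X]) (-(C s * X)) 0 1 (by ring) : SpecialLinearGroup (Fin 2) F[X])) 1 0 = _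
    rw [mul_10]; simp
  · change ((h : SpecialLinearGroup (Fin 2) F[X]) * (sl (1 : F[X]) (-(C s * X)) 0 1 (by ring) : SpecialLinearGroup (Fin 2) F[X])) 1 1 = _
    rw [mul_11]; simp; ring

/-- the invariant of the words in `Qw l` -/
structure Inv1 {F : Type} [Field F] {m : ℕ} (l : ℕ) (h : Gam F m) : Prop where
  d00 : ((h : SpecialLinearGroup (Fin 2) F[X]) 0 0).degree < (l + 1 : ℕ)
  d10 : ((h : SpecialLinearGroup (Fin 2) F[X]) 1 0).degree < l
  d01 : ((h : SpecialLinearGroup (Fin 2) F[X]) 0 1).degree < (l + 2 : ℕ)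
  d11 : ((h : SpecialLinearGroup (Fin 2) F[X]) 1 1).degree < (l + 1 : ℕ)
  ne : ((h : SpecialLinearGroup (Fin 2) F[X]) 0 1).coeff (l + 1) ≠ 0 ∨
    ((h : SpecialLinearGroup (Fin 2) F[X]) 1 1).coeff l ≠ 0

theorem coeff_zero1 {F : Type} [Field F] {f : F[X]} {n k : ℕ} (h : f.degree < n) (hk : n ≤ k) :
    f.coeff k = 0 :=
  coeff_eq_zero_of_degree_lt (lt_of_lt_of_le h (by exact_mod_cast hk))

theorem deg_CX1 {F : Type} [Field F] {f : F[X]} {n : ℕ} (h : f.degree < n) (s : F) :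
    (f * (C s * X)).degree < ((n + 1 : ℕ) : WithBot ℕ) := by
  rw [degree_lt_iff_coeff_zero]
  intro k hk
  rcases k with _ | k
  · omega
  · have : f * (C s * X) = C s * (f * X) := by ring
    rw [this, coeff_C_mul, coeff_mul_X, coeff_zero1 h (by omega), mul_zero]

theorem coeff_CX1 {F : Type} [Field F] (f : F[X]) (s : F) (k : ℕ) :
    (f * (C s * X)).coeff (k + 1) = s * f.coeff k := by
  have : f * (C s * X) = C s * (f * X) := by ring
  rw [this, coeff_C_mul, coeff_mul_X]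

theorem deg_C1 {F : Type} [Field F] {f : F[X]} {n : ℕ} (h : f.degree < n) (x : F) :
    (f * C x).degree < n := by
  rw [degree_lt_iff_coeff_zero]
  intro k hk
  rw [coeff_mul_C, coeff_zero1 h hk, zero_mul]

/-- one step -/
theorem step1 {F : Type} [Field F] {m l : ℕ} {h : Gam F m} (hI : Inv1 l h) {x s : F}
    (hx : x ≠ 0) (hs : s ≠ 0) :
    Inv1 (l + 1) (h * eP m x * uP m s) ∧
      ((h * eP m x * uP m s : Gam F m) : SpecialLinearGroup (Fin 2) F[X]) 0 1 =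
        (h : SpecialLinearGroup (Fin 2) F[X]) 0 1 - ((h : SpecialLinearGroup (Fin 2) F[X]) 0 0 +
          (h : SpecialLinearGroup (Fin 2) F[X]) 0 1 * C x) * (C s * X) ∧
      ((h * eP m x * uP m s : Gam F m) : SpecialLinearGroup (Fin 2) F[X]) 1 1 =
        (h : SpecialLinearGroup (Fin 2) F[X]) 1 1 - ((h : SpecialLinearGroup (Fin 2) F[X]) 1 0 +
          (h : SpecialLinearGroup (Fin 2) F[X]) 1 1 * C x) * (C s * X) := by
  obtain ⟨e1, e2, e3, e4⟩ := ent_e1 m h x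
  obtain ⟨u1, u2, u3, u4⟩ := ent_u1 m (h * eP m x) s
  rw [e1] at u1
  rw [e2, e1] at u2
  rw [e3] at u3
  rw [e4, e3] at u4
  have d1 : ((h : SpecialLinearGroup (Fin 2) F[X]) 0 0 +
      (h : SpecialLinearGroup (Fin 2) F[X]) 0 1 * C x).degree < (l + 2 : ℕ) := by
    refine lt_of_le_of_lt (degree_add_le _ _) (max_lt ?_ (deg_C1 hI.d01 x))
    exact lt_of_lt_of_le hI.d00 (by exact_mod_cast Nat.le_succ _)
  have d2 : ((h : SpecialLinearGroup (Fin 2) F[X]) 1 0 +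
      (h : SpecialLinearGroup (Fin 2) F[X]) 1 1 * C x).degree < (l + 1 : ℕ) := by
    refine lt_of_le_of_lt (degree_add_le _ _) (max_lt ?_ (deg_C1 hI.d11 x))
    exact lt_of_lt_of_le hI.d10 (by exact_mod_cast Nat.le_succ _)
  refine ⟨⟨?_, ?_, ?_, ?_, ?_⟩, u2, u4⟩
  · rw [u1]; exact d1
  · rw [u3]; exact d2
  · rw [u2]
    refine lt_of_le_of_lt (degree_sub_le _ _) (max_lt ?_ (deg_CX1 d1 s))
    exact lt_of_lt_of_le hI.d01 (by exact_mod_cast Nat.le_succ _)
  · rw [u4]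
    refine lt_of_le_of_lt (degree_sub_le _ _) (max_lt ?_ (deg_CX1 d2 s))
    exact lt_of_lt_of_le hI.d11 (by exact_mod_cast Nat.le_succ _)
  · rw [u2, u4, coeff_sub, coeff_sub, coeff_CX1, coeff_CX1, coeff_add, coeff_add, coeff_mul_C,
      coeff_mul_C, coeff_zero1 hI.d01 le_rfl, coeff_zero1 hI.d00 le_rfl,
      coeff_zero1 hI.d11 le_rfl, coeff_zero1 hI.d10 le_rfl]
    rcases hI.ne with h1 | h1
    · left
      simp [h1, hx, hs]
    · right
      simp [h1, hx, hs]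

theorem Inv1_zero {F : Type} [Field F] {m : ℕ} {s : F} (hs : s ≠ 0) : Inv1 0 (uP m s) := by
  have e00 : ((uP m s : Gam F m) : SpecialLinearGroup (Fin 2) F[X]) 0 0 = 1 := rfl
  have e01 : ((uP m s : Gam F m) : SpecialLinearGroup (Fin 2) F[X]) 0 1 = -(C s * X) := rfl
  have e10 : ((uP m s : Gam F m) : SpecialLinearGroup (Fin 2) F[X]) 1 0 = 0 := rfl
  have e11 : ((uP m s : Gam F m) : SpecialLinearGroup (Fin 2) F[X]) 1 1 = 1 := rfl
  refine ⟨?_, ?_, ?_, ?_, ?_⟩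
  · rw [e00, degree_one]; exact_mod_cast Nat.zero_lt_one
  · rw [e10, degree_zero]; exact WithBot.bot_lt_coe _
  · rw [e01, degree_neg]
    refine lt_of_le_of_lt (degree_C_mul_X_le s) ?_
    exact_mod_cast Nat.one_lt_two
  · rw [e11, degree_one]; exact_mod_cast Nat.zero_lt_one
  · left
    rw [e01]
    simp [hs]

open Classical in
theorem Qw_inv1 {F : Type} [Field F] [Fintype F] (m l : ℕ) (h : Gam F m)
    (hh : h ∈ Qw (eP (F := F) m) (uP m) l) : Inv1 l h := by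
  induction l generalizing h with
  | zero =>
    rw [Qw, Finset.mem_image] at hh
    obtain ⟨s, hs, rfl⟩ := hh
    exact Inv1_zero (Finset.mem_filter.1 hs).2
  | succ l ih =>
    rw [Qw, Finset.mem_image] at hh
    obtain ⟨⟨g, x, s⟩, hp, rfl⟩ := hh
    rw [Finset.mem_product, Finset.mem_product, Finset.mem_filter, Finset.mem_filter] at hp
    exact (step1 (ih g hp.1) hp.2.1.2 hp.2.2.2).1

open Classical in
theorem uP_inj {F : Type} [Field F] (m : ℕ) : Function.Injective (uP (F := F) m) := by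
  intro s s' h
  have h1 : ((uP m s : Gam F m) : SpecialLinearGroup (Fin 2) F[X]) 0 1 =
    ((uP m s' : Gam F m) : SpecialLinearGroup (Fin 2) F[X]) 0 1 := by rw [h]
  have h2 : -(C s * X) = (-(C s' * X) : F[X]) := h1
  have h3 := congrArg (fun f : F[X] => f.coeff 1) h2
  simpa using h3

theorem lemA1 {F : Type} [Field F] {m l : ℕ} {g g' : Gam F m} (hg : Inv1 l g) (hg' : Inv1 l g')
    {x x' : F} (h : g * eP m x = g' * eP m x') : x = x' := by
  obtain ⟨e1, e2, e3, e4⟩ := ent_e1 m g x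
  obtain ⟨f1, f2, f3, f4⟩ := ent_e1 m g' x'
  rw [← h] at f1 f2 f3 f4
  have h01 := e2.symm.trans f2
  have h11 := e4.symm.trans f4
  have h00 := congrArg (fun f : F[X] => f.coeff (l + 1)) (e1.symm.trans f1)
  have h10 := congrArg (fun f : F[X] => f.coeff l) (e3.symm.trans f3)
  simp only [coeff_add, coeff_mul_C] at h00 h10
  rw [coeff_zero1 hg.d00 le_rfl, coeff_zero1 hg'.d00 le_rfl, zero_add, zero_add, ← h01] at h00
  rw [coeff_zero1 hg.d10 le_rfl, coeff_zero1 hg'.d10 le_rfl, zero_add, zero_add, ← h11] at h10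
  rcases hg.ne with h1 | h1
  · exact mul_left_cancel₀ h1 h00
  · exact mul_left_cancel₀ h1 h10

theorem lemB1 {F : Type} [Field F] {m l : ℕ} {g g' : Gam F m} (hg : Inv1 l g) (hg' : Inv1 l g')
    {x x' s s' : F} (hx : x ≠ 0) (h : g * eP m x * uP m s = g' * eP m x' * uP m s') :
    s = s' := by
  obtain ⟨e1, e2, e3, e4⟩ := ent_e1 m g x
  obtain ⟨f1, f2, f3, f4⟩ := ent_e1 m g' x'
  obtain ⟨u1, u2, u3, u4⟩ := ent_u1 m (g * eP m x) s
  obtain ⟨v1, v2, v3, v4⟩ := ent_u1 m (g' * eP m x') s'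
  rw [← h] at v1 v2 v3 v4
  have hA := u1.symm.trans v1
  have hB := u3.symm.trans v3
  have h01 := congrArg (fun f : F[X] => f.coeff (l + 1 + 1)) (u2.symm.trans v2)
  have h11 := congrArg (fun f : F[X] => f.coeff (l + 1)) (u4.symm.trans v4)
  rw [← hA] at h01
  rw [← hB] at h11
  simp only [coeff_sub, coeff_CX1] at h01 h11
  rw [e2, f2, coeff_zero1 hg.d01 le_rfl, coeff_zero1 hg'.d01 le_rfl, zero_sub, zero_sub,
    neg_inj, e1, coeff_add, coeff_mul_C, coeff_zero1 hg.d00 le_rfl, zero_add] at h01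
  rw [e4, f4, coeff_zero1 hg.d11 le_rfl, coeff_zero1 hg'.d11 le_rfl, zero_sub, zero_sub,
    neg_inj, e3, coeff_add, coeff_mul_C, coeff_zero1 hg.d10 le_rfl, zero_add] at h11
  rcases hg.ne with h1 | h1
  · exact mul_right_cancel₀ (mul_ne_zero h1 hx) h01
  · exact mul_right_cancel₀ (mul_ne_zero h1 hx) h11

open Classical in
theorem Qw_inj1 {F : Type} [Field F] [Fintype F] (m l : ℕ) :
    Set.InjOn (fun p : Gam F m × F × F => p.1 * eP m p.2.1 * uP m p.2.2)
      {p | p.1 ∈ Qw (eP (F := F) m) (uP m) l ∧ p.2.1 ≠ 0 ∧ p.2.2 ≠ 0} := by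
  rintro ⟨g, x, s⟩ ⟨hg, hx, hs⟩ ⟨g', x', s'⟩ ⟨hg', hx', hs'⟩ heq
  simp only at hg hx hs hg' hx' hs' heq
  have hI := Qw_inv1 m l g hg
  have hI' := Qw_inv1 m l g' hg'
  obtain rfl := lemB1 hI hI' hx heq
  have heq2 := mul_right_cancel heq
  obtain rfl := lemA1 hI hI' heq2
  obtain rfl := mul_right_cancel heq2
  rfl

open Classical in
theorem Qw_inj2 {F : Type} [Field F] [Fintype F] (m l : ℕ) :
    Set.InjOn (fun p : Gam F m × F => p.1 * eP m p.2)
      {p | p.1 ∈ Qw (eP (F := F) m) (uP m) l} := by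
  rintro ⟨g, x⟩ hg ⟨g', x'⟩ hg' heq
  rw [Set.mem_ofPred_eq] at hg hg'
  simp only at hg hg' heq
  obtain rfl := lemA1 (Qw_inv1 m l g hg) (Qw_inv1 m l g' hg') heq
  obtain rfl := mul_right_cancel heq
  rfl

theorem natDeg1 {F : Type} [Field F] {f : F[X]} {n : ℕ} (h : f.degree < ((n + 1 : ℕ) : WithBot ℕ)) :
    f.natDegree ≤ n :=
  natDegree_le_iff_coeff_eq_zero.2 (fun _ hk => coeff_zero1 h hk)

open Classical in
theorem Tw_deg {F : Type} [Field F] [Fintype F] (m l : ℕ) (h : Gam F m)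
    (hh : h ∈ Tw (eP (F := F) m) (uP m) l) :
    ((h : SpecialLinearGroup (Fin 2) F[X]) 0 0).natDegree ≤ l + 1 ∧
    ((h : SpecialLinearGroup (Fin 2) F[X]) 0 1).natDegree ≤ l + 1 ∧
    ((h : SpecialLinearGroup (Fin 2) F[X]) 1 0).natDegree ≤ l ∧
    ((h : SpecialLinearGroup (Fin 2) F[X]) 1 1).natDegree ≤ l ∧ h ≠ 1 := by
  rw [Tw, Finset.mem_image] at hh
  obtain ⟨⟨g, x⟩, hp, rfl⟩ := hh
  have hgQ := (Finset.mem_product.1 hp).1
  simp only at hgQ
  have hI := Qw_inv1 m l g hgQ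
  obtain ⟨e1, e2, e3, e4⟩ := ent_e1 m g x
  simp only
  refine ⟨?_, ?_, ?_, ?_, ?_⟩
  · rw [e1]
    refine natDeg1 (lt_of_le_of_lt (degree_add_le _ _) (max_lt ?_ (deg_C1 hI.d01 x)))
    exact lt_of_lt_of_le hI.d00 (by exact_mod_cast Nat.le_succ _)
  · rw [e2]
    exact natDeg1 hI.d01
  · rw [e3]
    refine natDeg1 (lt_of_le_of_lt (degree_add_le _ _) (max_lt ?_ (deg_C1 hI.d11 x)))
    exact lt_of_lt_of_le hI.d10 (by exact_mod_cast Nat.le_succ _)
  · rw [e4]
    exact natDeg1 hI.d11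
  · intro h1
    rw [h1] at e2 e4
    have g01 : (g : SpecialLinearGroup (Fin 2) F[X]) 0 1 = 0 := e2.symm.trans rfl
    have g11 : (g : SpecialLinearGroup (Fin 2) F[X]) 1 1 = 1 := e4.symm.trans rfl
    have hl : l = 0 := by
      rcases hI.ne with h2 | h2
      · rw [g01] at h2; simp at h2
      · rw [g11, coeff_one] at h2
        by_contra hl
        rw [if_neg hl] at h2
        exact h2 rfl
    subst hl
    rw [Qw, Finset.mem_image] at hgQ
    obtain ⟨s, hs, rfl⟩ := hgQ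
    have h3 : -(C s * X) = (0 : F[X]) := g01
    have h4 := congrArg (fun f : F[X] => f.coeff 1) h3
    exact (Finset.mem_filter.1 hs).2 (by simpa using h4)

end Anq13
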