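import Mathlib
import Pool.Agent.Anq13.Defs
import Pool.Agent.Anq13.Red

/-!
# MP_d4d904_co : module E, counting matrices congruent to 1
-/

namespace Anq13

open Polynomial Matrix

/-- E1: number of factorizations of a nonzero polynomial -/
theorem card_factor {F : Type} [Field F] [Fintype F] (P : F[X]) (hP : P ≠ 0)
    (S : Finset (F[X] × F[X])) (hS : ∀ x ∈ S, x.1 * x.2 = P) :
    S.card ≤ (Fintype.card F - 1) * 2 ^ P.natDegree := by
  classical
  set i := algebraMap F (AlgebraicClosure F) with hi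
  have hinj : Function.Injective (Polynomial.map i) :=
    Polynomial.map_injective i (algebraMap F (AlgebraicClosure F)).injective
  have hPi : P.map i ≠ 0 := by
    intro h
    exact hP (hinj (by rw [h, Polynomial.map_zero]))
  set T : Finset (F × Multiset (AlgebraicClosure F)) :=
    (Finset.univ.erase (0 : F)) ×ˢ ((P.map i).roots.powerset.toFinset) with hT
  have hne : ∀ x ∈ S, x.1 ≠ 0 := by
    intro x hx h
    have h1 := hS x hx
    rw [h, zero_mul] at h1
    exact hP h1.symm
  have h1 : S.card ≤ T.card := by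
    refine Finset.card_le_card_of_injOn (fun x => (x.1.leadingCoeff, (x.1.map i).roots)) ?_ ?_
    · intro x hx
      have hx0 := hne x hx
      show (x.1.leadingCoeff, (x.1.map i).roots) ∈ T
      rw [hT, Finset.mem_product]
      refine ⟨Finset.mem_erase.2 ⟨leadingCoeff_ne_zero.2 hx0, Finset.mem_univ _⟩, ?_⟩
      rw [Multiset.mem_toFinset, Multiset.mem_powerset]
      apply Polynomial.roots.le_of_dvd hPi
      exact Polynomial.map_dvd i ⟨x.2, (hS x hx).symm⟩
    · intro x hx y hy hxy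
      have hx0 := hne x hx
      obtain ⟨h1, h2⟩ := Prod.mk.injEq .. ▸ hxy
      have e : ∀ b : F[X], b.map i =
          C (i b.leadingCoeff) * ((b.map i).roots.map (X - C ·)).prod := by
        intro b
        have := (IsAlgClosed.splits (b.map i)).eq_prod_roots
        rw [leadingCoeff_map] at this
        exact this
      have h3 : x.1 = y.1 := by
        apply hinj
        rw [e x.1, e y.1, h1, h2]
      have h4 : x.2 = y.2 := by
        apply mul_left_cancel₀ hx0
        rw [hS x hx, h3, hS y hy]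
      exact Prod.ext h3 h4
  refine h1.trans ?_
  rw [hT, Finset.card_product, Finset.card_erase_of_mem (Finset.mem_univ _), Finset.card_univ]
  refine Nat.mul_le_mul_left _ ?_
  refine (Multiset.toFinset_card_le _).trans ?_
  rw [Multiset.card_powerset]
  refine Nat.pow_le_pow_right (by norm_num) ?_
  exact (Polynomial.card_roots' _).trans (natDegree_map_le)

open Classical in
/-- polynomials of degree less than `n` -/
noncomputable def PF42 (F : Type) [Field F] [Fintype F] (n : ℕ) : Finset F[X] :=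
  (Finset.univ : Finset (Fin n → F)).image (fun c => ∑ i : Fin n, C (c i) * X ^ (i : ℕ))

theorem PF42_card (F : Type) [Field F] [Fintype F] (n : ℕ) :
    (PF42 F n).card ≤ Fintype.card F ^ n := by
  classical
  refine Finset.card_image_le.trans ?_
  rw [Finset.card_univ, Fintype.card_fun, Fintype.card_fin]

theorem mem_PF42 {F : Type} [Field F] [Fintype F] (n : ℕ) (p : F[X]) (hp : p.degree < (n : WithBot ℕ)) :
    p ∈ PF42 F n := by
  classical
  rw [PF42, Finset.mem_image]
  refine ⟨fun i => p.coeff i, Finset.mem_univ _, ?_⟩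
  rw [Fin.sum_univ_eq_sum_range (fun i => C (p.coeff i) * X ^ i) n]
  ext j
  rw [finsetSum_coeff]
  simp only [coeff_C_mul_X_pow]
  rw [Finset.sum_ite_eq]
  split_ifs with h
  · rfl
  · rw [Finset.mem_range, not_lt] at h
    exact (coeff_eq_zero_of_degree_lt (lt_of_lt_of_le hp (by exact_mod_cast h))).symm

/-- the two linear consequences of the equation -/
theorem eqs42 {F : Type} [Field F] (m : ℕ) (a b c d : F[X])
    (h : (1 + X ^ (m + 1) * a) * (1 + X ^ (m + 1) * d) -
      (X ^ (m + 1) * b) * (X ^ (m + 1) * c) = 1) :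
    a + d = -(X ^ (m + 1) * (a * d - b * c)) := by
  have hX : (X ^ (m + 1) : F[X]) ≠ 0 := pow_ne_zero _ X_ne_zero
  apply mul_left_cancel₀ hX
  linear_combination h

theorem kap42 {F : Type} [Field F] (m e : ℕ) (a b c d : F[X]) (ha : a.natDegree ≤ e)
    (hd : d.degree < (e : WithBot ℕ))
    (h : a + d = -(X ^ (m + 1) * (a * d - b * c))) :
    (a * d - b * c).degree < ((e - m : ℕ) : WithBot ℕ) := by
  set k := a * d - b * c with hk
  rcases eq_or_ne k 0 with h0 | h0
  · rw [h0, degree_zero]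
    exact WithBot.bot_lt_coe _
  · have hX : (X ^ (m + 1) : F[X]) ≠ 0 := pow_ne_zero _ X_ne_zero
    have h1 : (a + d).natDegree = m + 1 + k.natDegree := by
      rw [h, natDegree_neg, natDegree_mul hX h0, natDegree_X_pow]
    have h2 : (a + d).natDegree ≤ e := by
      refine (natDegree_add_le _ _).trans (max_le ha ?_)
      rcases eq_or_ne d 0 with hd0 | hd0
      · rw [hd0]; simp
      · rw [degree_eq_natDegree hd0, Nat.cast_lt] at hd
        exact hd.le
    rw [degree_eq_natDegree h0, Nat.cast_lt]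
    omega

theorem unit42 {F : Type} [Field F] (m : ℕ) (a d : F[X])
    (h : (1 + X ^ (m + 1) * a) * (1 + X ^ (m + 1) * d) = 1) : a = 0 ∧ d = 0 := by
  have key : ∀ a d : F[X], (1 + X ^ (m + 1) * a) * (1 + X ^ (m + 1) * d) = 1 → a = 0 := by
    intro a d h
    by_contra ha
    have h1 : IsUnit (1 + X ^ (m + 1) * a) := IsUnit.of_mul_eq_one _ h
    have h2 := natDegree_eq_zero_of_isUnit h1
    have hX : (X ^ (m + 1) : F[X]) ≠ 0 := pow_ne_zero _ X_ne_zero
    have h3 : (X ^ (m + 1) * a).natDegree = m + 1 + a.natDegree := by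
      rw [natDegree_mul hX ha, natDegree_X_pow]
    rw [add_comm, natDegree_add_eq_left_of_natDegree_lt (by rw [h3, natDegree_one]; omega), h3] at h2
    omega
  exact ⟨key a d h, key d a (by rw [mul_comm]; exact h)⟩

/-- E2: the count of quadruples -/
theorem count4 {F : Type} [Field F] [Fintype F] (m e : ℕ)
    (S : Finset (F[X] × F[X] × F[X] × F[X]))
    (hS : ∀ x ∈ S, x.1.natDegree ≤ e ∧ x.2.1.natDegree ≤ e ∧ x.2.2.1.degree < (e : WithBot ℕ) ∧
      x.2.2.2.degree < (e : WithBot ℕ) ∧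
      (1 + X ^ (m + 1) * x.1) * (1 + X ^ (m + 1) * x.2.2.2) -
        (X ^ (m + 1) * x.2.1) * (X ^ (m + 1) * x.2.2.1) = 1 ∧ x ≠ 0) :
    S.card ≤ 4 ^ e * Fintype.card F ^ (e + 1 + (e - m)) := by
  classical
  have hq : 1 ≤ Fintype.card F := Fintype.card_pos
  set q := Fintype.card F with hqd
  rcases Nat.eq_zero_or_pos e with he | he
  · subst he
    have h0 : ∀ x ∈ S, x.1 = 0 ∧ x.2.2.1 = 0 ∧ x.2.2.2 = 0 ∧ x.2.1.degree < ((1 : ℕ) : WithBot ℕ) := by
      intro x hx
      obtain ⟨h1, h2, h3, h4, h5, -⟩ := hS x hx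
      have h3' : x.2.2.1 = 0 := by
        rw [← degree_eq_bot]
        exact Nat.WithBot.lt_zero_iff.1 (by exact_mod_cast h3)
      have h4' : x.2.2.2 = 0 := by
        rw [← degree_eq_bot]
        exact Nat.WithBot.lt_zero_iff.1 (by exact_mod_cast h4)
      have h6 := eqs42 m _ _ _ _ h5
      rw [h3', h4'] at h6
      refine ⟨by simpa using h6, h3', h4', ?_⟩
      exact lt_of_le_of_lt degree_le_natDegree (by exact_mod_cast (by omega : x.2.1.natDegree < 1))
    have h1 : S.card ≤ (PF42 F 1).card := by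
      refine Finset.card_le_card_of_injOn (fun x => x.2.1) ?_ ?_
      · intro x hx
        exact mem_PF42 1 _ (h0 x hx).2.2.2
      · intro x hx y hy hxy
        obtain ⟨a1, a2, a3, -⟩ := h0 x hx
        obtain ⟨b1, b2, b3, -⟩ := h0 y hy
        refine Prod.ext (a1.trans b1.symm) (Prod.ext hxy (Prod.ext (a2.trans b2.symm) (a3.trans b3.symm)))
    refine h1.trans ((PF42_card F 1).trans ?_)
    rw [pow_zero, one_mul, show 0 + 1 + (0 - m) = 1 by omega]
  · set S0 := S.filter (fun x => x.2.1 * x.2.2.1 = 0) with hS0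
    set S1 := S.filter (fun x => ¬ x.2.1 * x.2.2.1 = 0) with hS1
    have hsplit : S.card = S0.card + S1.card := by
      rw [hS0, hS1, Finset.card_filter_add_card_filter_not]
    have hPe1 : (PF42 F (e + 1)).card ≤ q ^ (e + 1) := PF42_card F (e + 1)
    have hPe : (PF42 F e).card ≤ q ^ e := PF42_card F e
    have hPk : (PF42 F (e - m)).card ≤ q ^ (e - m) := PF42_card F (e - m)
    have hc0 : S0.card ≤ q ^ (e + 1) + q ^ e := by
      have hsub : S0 ⊆ ((PF42 F (e + 1)).image (fun b => ((0 : F[X]), b, (0 : F[X]), (0 : F[X])))) ∪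
          ((PF42 F e).image (fun c => ((0 : F[X]), (0 : F[X]), c, (0 : F[X])))) := by
        intro x hx
        rw [hS0, Finset.mem_filter] at hx
        obtain ⟨h1, h2, h3, h4, h5, -⟩ := hS x hx.1
        have h6 : (1 + X ^ (m + 1) * x.1) * (1 + X ^ (m + 1) * x.2.2.2) = 1 := by
          linear_combination h5 + (X ^ (m + 1) * X ^ (m + 1) : F[X]) * hx.2
        obtain ⟨h7, h8⟩ := unit42 m _ _ h6
        rcases mul_eq_zero.1 hx.2 with h9 | h9
        · rw [Finset.mem_union]
          right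
          rw [Finset.mem_image]
          exact ⟨x.2.2.1, mem_PF42 e _ h3,
            Prod.ext h7.symm (Prod.ext h9.symm (Prod.ext rfl h8.symm))⟩
        · rw [Finset.mem_union]
          left
          rw [Finset.mem_image]
          refine ⟨x.2.1, mem_PF42 (e + 1) _ ?_,
            Prod.ext h7.symm (Prod.ext rfl (Prod.ext h9.symm h8.symm))⟩
          exact lt_of_le_of_lt degree_le_natDegree (by exact_mod_cast (by omega : x.2.1.natDegree < e + 1))
      refine (Finset.card_le_card hsub).trans ((Finset.card_union_le _ _).trans ?_)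
      exact Nat.add_le_add (Finset.card_image_le.trans hPe1) (Finset.card_image_le.trans hPe)
    have hc1 : S1.card ≤ ((q - 1) * 2 ^ (2 * e - 1)) * (q ^ e * q ^ (e - m)) := by
      have h1 : S1.card ≤ ((q - 1) * 2 ^ (2 * e - 1)) * ((PF42 F e) ×ˢ (PF42 F (e - m))).card := by
        refine Finset.card_le_mul_card_image_of_maps_to
          (f := fun x : F[X] × F[X] × F[X] × F[X] => (x.2.2.2, x.1 * x.2.2.2 - x.2.1 * x.2.2.1)) ?_ _ ?_
        · intro x hx
          rw [hS1, Finset.mem_filter] at hx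
          obtain ⟨h1, h2, h3, h4, h5, -⟩ := hS x hx.1
          rw [Finset.mem_product]
          exact ⟨mem_PF42 e _ h4, mem_PF42 _ _ (kap42 m e _ _ _ _ h1 h4 (eqs42 m _ _ _ _ h5))⟩
        · rintro ⟨d, k⟩ -
          set S2 := S1.filter (fun x => (x.2.2.2, x.1 * x.2.2.2 - x.2.1 * x.2.2.1) = (d, k)) with hS2
          rcases S2.eq_empty_or_nonempty with hem | ⟨x0, hx0⟩
          · rw [hem]; simp
          have hfib : ∀ x ∈ S2, x.2.2.2 = d ∧ x.1 = -(X ^ (m + 1) * k) - d ∧
              x.2.1 * x.2.2.1 = (-(X ^ (m + 1) * k) - d) * d - k ∧ x.2.1 * x.2.2.1 ≠ 0 ∧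
              (x.2.1 * x.2.2.1).natDegree ≤ 2 * e - 1 := by
            intro x hx
            rw [hS2, Finset.mem_filter, hS1, Finset.mem_filter] at hx
            obtain ⟨⟨hxS, hne⟩, hxk⟩ := hx
            obtain ⟨h1, h2, h3, h4, h5, -⟩ := hS x hxS
            have hd1 : x.2.2.2 = d := congrArg Prod.fst hxk
            have hk1 : x.1 * x.2.2.2 - x.2.1 * x.2.2.1 = k := congrArg Prod.snd hxk
            have h6 := eqs42 m _ _ _ _ h5
            rw [hk1, hd1] at h6
            have h7 : x.1 = -(X ^ (m + 1) * k) - d := by linear_combination h6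
            refine ⟨hd1, h7, ?_, hne, ?_⟩
            · rw [← h7, ← hk1, hd1]; ring
            · have hc0 : x.2.2.1 ≠ 0 := right_ne_zero_of_mul hne
              rw [degree_eq_natDegree hc0, Nat.cast_lt] at h3
              refine natDegree_mul_le.trans ?_
              omega
          set P := (-(X ^ (m + 1) * k) - d) * d - k with hP
          obtain ⟨-, -, g1, g2, g3⟩ := hfib x0 hx0
          rw [g1] at g2 g3
          have h2 : S2.card ≤ (S2.image (fun x => (x.2.1, x.2.2.1))).card := by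
            rw [Finset.card_image_of_injOn]
            intro x hx y hy hxy
            obtain ⟨a1, a2, -⟩ := hfib x hx
            obtain ⟨b1, b2, -⟩ := hfib y hy
            have hxy' : (x.2.1, x.2.2.1) = (y.2.1, y.2.2.1) := hxy
            obtain ⟨e1, e2⟩ := Prod.mk.inj hxy'
            exact Prod.ext (a2.trans b2.symm) (Prod.ext e1 (Prod.ext e2 (a1.trans b1.symm)))
          refine h2.trans ((card_factor P g2 _ ?_).trans ?_)
          · intro y hy
            rw [Finset.mem_image] at hy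
            obtain ⟨x, hx, rfl⟩ := hy
            exact (hfib x hx).2.2.1
          · exact Nat.mul_le_mul_left _ (Nat.pow_le_pow_right (by norm_num) g3)
      refine h1.trans (Nat.mul_le_mul_left _ ?_)
      rw [Finset.card_product]
      exact Nat.mul_le_mul hPe hPk
    have hk1 : 1 ≤ q ^ (e - m) := Nat.one_le_pow _ _ hq
    obtain ⟨f, rfl⟩ : ∃ f, e = f + 1 := ⟨e - 1, by omega⟩
    obtain ⟨r, hr⟩ : ∃ r, q = r + 1 := ⟨q - 1, by omega⟩
    have h2f : 1 ≤ 4 ^ f := Nat.one_le_pow _ _ (by norm_num)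
    rw [hsplit]
    have e1 : 2 ^ (2 * (f + 1) - 1) = 2 * 4 ^ f := by
      rw [show 2 * (f + 1) - 1 = 2 * f + 1 by omega, pow_succ, pow_mul]; norm_num; ring
    have e2 : (4 : ℕ) ^ (f + 1) = 4 * 4 ^ f := by ring
    rw [e1] at hc1
    have e3 : q ^ (f + 1 + 1 + (f + 1 - m)) = q * (q ^ (f + 1) * q ^ (f + 1 - m)) := by ring
    have e4 : q ^ (f + 1 + 1) = q * q ^ (f + 1) := by ring
    rw [e4] at hc0
    rw [e3, e2]
    set A := q ^ (f + 1) with hA
    set B := q ^ (f + 1 - m) with hB
    have hAB : A ≤ A * B := Nat.le_mul_of_pos_right _ hk1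
    have hr' : q - 1 = r := by omega
    rw [hr'] at hc1
    have hc0' : S0.card ≤ (q + 1) * (A * B) := by
      refine hc0.trans ?_
      calc q * A + A = (q + 1) * A := by ring
        _ ≤ _ := Nat.mul_le_mul_left _ hAB
    calc S0.card + S1.card ≤ (q + 1) * (A * B) + r * (2 * 4 ^ f) * (A * B) :=
          Nat.add_le_add hc0' hc1
      _ = (q + 1 + r * (2 * 4 ^ f)) * (A * B) := by ring
      _ ≤ (4 * 4 ^ f * q) * (A * B) := by
          refine Nat.mul_le_mul_right _ ?_
          rw [hr]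
          nlinarith
      _ = _ := by ring

/-- the entries of a matrix congruent to `1` -/
theorem quo42 {F : Type} [Field F] (m : ℕ) (h : Gam F m) (hp : pr F m h = 1) :
    ∃ a b c d : F[X], (h : SpecialLinearGroup (Fin 2) F[X]) 0 0 = 1 + X ^ (m + 1) * a ∧
      (h : SpecialLinearGroup (Fin 2) F[X]) 0 1 = X ^ (m + 1) * b ∧
      (h : SpecialLinearGroup (Fin 2) F[X]) 1 0 = X ^ (m + 1) * c ∧
      (h : SpecialLinearGroup (Fin 2) F[X]) 1 1 = 1 + X ^ (m + 1) * d := by
  have h1 : SpecialLinearGroup.map (AdjoinRoot.mk (X ^ (m + 1) : F[X]))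
      (h : SpecialLinearGroup (Fin 2) F[X]) = 1 := by
    have := congrArg (Subtype.val) hp
    exact this
  have key : ∀ i j, AdjoinRoot.mk (X ^ (m + 1) : F[X]) ((h : SpecialLinearGroup (Fin 2) F[X]) i j) =
      (1 : SpecialLinearGroup (Fin 2) (Rg F m)) i j := by
    intro i j
    have := congrArg (fun g : SpecialLinearGroup (Fin 2) (Rg F m) => g i j) h1
    exact this
  have k00 : (X ^ (m + 1) : F[X]) ∣ (h : SpecialLinearGroup (Fin 2) F[X]) 0 0 - 1 := by
    rw [← AdjoinRoot.mk_eq_mk, key 0 0, map_one]; simp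
  have k11 : (X ^ (m + 1) : F[X]) ∣ (h : SpecialLinearGroup (Fin 2) F[X]) 1 1 - 1 := by
    rw [← AdjoinRoot.mk_eq_mk, key 1 1, map_one]; simp
  have k01 : (X ^ (m + 1) : F[X]) ∣ (h : SpecialLinearGroup (Fin 2) F[X]) 0 1 := by
    rw [← AdjoinRoot.mk_eq_zero, key 0 1]; simp
  have k10 : (X ^ (m + 1) : F[X]) ∣ (h : SpecialLinearGroup (Fin 2) F[X]) 1 0 := by
    rw [← AdjoinRoot.mk_eq_zero, key 1 0]; simp
  obtain ⟨a, ha⟩ := k00
  obtain ⟨b, hb⟩ := k01
  obtain ⟨c, hc⟩ := k10
  obtain ⟨d, hd⟩ := k11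
  exact ⟨a, b, c, d, by rw [← ha]; ring, hb, hc, by rw [← hd]; ring⟩

theorem deg42 {F : Type} [Field F] (m l : ℕ) (a : F[X])
    (h : (1 + X ^ (m + 1) * a).natDegree ≤ l ∨ (X ^ (m + 1) * a).natDegree ≤ l) (ha : a ≠ 0) :
    m + 1 + a.natDegree ≤ l := by
  have hX : (X ^ (m + 1) : F[X]) ≠ 0 := pow_ne_zero _ X_ne_zero
  have h3 : (X ^ (m + 1) * a).natDegree = m + 1 + a.natDegree := by
    rw [natDegree_mul hX ha, natDegree_X_pow]
  rcases h with h | h
  · rw [add_comm, natDegree_add_eq_left_of_natDegree_lt (by rw [h3, natDegree_one]; omega), h3] at h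
    exact h
  · rw [h3] at h
    exact h

open Classical in
/-- E3: the count of trivial reduced words -/
theorem count_le {F : Type} [Field F] [Fintype F] (m l : ℕ) (hl : m ≤ l) :
    ((Tw (eP (F := F) m) (uP m) l).filter (fun h => pr F m h = 1)).card ≤
      4 ^ (l - m) * Fintype.card F ^ ((l - m) + 1 + ((l - m) - m)) := by
  set T := (Tw (eP (F := F) m) (uP m) l).filter (fun h => pr F m h = 1) with hT
  have hex : ∀ h : Gam F m, ∃ x : F[X] × F[X] × F[X] × F[X], pr F m h = 1 →
      ((h : SpecialLinearGroup (Fin 2) F[X]) 0 0 = 1 + X ^ (m + 1) * x.1 ∧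
      (h : SpecialLinearGroup (Fin 2) F[X]) 0 1 = X ^ (m + 1) * x.2.1 ∧
      (h : SpecialLinearGroup (Fin 2) F[X]) 1 0 = X ^ (m + 1) * x.2.2.1 ∧
      (h : SpecialLinearGroup (Fin 2) F[X]) 1 1 = 1 + X ^ (m + 1) * x.2.2.2) := by
    intro h
    by_cases hp : pr F m h = 1
    · obtain ⟨a, b, c, d, h1, h2, h3, h4⟩ := quo42 m h hp
      exact ⟨(a, b, c, d), fun _ => ⟨h1, h2, h3, h4⟩⟩
    · exact ⟨0, fun h => absurd h hp⟩
  choose f hf using hex
  have hinj : Set.InjOn f T := by
    intro h hh k hk hhk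
    rw [hT, Finset.coe_filter] at hh hk
    obtain ⟨a1, a2, a3, a4⟩ := hf h hh.2
    obtain ⟨b1, b2, b3, b4⟩ := hf k hk.2
    rw [hhk] at a1 a2 a3 a4
    exact Subtype.ext (sl_ext _ _ (a1.trans b1.symm) (a2.trans b2.symm) (a3.trans b3.symm)
      (a4.trans b4.symm))
  rw [← Finset.card_image_of_injOn hinj]
  refine count4 m (l - m) _ ?_
  intro x hx
  rw [Finset.mem_image] at hx
  obtain ⟨h, hh, rfl⟩ := hx
  rw [hT, Finset.mem_filter] at hh
  obtain ⟨a1, a2, a3, a4⟩ := hf h hh.2
  obtain ⟨d1, d2, d3, d4, d5⟩ := Tw_deg m l h hh.1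
  rw [a1] at d1
  rw [a2] at d2
  rw [a3] at d3
  rw [a4] at d4
  have lt : ∀ a : F[X], (a ≠ 0 → m + 1 + a.natDegree ≤ l) → a.degree < ((l - m : ℕ) : WithBot ℕ) := by
    intro a ha
    rcases eq_or_ne a 0 with h0 | h0
    · rw [h0, degree_zero]; exact WithBot.bot_lt_coe _
    · rw [degree_eq_natDegree h0, Nat.cast_lt]
      have := ha h0
      omega
  have le : ∀ a : F[X], (a ≠ 0 → m + 1 + a.natDegree ≤ l + 1) → a.natDegree ≤ l - m := by
    intro a ha
    rcases eq_or_ne a 0 with h0 | h0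
    · rw [h0, natDegree_zero]; exact Nat.zero_le _
    · have := ha h0
      omega
  refine ⟨le _ (deg42 m _ _ (Or.inl d1)), le _ (deg42 m _ _ (Or.inr d2)),
    lt _ (deg42 m _ _ (Or.inr d3)), lt _ (deg42 m _ _ (Or.inl d4)), ?_, ?_⟩
  · rw [← a1, ← a2, ← a3, ← a4]
    exact det_eq _
  · intro h0
    rw [h0] at a1 a2 a3 a4
    apply d5
    refine Subtype.ext (sl_ext _ _ ?_ ?_ ?_ ?_)
    · rw [a1]; simp
    · rw [a2]; simp
    · rw [a3]; simp
    · rw [a4]; simp

open Classical in
/-- E4: there is no short trivial reduced word -/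
theorem count_zero {F : Type} [Field F] [Fintype F] (m l : ℕ) (hl : l < m) :
    ((Tw (eP (F := F) m) (uP m) l).filter (fun h => pr F m h = 1)).card = 0 := by
  rw [Finset.card_eq_zero, Finset.filter_eq_empty_iff]
  intro h hh hp
  obtain ⟨a, b, c, d, a1, a2, a3, a4⟩ := quo42 m h hp
  obtain ⟨d1, d2, d3, d4, d5⟩ := Tw_deg m l h hh
  rw [a1] at d1
  rw [a2] at d2
  rw [a3] at d3
  rw [a4] at d4
  have ha : a = 0 := by
    by_contra h0
    have := deg42 m _ _ (Or.inl d1) h0
    omega
  have hb : b = 0 := by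
    by_contra h0
    have := deg42 m _ _ (Or.inr d2) h0
    omega
  have hc : c = 0 := by
    by_contra h0
    have := deg42 m _ _ (Or.inr d3) h0
    omega
  have hd : d = 0 := by
    by_contra h0
    have := deg42 m _ _ (Or.inl d4) h0
    omega
  apply d5
  refine Subtype.ext (sl_ext _ _ ?_ ?_ ?_ ?_)
  · rw [a1, ha]; simp
  · rw [a2, hb]; simp
  · rw [a3, hc]; simp
  · rw [a4, hd]; simp

end Anq13
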