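import Mathlib
import Pool.Agent.Anq13.Defs

/-!
# MP_d4d904_co : module I, from all eigenpairs to new eigenpairs
-/

namespace Anq13

open Polynomial Matrix

/-- append a last coordinate -/
def sn43 {F : Type} {n : ℕ} (p : Fin (n + 1) → F) (x : F) : Fin (n + 2) → F :=
  fun i => if h : i.1 < n + 1 then p ⟨i.1, h⟩ else x

/-- forget the last coordinate -/
def ini43 {F : Type} {n : ℕ} (p : Fin (n + 2) → F) : Fin (n + 1) → F :=
  fun i => p ⟨i.1, by omega⟩

theorem ini_sn43 {F : Type} {n : ℕ} (p : Fin (n + 1) → F) (x : F) : ini43 (sn43 p x) = p := by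
  funext i
  show (if h : i.1 < n + 1 then p ⟨i.1, h⟩ else x) = p i
  rw [dif_pos i.2]

theorem sn_ini43 {F : Type} {n : ℕ} (p : Fin (n + 2) → F) :
    sn43 (ini43 p) (p (Fin.last (n + 1))) = p := by
  funext i
  by_cases h : i.1 < n + 1
  · simp [ini43, sn43, h]
  · have hi : i = Fin.last (n + 1) := by
      apply Fin.ext
      have := i.2
      simp only [Fin.val_last]
      omega
    subst hi
    simp [sn43]

/-- the value of the last coordinates of an incident pair -/
def nx43 {F : Type} [Field F] {n : ℕ} (p l : Fin (n + 1) → F) : F :=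
  if Even n then p (Fin.last n) * l 0 else p 0 * l (Fin.last n)

theorem inc_sn43 {F : Type} [Field F] {n : ℕ} (p l : Fin (n + 1) → F) (x y : F) :
    Inc (sn43 p x) (sn43 l y) ↔ Inc p l ∧ x + y = nx43 p l := by
  constructor
  · intro h
    constructor
    · intro j hj
      have h1 := h j (by omega)
      simpa [sn43, show j < n from by omega, show j < n + 1 from by omega] using h1
    · have h1 := h n (by omega)
      simpa [sn43, nx43, Fin.last] using h1
  · rintro ⟨h1, h2⟩ j hj
    by_cases hjn : j = n
    · subst hjn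
      simpa [sn43, nx43, Fin.last] using h2
    · have h3 := h1 j (by omega)
      simpa [sn43, show j < n from by omega, show j < n + 1 from by omega] using h3

/-- the shift of the last coordinates is an automorphism -/
theorem inc_shift43 {F : Type} [Field F] {n : ℕ} (p l : Fin (n + 2) → F) (c : F) :
    Inc (p - Pi.single (Fin.last (n + 1)) c) (l + Pi.single (Fin.last (n + 1)) c) ↔ Inc p l := by
  have e1 : p - Pi.single (Fin.last (n + 1)) c = sn43 (ini43 p) (p (Fin.last (n + 1)) - c) := by
    refine (sn_ini43 _).symm.trans ?_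
    congr 1
    · funext i
      simp only [ini43, Pi.sub_apply]
      rw [Pi.single_eq_of_ne, sub_zero]
      intro h
      have h' := congrArg Fin.val h
      simp only [Fin.val_last] at h'
      omega
    · simp
  have e2 : l + Pi.single (Fin.last (n + 1)) c = sn43 (ini43 l) (l (Fin.last (n + 1)) + c) := by
    refine (sn_ini43 _).symm.trans ?_
    congr 1
    · funext i
      simp only [ini43, Pi.add_apply]
      rw [Pi.single_eq_of_ne, add_zero]
      intro h
      have h' := congrArg Fin.val h
      simp only [Fin.val_last] at h'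
      omega
    · simp
  rw [e1, e2, inc_sn43]
  conv_rhs => rw [← sn_ini43 p, ← sn_ini43 l, inc_sn43]
  rw [sub_add_add_cancel]

/-- a sum over all vectors, the last coordinate first -/
theorem sum_sn43 {F : Type} [Fintype F] {n : ℕ} (f : (Fin (n + 2) → F) → ℂ) :
    ∑ p, f p = ∑ p : Fin (n + 1) → F, ∑ x : F, f (sn43 p x) := by
  classical
  rw [← Fintype.sum_prod_type' (f := fun (p : Fin (n + 1) → F) (x : F) => f (sn43 p x))]
  refine (Fintype.sum_equiv
    (⟨fun z => sn43 z.1 z.2, fun p => (ini43 p, p (Fin.last (n + 1))), ?_, ?_⟩ :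
      (Fin (n + 1) → F) × F ≃ (Fin (n + 2) → F)) _ _ ?_).symm
  · rintro ⟨p, x⟩
    simp [ini_sn43, sn43]
  · intro p
    exact sn_ini43 p
  · intro z
    rfl

open Classical in
/-- the sum over the points on a line, for a function independent of the last coordinate -/
theorem sumP43 {F : Type} [Field F] [Fintype F] {n : ℕ} (f : (Fin (n + 2) → F) → ℂ)
    (hf : ∀ p x, f (sn43 p x) = f (sn43 p 0)) (l : Fin (n + 1) → F) :
    ∑ p ∈ Finset.univ.filter (fun p : Fin (n + 2) → F => Inc p (sn43 l 0)), f p =
      ∑ p ∈ Finset.univ.filter (fun p : Fin (n + 1) → F => Inc p l), f (sn43 p 0) := by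
  refine Finset.sum_nbij' (fun p => ini43 p) (fun p => sn43 p (nx43 p l)) ?_ ?_ ?_ ?_ ?_
  · intro p hp
    rw [Finset.mem_filter] at hp ⊢
    refine ⟨Finset.mem_univ _, ?_⟩
    have h := hp.2
    rw [← sn_ini43 p, inc_sn43] at h
    exact h.1
  · intro p hp
    rw [Finset.mem_filter] at hp ⊢
    refine ⟨Finset.mem_univ _, ?_⟩
    rw [inc_sn43]
    exact ⟨hp.2, add_zero _⟩
  · intro p hp
    rw [Finset.mem_filter] at hp
    have h := hp.2
    rw [← sn_ini43 p, inc_sn43, add_zero] at h
    show sn43 (ini43 p) (nx43 (ini43 p) l) = p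
    rw [← h.2]
    exact sn_ini43 p
  · intro p _
    exact ini_sn43 p _
  · intro p _
    show f p = f (sn43 (ini43 p) 0)
    rw [← hf, sn_ini43]

open Classical in
/-- the sum over the lines through a point, for a function independent of the last coordinate -/
theorem sumL43 {F : Type} [Field F] [Fintype F] {n : ℕ} (g : (Fin (n + 2) → F) → ℂ)
    (hg : ∀ p x, g (sn43 p x) = g (sn43 p 0)) (p : Fin (n + 1) → F) :
    ∑ l ∈ Finset.univ.filter (fun l : Fin (n + 2) → F => Inc (sn43 p 0) l), g l =
      ∑ l ∈ Finset.univ.filter (fun l : Fin (n + 1) → F => Inc p l), g (sn43 l 0) := by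
  refine Finset.sum_nbij' (fun l => ini43 l) (fun l => sn43 l (nx43 p l)) ?_ ?_ ?_ ?_ ?_
  · intro l hl
    rw [Finset.mem_filter] at hl ⊢
    refine ⟨Finset.mem_univ _, ?_⟩
    have h := hl.2
    rw [← sn_ini43 l, inc_sn43] at h
    exact h.1
  · intro l hl
    rw [Finset.mem_filter] at hl ⊢
    refine ⟨Finset.mem_univ _, ?_⟩
    rw [inc_sn43]
    exact ⟨hl.2, zero_add _⟩
  · intro l hl
    rw [Finset.mem_filter] at hl
    have h := hl.2
    rw [← sn_ini43 l, inc_sn43, zero_add] at h
    show sn43 (ini43 l) (nx43 p (ini43 l)) = l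
    rw [← h.2]
    exact sn_ini43 l
  · intro l _
    exact ini_sn43 l _
  · intro l _
    show g l = g (sn43 (ini43 l) 0)
    rw [← hg, sn_ini43]

open Classical in
/-- the component of an eigenpair for a character of the last coordinate -/
theorem comp43 {F : Type} [Field F] [Fintype F] {n : ℕ} {lam : ℝ}
    {f g : (Fin (n + 2) → F) → ℂ} (h : EigA lam f g) (θ : AddChar F ℂ) :
    EigA lam (fun p => ∑ c, θ (-c) * f (p - Pi.single (Fin.last (n + 1)) c))
      (fun l => ∑ c, θ (-c) * g (l + Pi.single (Fin.last (n + 1)) c)) := by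
  constructor
  · intro l
    rw [Finset.sum_comm, Finset.mul_sum]
    refine Finset.sum_congr rfl fun c _ => ?_
    rw [← Finset.mul_sum, mul_left_comm, ← h.sumP]
    congr 1
    refine Finset.sum_nbij' (fun p => p - Pi.single (Fin.last (n + 1)) c)
      (fun p => p + Pi.single (Fin.last (n + 1)) c) ?_ ?_ ?_ ?_ ?_
    · intro p hp
      rw [Finset.mem_filter] at hp ⊢
      exact ⟨Finset.mem_univ _, (inc_shift43 p l c).2 hp.2⟩
    · intro p hp
      rw [Finset.mem_filter] at hp ⊢
      refine ⟨Finset.mem_univ _, (inc_shift43 _ l c).1 ?_⟩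
      rw [add_sub_cancel_right]
      exact hp.2
    · intro p _
      exact sub_add_cancel _ _
    · intro p _
      exact add_sub_cancel_right _ _
    · intro p _
      rfl
  · intro p
    rw [Finset.sum_comm, Finset.mul_sum]
    refine Finset.sum_congr rfl fun c _ => ?_
    rw [← Finset.mul_sum, mul_left_comm, ← h.sumL]
    congr 1
    refine Finset.sum_nbij' (fun l => l + Pi.single (Fin.last (n + 1)) c)
      (fun l => l - Pi.single (Fin.last (n + 1)) c) ?_ ?_ ?_ ?_ ?_
    · intro l hl
      rw [Finset.mem_filter] at hl ⊢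
      exact ⟨Finset.mem_univ _, (inc_shift43 p l c).2 hl.2⟩
    · intro l hl
      rw [Finset.mem_filter] at hl ⊢
      refine ⟨Finset.mem_univ _, (inc_shift43 p _ c).1 ?_⟩
      rw [sub_add_cancel]
      exact hl.2
    · intro l _
      exact add_sub_cancel_right _ _
    · intro l _
      exact sub_add_cancel _ _
    · intro l _
      rfl

/-- Fourier inversion on `F` -/
theorem fourier43 {F : Type} [Field F] [Fintype F] (u : F → ℂ)
    (hu : ∀ θ : AddChar F ℂ, θ ≠ 1 → ∑ c, θ (-c) * u c = 0) (a : F) : u a = u 0 := by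
  classical
  have key : ∀ a : F, (Fintype.card F : ℂ) * u a = ∑ c, u c := by
    intro a
    have h1 : ∑ θ : AddChar F ℂ, θ a * ∑ c, θ (-c) * u c = ∑ c, u c := by
      rw [Finset.sum_eq_single (1 : AddChar F ℂ)]
      · simp
      · intro θ _ hθ
        rw [hu θ hθ, mul_zero]
      · intro h
        exact absurd (Finset.mem_univ _) h
    rw [← h1]
    simp only [Finset.mul_sum]
    rw [Finset.sum_comm]
    rw [Finset.sum_eq_single a]
    · have h2 : ∀ θ : AddChar F ℂ, θ a * (θ (-a) * u a) = u a := by
        intro θ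
        rw [← mul_assoc, ← AddChar.map_add_eq_mul, add_neg_cancel, AddChar.map_zero_eq_one, one_mul]
      rw [Finset.sum_congr rfl fun θ _ => h2 θ, Finset.sum_const, Finset.card_univ, nsmul_eq_mul,
        AddChar.card_eq]
    · intro c _ hc
      have h2 : ∀ θ : AddChar F ℂ, θ a * (θ (-c) * u c) = θ (a - c) * u c := by
        intro θ
        rw [← mul_assoc, ← AddChar.map_add_eq_mul, sub_eq_add_neg]
      rw [Finset.sum_congr rfl fun θ _ => h2 θ, ← Finset.sum_mul, AddChar.sum_apply_eq_ite,
        if_neg (sub_ne_zero.2 (Ne.symm hc)), zero_mul]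
    · intro h
      exact absurd (Finset.mem_univ _) h
  have hq : (Fintype.card F : ℂ) ≠ 0 := by
    exact_mod_cast Fintype.card_ne_zero
  exact mul_left_cancel₀ hq ((key a).trans (key 0).symm)

theorem down {F : Type} [Field F] [Fintype F] (B : ℝ) (hB : 0 < B)
    (hnew : ∀ (N : ℕ) (lam : ℝ) (f g : (Fin (N + 2) → F) → ℂ), B ≤ lam → EigA lam f g →
      ∀ θ : AddChar F ℂ, θ ≠ 1 →
        (∀ c p, f (p - Pi.single (Fin.last (N + 1)) c) = θ c * f p) →
        (∀ c l, g (l + Pi.single (Fin.last (N + 1)) c) = θ c * g l) → f = 0 ∧ g = 0) :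
    ∀ (n : ℕ) (lam : ℝ) (f g : (Fin (n + 1) → F) → ℂ), B ≤ lam → EigA lam f g →
      (∑ p, f p) + ∑ l, g l = 0 → f = 0 ∧ g = 0 := by
  classical
  have hq : (Fintype.card F : ℂ) ≠ 0 := by
    exact_mod_cast Fintype.card_ne_zero
  intro n
  induction n with
  | zero =>
    intro lam f g hlam h hs
    have hl : (0 : ℝ) < lam := lt_of_lt_of_le hB hlam
    have hlc : (lam : ℂ) ≠ 0 := by exact_mod_cast hl.ne'
    have hinc : ∀ p l : Fin (0 + 1) → F, Inc p l := fun p l j hj => by omega
    have h1 : ∀ l, ∑ p, f p = (lam : ℂ) * g l := by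
      intro l
      rw [← h.sumP l]
      refine Finset.sum_congr ?_ fun _ _ => rfl
      ext p
      simp [hinc p l]
    have h2 : ∀ p, ∑ l, g l = (lam : ℂ) * f p := by
      intro p
      rw [← h.sumL p]
      refine Finset.sum_congr ?_ fun _ _ => rfl
      ext l
      simp [hinc p l]
    have h3 : (lam : ℂ) * ∑ l, g l = (Fintype.card (Fin (0 + 1) → F) : ℂ) * ∑ p, f p := by
      rw [Finset.mul_sum, Finset.sum_congr rfl fun l _ => (h1 l).symm, Finset.sum_const,
        Finset.card_univ, nsmul_eq_mul]
    have h4 : ((lam : ℂ) + (Fintype.card (Fin (0 + 1) → F) : ℂ)) * ∑ p, f p = 0 := by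
      rw [add_mul, ← h3, ← mul_add, hs, mul_zero]
    have h5 : ((lam : ℂ) + (Fintype.card (Fin (0 + 1) → F) : ℂ)) ≠ 0 := by
      have h6 : (0 : ℝ) < lam + (Fintype.card (Fin (0 + 1) → F) : ℝ) := by positivity
      exact_mod_cast h6.ne'
    have h7 : ∑ p, f p = 0 := (mul_eq_zero.1 h4).resolve_left h5
    have h8 : ∑ l, g l = 0 := by rw [h7, zero_add] at hs; exact hs
    constructor
    · funext p
      have := h2 p
      rw [h8] at this
      exact (mul_eq_zero.1 this.symm).resolve_left hlc
    · funext l
      have := h1 l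
      rw [h7] at this
      exact (mul_eq_zero.1 this.symm).resolve_left hlc
  | succ n ih =>
    intro lam f g hlam h hs
    have hθ : ∀ θ : AddChar F ℂ, θ ≠ 1 →
        (∀ p : Fin (n + 2) → F, ∑ c : F, θ (-c) * f (p - Pi.single (Fin.last (n + 1)) c) = 0) ∧
        (∀ l : Fin (n + 2) → F, ∑ c : F, θ (-c) * g (l + Pi.single (Fin.last (n + 1)) c) = 0) := by
      intro θ hθ
      have h1 := hnew n lam _ _ hlam (comp43 h θ) θ hθ ?_ ?_
      · exact ⟨fun p => congrFun h1.1 p, fun l => congrFun h1.2 l⟩
      · intro c p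
        rw [Finset.mul_sum, ← Equiv.sum_comp (Equiv.subRight c)]
        refine Finset.sum_congr rfl fun d _ => ?_
        rw [Equiv.subRight_apply, sub_sub, ← Pi.single_add, add_sub_cancel, ← mul_assoc,
          ← AddChar.map_add_eq_mul]
        congr 2
        ring
      · intro c l
        rw [Finset.mul_sum, ← Equiv.sum_comp (Equiv.subRight c)]
        refine Finset.sum_congr rfl fun d _ => ?_
        rw [Equiv.subRight_apply, add_assoc, ← Pi.single_add, add_sub_cancel, ← mul_assoc,
          ← AddChar.map_add_eq_mul]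
        congr 2
        ring
    have hf : ∀ (p : Fin (n + 2) → F) (c : F), f (p - Pi.single (Fin.last (n + 1)) c) = f p := by
      intro p c
      have h1 := fourier43 (fun c => f (p - Pi.single (Fin.last (n + 1)) c))
        (fun θ h => (hθ θ h).1 p) c
      simpa using h1
    have hg : ∀ (l : Fin (n + 2) → F) (c : F), g (l + Pi.single (Fin.last (n + 1)) c) = g l := by
      intro l c
      have h1 := fourier43 (fun c => g (l + Pi.single (Fin.last (n + 1)) c))
        (fun θ h => (hθ θ h).2 l) c
      simpa using h1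
    have hsn : ∀ (p : Fin (n + 1) → F) (x : F),
        sn43 p 0 + Pi.single (Fin.last (n + 1)) x = sn43 p x := by
      intro p x
      refine (sn_ini43 _).symm.trans ?_
      congr 1
      · funext i
        simp only [ini43, Pi.add_apply]
        rw [Pi.single_eq_of_ne, add_zero]
        · exact congrFun (ini_sn43 p 0) i
        · intro h
          have h' := congrArg Fin.val h
          simp only [Fin.val_last] at h'
          omega
      · simp [sn43]
    have hf' : ∀ p x, f (sn43 p x) = f (sn43 p 0) := by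
      intro p x
      rw [← hf (sn43 p x) x, ← hsn p x, add_sub_cancel_right]
    have hg' : ∀ l x, g (sn43 l x) = g (sn43 l 0) := by
      intro l x
      rw [← hsn l x, hg]
    have h1 := ih lam (fun p => f (sn43 p 0)) (fun l => g (sn43 l 0)) hlam ⟨?_, ?_⟩ ?_
    · constructor
      · funext p
        rw [← sn_ini43 p, hf']
        exact congrFun h1.1 _
      · funext l
        rw [← sn_ini43 l, hg']
        exact congrFun h1.2 _
    · intro l
      rw [← h.sumP, sumP43 f hf']
    · intro p
      rw [← h.sumL, sumL43 g hg']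
    · rw [sum_sn43, sum_sn43] at hs
      have e1 : ∀ p : Fin (n + 1) → F, ∑ x : F, f (sn43 p x) =
          (Fintype.card F : ℂ) * f (sn43 p 0) := by
        intro p
        rw [Finset.sum_congr rfl fun x _ => hf' p x, Finset.sum_const, Finset.card_univ,
          nsmul_eq_mul]
      have e2 : ∀ p : Fin (n + 1) → F, ∑ x : F, g (sn43 p x) =
          (Fintype.card F : ℂ) * g (sn43 p 0) := by
        intro p
        rw [Finset.sum_congr rfl fun x _ => hg' p x, Finset.sum_const, Finset.card_univ,
          nsmul_eq_mul]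
      rw [Finset.sum_congr rfl fun p _ => e1 p, Finset.sum_congr rfl fun p _ => e2 p,
        ← Finset.mul_sum, ← Finset.mul_sum, ← mul_add] at hs
      exact (mul_eq_zero.1 hs).resolve_left hq

end Anq13
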