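import Mathlib
import Pool.Agent.Anq13.Defs

/-!
# MP_d4d904_co : module G, pulling an eigenpair of A(n,q) back to the group
-/

namespace Anq13

open Polynomial Matrix

/-- a point is determined by its first coordinate and an incident line -/
theorem inc_unique_p {F : Type} [Field F] {n : ℕ} (hn : 0 < n) (l p p' : Fin n → F)
    (h : Inc p l) (h' : Inc p' l) (h0 : p ⟨0, hn⟩ = p' ⟨0, hn⟩) : p = p' := by
  have key : ∀ j (hj : j < n), p ⟨j, hj⟩ = p' ⟨j, hj⟩ := by
    intro j
    induction j with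
    | zero => intro hj; exact h0
    | succ j ih =>
      intro hj
      have e1 := h j hj
      have e2 := h' j hj
      rw [← ih (by omega), ← h0] at e2
      rw [← e1] at e2
      exact (add_right_cancel e2).symm
  funext i
  exact key i.1 i.2

/-- a line is determined by its first coordinate and an incident point -/
theorem inc_unique_l {F : Type} [Field F] {n : ℕ} (hn : 0 < n) (p l l' : Fin n → F)
    (h : Inc p l) (h' : Inc p l') (h0 : l ⟨0, hn⟩ = l' ⟨0, hn⟩) : l = l' := by
  have key : ∀ j (hj : j < n), l ⟨j, hj⟩ = l' ⟨j, hj⟩ := by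
    intro j
    induction j with
    | zero => intro hj; exact h0
    | succ j ih =>
      intro hj
      have e1 := h j hj
      have e2 := h' j hj
      rw [← ih (by omega), ← h0] at e2
      rw [← e1] at e2
      exact (add_left_cancel e2).symm
  funext i
  exact key i.1 i.2

/-- the line of a group element -/
noncomputable def line31 {F : Type} [Field F] (n : ℕ) {m : ℕ} (k : Gs F m) : Fin n → F := fun i =>
  if (i : ℕ) = 0 then cf 1 (k.1 0 1) else
    if Even (i : ℕ) then cf 0 (k.1 1 0) * cf ((i : ℕ) / 2) (k.1 1 1) - cf ((i : ℕ) / 2) (k.1 1 0)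
    else cf (((i : ℕ) + 1) / 2) (k.1 1 1)

/-- the point of a group element -/
noncomputable def point31 {F : Type} [Field F] (n : ℕ) {m : ℕ} (k : Gs F m) : Fin n → F := fun i =>
  if (i : ℕ) = 0 then cf 0 (k.1 1 0) else
    if Even (i : ℕ) then cf ((i : ℕ) / 2) (k.1 1 0)
    else cf 1 (k.1 0 1) * cf (((i : ℕ) - 1) / 2) (k.1 1 0) - cf (((i : ℕ) + 1) / 2) (k.1 1 1)

section
variable {F : Type} [Field F] {m : ℕ}

theorem eG_00_31 (x : F) : (eG m x).1 0 0 = 1 := by
  show mk m 1 = 1
  exact map_one _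
theorem eG_01_31 (x : F) : (eG m x).1 0 1 = 0 := by
  show mk m 0 = 0
  exact map_zero _
theorem eG_10_31 (x : F) : (eG m x).1 1 0 = cs x := rfl
theorem eG_11_31 (x : F) : (eG m x).1 1 1 = 1 := by
  show mk m 1 = 1
  exact map_one _
theorem uG_00_31 (s : F) : (uG m s).1 0 0 = 1 := by
  show mk m 1 = 1
  exact map_one _
theorem uG_01_31 (s : F) : (uG m s).1 0 1 = -(cs s * tt) := by
  show AdjoinRoot.mk (X ^ (m + 1) : F[X]) (-(C s * X)) = _
  rw [map_neg, map_mul]
theorem uG_10_31 (s : F) : (uG m s).1 1 0 = 0 := by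
  show mk m 0 = 0
  exact map_zero _
theorem uG_11_31 (s : F) : (uG m s).1 1 1 = 1 := by
  show mk m 1 = 1
  exact map_one _

theorem coe_mul_31 (g k : Gs F m) : (g * k).1 = g.1 * k.1 := rfl

theorem cf_cs_mul_31 (i : ℕ) (hi : i ≤ m) (c : F) (r : Rg F m) : cf i (cs c * r) = c * cf i r := by
  obtain ⟨f, rfl⟩ := exists_mk r
  rw [show cs c * mk m f = mk m (C c * f) from (map_mul _ _ _).symm, cf_mk i hi, cf_mk i hi,
    coeff_C_mul]

theorem cf_tt_mul_31 (i j : ℕ) (hi : i ≤ m) (r : Rg F m) :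
    cf i (tt ^ j * r) = if j ≤ i then cf (i - j) r else 0 := by
  obtain ⟨f, rfl⟩ := exists_mk r
  rw [show (tt : Rg F m) ^ j * mk m f = mk m (X ^ j * f) by simp, cf_mk i hi, coeff_X_pow_mul']
  split_ifs with h
  · rw [cf_mk _ (by omega)]
  · rfl

theorem line_point_inc_31 (n : ℕ) (k : Gs F m) : Inc (point31 n k) (line31 n k) := by
  intro j hj
  rcases Nat.even_or_odd j with hj2 | hj2
  · have h1 : ¬ Even (j + 1) := by
      rw [Nat.not_even_iff_odd]; exact hj2.add_one
    have h2 : (j + 1 - 1) / 2 = j / 2 := by simp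
    rw [if_pos hj2]
    simp only [point31, line31, if_neg (Nat.succ_ne_zero j), if_neg h1, h2, if_true]
    by_cases h0 : j = 0
    · subst h0
      simp
      ring
    · rw [if_neg h0, if_pos hj2]
      ring
  · have h1 : Even (j + 1) := hj2.add_one
    have h0 : j ≠ 0 := by rintro rfl; simp at hj2
    have hj3 : ¬ Even j := by rw [Nat.not_even_iff_odd]; exact hj2
    rw [if_neg hj3]
    simp only [point31, line31, if_neg (Nat.succ_ne_zero j), if_pos h1, if_true, if_neg h0,
      if_neg hj3]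
    ring

theorem ent_e_31 (k : Gs F m) (x : F) :
    (k * eG m x).1 0 1 = k.1 0 1 ∧ (k * eG m x).1 1 0 = k.1 1 0 + cs x * k.1 1 1 ∧
      (k * eG m x).1 1 1 = k.1 1 1 := by
  rw [coe_mul_31]
  refine ⟨?_, ?_, ?_⟩
  · rw [mul_01, eG_01_31, eG_11_31]; ring
  · rw [mul_10, eG_00_31, eG_10_31]; ring
  · rw [mul_11, eG_01_31, eG_11_31]; ring

theorem ent_u_31 (k : Gs F m) (s : F) :
    (k * uG m s).1 0 1 = k.1 0 1 - cs s * (tt ^ 1 * k.1 0 0) ∧
      (k * uG m s).1 1 0 = k.1 1 0 ∧
      (k * uG m s).1 1 1 = k.1 1 1 - cs s * (tt ^ 1 * k.1 1 0) := by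
  rw [coe_mul_31]
  refine ⟨?_, ?_, ?_⟩
  · rw [mul_01, uG_01_31, uG_11_31]; ring
  · rw [mul_10, uG_00_31, uG_10_31]; ring
  · rw [mul_11, uG_01_31, uG_11_31]; ring

theorem cf00_31 (k : Gs F m) : cf 0 (k.1 0 0) = 1 := ((mem_Gs k.1).1 k.2).1
theorem cf01_31 (k : Gs F m) : cf 0 (k.1 0 1) = 0 := ((mem_Gs k.1).1 k.2).2.1
theorem cf11_31 (k : Gs F m) : cf 0 (k.1 1 1) = 1 := ((mem_Gs k.1).1 k.2).2.2

theorem line_e_31 (n : ℕ) (hn : n ≤ 2 * m + 1) (k : Gs F m) (x : F) :
    line31 n (k * eG m x) = line31 n k := by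
  obtain ⟨h1, h2, h3⟩ := ent_e_31 k x
  funext i
  have hi := i.2
  simp only [line31]
  rw [h1, h2, h3]
  by_cases h0 : (i : ℕ) = 0
  · simp [h0]
  · rw [if_neg h0, if_neg h0]
    by_cases he : Even (i : ℕ)
    · rw [if_pos he, if_pos he, cf_add, cf_add, cf_cs_mul_31 _ (by omega),
        cf_cs_mul_31 _ (by omega), cf11_31]
      ring
    · rw [if_neg he, if_neg he]

theorem point_e_31 (n : ℕ) (hn : 0 < n) (k : Gs F m) (x : F) :
    point31 n (k * eG m x) ⟨0, hn⟩ = point31 n k ⟨0, hn⟩ + x := by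
  obtain ⟨h1, h2, h3⟩ := ent_e_31 k x
  simp only [point31, if_true]
  rw [h2, cf_add, cf_cs_mul_31 _ (by omega), cf11_31]
  ring

theorem point_u_31 (n : ℕ) (hm : 1 ≤ m) (hn : n ≤ 2 * m + 1) (k : Gs F m) (s : F) :
    point31 n (k * uG m s) = point31 n k := by
  obtain ⟨h1, h2, h3⟩ := ent_u_31 k s
  funext i
  have hi := i.2
  simp only [point31]
  rw [h1, h2, h3]
  by_cases h0 : (i : ℕ) = 0
  · simp [h0]
  · rw [if_neg h0, if_neg h0]
    by_cases he : Even (i : ℕ)
    · rw [if_pos he, if_pos he]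
    · rw [if_neg he, if_neg he, cf_sub, cf_sub, cf_cs_mul_31 _ (by omega), cf_cs_mul_31 _ (by omega),
        cf_tt_mul_31 _ _ (by omega), cf_tt_mul_31 _ _ (by omega), if_pos (by omega),
        if_pos (by omega), cf00_31]
      have h4 : ((i : ℕ) + 1) / 2 - 1 = ((i : ℕ) - 1) / 2 := by omega
      rw [h4]
      ring

theorem line_u_31 (n : ℕ) (hm : 1 ≤ m) (hn : 0 < n) (k : Gs F m) (s : F) :
    line31 n (k * uG m s) ⟨0, hn⟩ = line31 n k ⟨0, hn⟩ - s := by
  obtain ⟨h1, h2, h3⟩ := ent_u_31 k s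
  simp only [line31, if_true]
  rw [h1, cf_sub, cf_cs_mul_31 _ (by omega), cf_tt_mul_31 _ _ (by omega), if_pos (by omega),
    cf00_31]
  ring

theorem sum_points_31 [Fintype F] (n : ℕ) (hn : 0 < n) (hn2 : n ≤ 2 * m + 1)
    (f : (Fin n → F) → ℂ) (k : Gs F m) (S : Finset (Fin n → F))
    (hS : ∀ p, p ∈ S ↔ Inc p (line31 n k)) :
    ∑ x, f (point31 n (k * eG m x)) = ∑ p ∈ S, f p := by
  refine Finset.sum_bij (fun x _ => point31 n (k * eG m x)) ?_ ?_ ?_ ?_
  · intro x _
    rw [hS, ← line_e_31 n hn2 k x]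
    exact line_point_inc_31 n _
  · intro x _ y _ hxy
    have := congrFun hxy ⟨0, hn⟩
    rw [point_e_31, point_e_31] at this
    exact add_left_cancel this
  · intro p hp
    rw [hS] at hp
    refine ⟨p ⟨0, hn⟩ - point31 n k ⟨0, hn⟩, Finset.mem_univ _, ?_⟩
    apply inc_unique_p hn (line31 n k) _ _ _ hp
    · rw [point_e_31]; ring
    · have h := line_point_inc_31 n (k * eG m (p ⟨0, hn⟩ - point31 n k ⟨0, hn⟩))
      rw [line_e_31 n hn2] at h
      exact h
  · intro x _
    rfl

theorem sum_lines_31 [Fintype F] (n : ℕ) (hm : 1 ≤ m) (hn : 0 < n) (hn2 : n ≤ 2 * m + 1)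
    (g : (Fin n → F) → ℂ) (k : Gs F m) (S : Finset (Fin n → F))
    (hS : ∀ l, l ∈ S ↔ Inc (point31 n k) l) :
    ∑ s, g (line31 n (k * uG m s)) = ∑ l ∈ S, g l := by
  refine Finset.sum_bij (fun s _ => line31 n (k * uG m s)) ?_ ?_ ?_ ?_
  · intro s _
    rw [hS, ← point_u_31 n hm hn2 k s]
    exact line_point_inc_31 n _
  · intro x _ y _ hxy
    have := congrFun hxy ⟨0, hn⟩
    rw [line_u_31 n hm, line_u_31 n hm] at this
    linear_combination -this
  · intro l hl
    rw [hS] at hl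
    refine ⟨line31 n k ⟨0, hn⟩ - l ⟨0, hn⟩, Finset.mem_univ _, ?_⟩
    apply inc_unique_l hn (point31 n k) _ _ _ hl
    · rw [line_u_31 n hm]; ring
    · have h := line_point_inc_31 n (k * uG m (line31 n k ⟨0, hn⟩ - l ⟨0, hn⟩))
      rw [point_u_31 n hm hn2] at h
      exact h
  · intro x _
    rfl

theorem line_onto_31 (n : ℕ) (hm : 1 ≤ m) (hn2 : n ≤ 2 * m + 1) (l : Fin n → F) :
    ∃ k : Gs F m, line31 n k = l := by
  set l' : ℕ → F := fun i => if h : i < n then l ⟨i, h⟩ else 0 with hl'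
  set c : F[X] := 1 + ∑ j ∈ Finset.Icc 1 m, C (l' (2 * j - 1)) * X ^ j with hc
  set b : F[X] := -∑ j ∈ Finset.Icc 1 m, C (l' (2 * j)) * X ^ j with hb
  have hsum : ∀ (a : ℕ → F) (i : ℕ), (∑ j ∈ Finset.Icc 1 m, C (a j) * X ^ j : F[X]).coeff i =
      if i ∈ Finset.Icc 1 m then a i else 0 := by
    intro a i
    rw [finsetSum_coeff]
    simp only [coeff_C_mul, coeff_X_pow, mul_ite, mul_one, mul_zero]
    rw [Finset.sum_ite_eq]
  have hc0 : cf 0 (mk m c) = 1 := by
    rw [cf_mk 0 (by omega), hc, coeff_add, hsum]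
    simp
  have hci : ∀ i, 1 ≤ i → i ≤ m → cf i (mk m c) = l' (2 * i - 1) := by
    intro i h1 h2
    rw [cf_mk i h2, hc, coeff_add, hsum (fun j => l' (2 * j - 1)), if_pos (by simp [h1, h2]),
      coeff_one, if_neg (by omega), zero_add]
  have hb0 : cf 0 (mk m b) = 0 := by
    rw [cf_mk 0 (by omega), hb, coeff_neg, hsum (fun j => l' (2 * j))]
    simp
  have hbi : ∀ i, 1 ≤ i → i ≤ m → cf i (mk m b) = - l' (2 * i) := by
    intro i h1 h2
    rw [cf_mk i h2, hb, coeff_neg, hsum (fun j => l' (2 * j)), if_pos (by simp [h1, h2])]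
  obtain ⟨ci, hci1, hci2⟩ := exists_inv (mk m c) hc0
  set e : Rg F m := cs (l' 0) * (tt ^ 1 * 1) with he
  have he0 : cf 0 e = 0 := by
    rw [he, cf_cs_mul_31 _ (by omega), cf_tt_mul_31 _ _ (by omega), if_neg (by omega), mul_zero]
  have he1 : cf 1 e = l' 0 := by
    rw [he, cf_cs_mul_31 _ hm, cf_tt_mul_31 _ _ hm, if_pos (by omega), cf0_one, mul_one]
  refine ⟨⟨sl ((1 + e * mk m b) * ci) e (mk m b) (mk m c) ?_, ?_⟩, ?_⟩
  · linear_combination (1 + e * mk m b) * hci1
  · rw [mem_Gs]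
    refine ⟨?_, he0, hc0⟩
    rw [sl_00, cf0_mul, cf_add, cf0_mul, he0, hci2]
    simp
  · funext i
    have hi := i.2
    simp only [line31]
    rw [sl_01, sl_10, sl_11, he1, hb0]
    by_cases h0 : (i : ℕ) = 0
    · rw [if_pos h0, hl']
      have : (0 : ℕ) < n := by omega
      simp only [dif_pos this]
      congr 1
      exact Fin.ext h0.symm
    · rw [if_neg h0]
      by_cases hE : Even (i : ℕ)
      · rw [if_pos hE]
        obtain ⟨r, hr⟩ := hE
        rw [hbi _ (by omega) (by omega)]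
        have h5 : 2 * ((i : ℕ) / 2) = i := by omega
        rw [h5, hl']
        simp
      · rw [if_neg hE]
        rw [Nat.not_even_iff_odd] at hE
        obtain ⟨r, hr⟩ := hE
        rw [hci _ (by omega) (by omega)]
        have h5 : 2 * (((i : ℕ) + 1) / 2) - 1 = i := by omega
        rw [h5, hl']
        simp

theorem ent_nl_31 (k : Gs F m) (y : Rg F m) :
    ((nl y)⁻¹ * k).1 0 1 = k.1 0 1 ∧ ((nl y)⁻¹ * k).1 1 0 = k.1 1 0 - y * k.1 0 0 ∧
      ((nl y)⁻¹ * k).1 1 1 = k.1 1 1 - y * k.1 0 1 := by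
  have h : ((nl y)⁻¹ * k).1 = ((nl y).1)⁻¹ * k.1 := rfl
  rw [h]
  refine ⟨?_, ?_, ?_⟩
  · rw [mul_01, inv_00, inv_01]
    simp [nl]
  · rw [mul_10, inv_10, inv_11]
    simp only [nl, sl_10, sl_00]
    ring
  · rw [mul_11, inv_10, inv_11]
    simp only [nl, sl_10, sl_00]
    ring

theorem ent_zl_31 (hm : 1 ≤ m) (k : Gs F m) (c : F) :
    ((zl hm c)⁻¹ * k).1 0 1 = k.1 0 1 - cs c * (tt ^ m * k.1 0 1) ∧
      ((zl hm c)⁻¹ * k).1 1 0 = k.1 1 0 + cs c * (tt ^ m * k.1 1 0) ∧
      ((zl hm c)⁻¹ * k).1 1 1 = k.1 1 1 + cs c * (tt ^ m * k.1 1 1) := by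
  have h : ((zl hm c)⁻¹ * k).1 = ((zl hm c).1)⁻¹ * k.1 := rfl
  rw [h]
  refine ⟨?_, ?_, ?_⟩
  · rw [mul_01, inv_00, inv_01]
    simp only [zl, sl_11, sl_01]
    ring
  · rw [mul_10, inv_10, inv_11]
    simp only [zl, sl_10, sl_00]
    ring
  · rw [mul_11, inv_10, inv_11]
    simp only [zl, sl_10, sl_00]
    ring

end

theorem pull {F : Type} [Field F] [Fintype F] (N m : ℕ) (hm : 1 ≤ m)
    (hN : N + 2 = 2 * m ∨ N + 2 = 2 * m + 1) (lam : ℝ) (f g : (Fin (N + 2) → F) → ℂ)
    (h : EigA lam f g) (hne : g ≠ 0) (θ : AddChar F ℂ)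
    (hf : ∀ c p, f (p - Pi.single (Fin.last (N + 1)) c) = θ c * f p)
    (hg : ∀ c l, g (l + Pi.single (Fin.last (N + 1)) c) = θ c * g l) :
    ∃ Phi Psi : Gs F m → ℂ, EigG (eG m) (uG m) lam Phi Psi ∧ Phi ≠ 0 ∧
      ((N + 2 = 2 * m ∧ (∀ c k, Phi ((zl hm c)⁻¹ * k) = θ c * Phi k) ∧
        ∀ c k, Phi ((nl (cs c * tt ^ m))⁻¹ * k) = Phi k) ∨
       (N + 2 = 2 * m + 1 ∧ ∀ c k, Phi ((nl (cs c * tt ^ m))⁻¹ * k) = θ c * Phi k)) := by
  classical
  have hn2 : N + 2 ≤ 2 * m + 1 := by omega
  have hn0 : 0 < N + 2 := by omega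
  refine ⟨fun k => g (line31 (N + 2) k), fun k => f (point31 (N + 2) k), ⟨?_, ?_, ?_, ?_⟩, ?_, ?_⟩
  · intro k x
    simp only [line_e_31 (N + 2) hn2]
  · intro k s
    simp only [point_u_31 (N + 2) hm hn2]
  · intro k
    rw [← h.sumP]
    apply sum_points_31 (N + 2) hn0 hn2
    intro p
    simp
  · intro k
    rw [← h.sumL]
    apply sum_lines_31 (N + 2) hm hn0 hn2
    intro p
    simp
  · intro h0
    apply hne
    funext l
    obtain ⟨k, rfl⟩ := line_onto_31 (N + 2) hm hn2 l
    exact congrFun h0 k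
  · have hnl : ∀ (c : F) (k : Gs F m),
        line31 (N + 2) ((nl (cs c * tt ^ m))⁻¹ * k) = line31 (N + 2) k +
          Pi.single (Fin.last (N + 1)) (if N + 2 = 2 * m + 1 then c else 0) := by
      intro c k
      obtain ⟨h1, h2, h3⟩ := ent_nl_31 k (cs c * tt ^ m)
      funext i
      have hi := i.2
      rw [Pi.add_apply]
      simp only [line31]
      rw [h1, h2, h3, mul_assoc, mul_assoc]
      have hs : (Pi.single (Fin.last (N + 1)) (if N + 2 = 2 * m + 1 then c else 0) : Fin (N + 2) → F) i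
          = if (i : ℕ) = 2 * m then c else 0 := by
        by_cases hi2 : i = Fin.last (N + 1)
        · subst hi2
          rw [Pi.single_eq_same, Fin.val_last]
          congr 1
          apply propext
          constructor <;> intro h <;> omega
        · rw [Pi.single_eq_of_ne hi2, if_neg]
          intro h5
          apply hi2
          apply Fin.ext
          rw [Fin.val_last]
          omega
      rw [hs]
      by_cases h0 : (i : ℕ) = 0
      · rw [if_pos h0, if_pos h0, if_neg (by omega), add_zero]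
      · rw [if_neg h0, if_neg h0]
        by_cases hE : Even (i : ℕ)
        · obtain ⟨r, hr⟩ := hE
          have hE' : Even (i : ℕ) := ⟨r, hr⟩
          rw [if_pos hE', if_pos hE']
          rw [cf_sub, cf_sub, cf_sub, cf_cs_mul_31 _ (by omega), cf_cs_mul_31 _ (by omega),
            cf_cs_mul_31 _ (by omega), cf_tt_mul_31 _ _ (by omega), cf_tt_mul_31 _ _ (by omega),
            cf_tt_mul_31 _ _ (by omega), if_neg (by omega)]
          by_cases h6 : m ≤ (i : ℕ) / 2
          · have h7 : (i : ℕ) / 2 - m = 0 := by omega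
            rw [if_pos h6, if_pos h6, h7, cf00_31, cf01_31, if_pos (by omega)]
            ring
          · rw [if_neg h6, if_neg h6, if_neg (by omega)]
            ring
        · rw [if_neg hE, if_neg hE, cf_sub, cf_cs_mul_31 _ (by omega), cf_tt_mul_31 _ _ (by omega)]
          rw [Nat.not_even_iff_odd] at hE
          obtain ⟨r, hr⟩ := hE
          rw [if_neg (show ¬ ((i : ℕ) = 2 * m) by omega)]
          by_cases h6 : m ≤ ((i : ℕ) + 1) / 2
          · have h7 : ((i : ℕ) + 1) / 2 - m = 0 := by omega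
            rw [if_pos h6, h7, cf01_31]
            ring
          · rw [if_neg h6]
            ring
    rcases hN with hN | hN
    · left
      refine ⟨hN, ?_, ?_⟩
      · intro c k
        show g _ = θ c * g _
        rw [← hg]
        congr 1
        obtain ⟨h1, h2, h3⟩ := ent_zl_31 hm k c
        funext i
        have hi := i.2
        rw [Pi.add_apply]
        simp only [line31]
        rw [h1, h2, h3]
        have hs : (Pi.single (Fin.last (N + 1)) c : Fin (N + 2) → F) i
            = if (i : ℕ) = 2 * m - 1 then c else 0 := by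
          by_cases hi2 : i = Fin.last (N + 1)
          · subst hi2
            rw [Pi.single_eq_same, Fin.val_last, if_pos (by omega)]
          · rw [Pi.single_eq_of_ne hi2, if_neg]
            intro h5
            apply hi2
            apply Fin.ext
            rw [Fin.val_last]
            omega
        rw [hs]
        by_cases h0 : (i : ℕ) = 0
        · rw [if_pos h0, if_pos h0, if_neg (by omega), cf_sub, cf_cs_mul_31 _ hm,
            cf_tt_mul_31 _ _ hm]
          by_cases h6 : m ≤ 1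
          · have h7 : 1 - m = 0 := by omega
            rw [if_pos h6, h7, cf01_31]
            ring
          · rw [if_neg h6]
            ring
        · rw [if_neg h0, if_neg h0]
          by_cases hE : Even (i : ℕ)
          · obtain ⟨r, hr⟩ := hE
            have hE' : Even (i : ℕ) := ⟨r, hr⟩
            rw [if_pos hE', if_pos hE']
            rw [cf_add, cf_add, cf_add, cf_cs_mul_31 _ (by omega), cf_cs_mul_31 _ (by omega),
              cf_cs_mul_31 _ (by omega), cf_tt_mul_31 _ _ (by omega), cf_tt_mul_31 _ _ (by omega),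
              cf_tt_mul_31 _ _ (by omega), if_neg (by omega), if_neg (by omega), if_neg (by omega),
              if_neg (by omega)]
            ring
          · rw [if_neg hE, if_neg hE, cf_add, cf_cs_mul_31 _ (by omega),
              cf_tt_mul_31 _ _ (by omega)]
            rw [Nat.not_even_iff_odd] at hE
            obtain ⟨r, hr⟩ := hE
            by_cases h6 : m ≤ ((i : ℕ) + 1) / 2
            · have h7 : ((i : ℕ) + 1) / 2 - m = 0 := by omega
              rw [if_pos h6, h7, cf11_31, if_pos (by omega)]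
              ring
            · rw [if_neg h6, if_neg (by omega)]
              ring
      · intro c k
        show g _ = g _
        rw [hnl, if_neg (by omega), Pi.single_zero, add_zero]
    · right
      refine ⟨hN, ?_⟩
      intro c k
      show g _ = θ c * g _
      rw [hnl, if_pos hN, hg]

end Anq13
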