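import Mathlib
import Pool.Agent.Anq13.Defs
import Pool.Agent.Anq13.Pull

/-!
# MP_d4d904_co : module J, the second eigenvalue
-/

namespace Anq13

open Polynomial Matrix

/-- J1: general statement on symmetric matrices -/
theorem second_eig {V : Type*} [Fintype V] [DecidableEq V] (A : Matrix V V ℝ)
    (hA : A.IsHermitian) (h1 : 1 < Fintype.card V) (w : V → ℝ) (hw : w ≠ 0) (μ : ℝ)
    (hAw : A *ᵥ w = μ • w) (hmax : hA.eigenvalues₀ ⟨0, by omega⟩ ≤ μ) :
    ∃ x : V → ℝ, x ≠ 0 ∧ A *ᵥ x = hA.eigenvalues₀ ⟨1, h1⟩ • x ∧ w ⬝ᵥ x = 0 := by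
  set σ := Fintype.equivOfCardEq (Fintype.card_fin (Fintype.card V)) with hσ
  have hev : ∀ i : Fin (Fintype.card V), A *ᵥ ⇑(hA.eigenvectorBasis (σ i)) =
      hA.eigenvalues₀ i • ⇑(hA.eigenvectorBasis (σ i)) := by
    intro i
    have h := hA.mulVec_eigenvectorBasis (σ i)
    have h2 : hA.eigenvalues (σ i) = hA.eigenvalues₀ i := by
      unfold Matrix.IsHermitian.eigenvalues
      rw [← hσ, Equiv.symm_apply_apply]
    rw [h2] at h
    exact h
  have horth : ∀ i j : Fin (Fintype.card V),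
      (⇑(hA.eigenvectorBasis (σ i)) : V → ℝ) ⬝ᵥ ⇑(hA.eigenvectorBasis (σ j)) =
        if i = j then 1 else 0 := by
    intro i j
    have h := orthonormal_iff_ite.mp hA.eigenvectorBasis.orthonormal (σ j) (σ i)
    rw [EuclideanSpace.inner_eq_star_dotProduct] at h
    simp only [star_trivial] at h
    rw [h]
    by_cases hij : i = j
    · subst hij
      simp
    · rw [if_neg hij, if_neg (fun hh => hij (σ.injective hh).symm)]
  set v0 : V → ℝ := ⇑(hA.eigenvectorBasis (σ ⟨0, by omega⟩)) with hv0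
  set v1 : V → ℝ := ⇑(hA.eigenvectorBasis (σ ⟨1, h1⟩)) with hv1
  have e0 := hev ⟨0, by omega⟩
  have e1 := hev ⟨1, h1⟩
  rw [← hv0] at e0
  rw [← hv1] at e1
  have o00 := horth ⟨0, by omega⟩ ⟨0, by omega⟩
  have o01 := horth ⟨0, by omega⟩ ⟨1, h1⟩
  have o11 := horth ⟨1, h1⟩ ⟨1, h1⟩
  rw [← hv0] at o00 o01
  rw [← hv1] at o01 o11
  rw [if_pos rfl] at o00 o11
  rw [if_neg (by simp)] at o01
  have hv1ne : v1 ≠ 0 := by
    intro h
    rw [h] at o11
    simp at o11
  by_cases hc : w ⬝ᵥ v1 = 0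
  · exact ⟨v1, hv1ne, e1, hc⟩
  · have hsym : ∀ a b : V → ℝ, (A *ᵥ a) ⬝ᵥ b = a ⬝ᵥ (A *ᵥ b) := by
      intro a b
      have hT : Aᵀ = A := by
        have := hA
        rw [Matrix.IsHermitian, Matrix.conjTranspose_eq_transpose_of_trivial] at this
        exact this
      rw [Matrix.dotProduct_mulVec, ← Matrix.mulVec_transpose, hT]
    have hμ : hA.eigenvalues₀ ⟨1, h1⟩ = μ := by
      have h2 := hsym w v1
      rw [hAw, e1, smul_dotProduct, dotProduct_smul, smul_eq_mul, smul_eq_mul] at h2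
      exact (mul_right_cancel₀ hc h2).symm
    have hμ0 : hA.eigenvalues₀ ⟨0, by omega⟩ = μ := by
      apply le_antisymm hmax
      rw [← hμ]
      exact hA.eigenvalues₀_antitone (by simp)
    refine ⟨(w ⬝ᵥ v1) • v0 - (w ⬝ᵥ v0) • v1, ?_, ?_, ?_⟩
    · intro h
      have h2 := congrArg (fun z => v0 ⬝ᵥ z) h
      simp only [dotProduct_sub, dotProduct_smul, o00, o01, smul_eq_mul, dotProduct_zero] at h2
      apply hc
      linarith
    · rw [Matrix.mulVec_sub, Matrix.mulVec_smul, Matrix.mulVec_smul, e0, e1, hμ, hμ0, smul_sub,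
        smul_comm μ, smul_comm μ]
    · rw [dotProduct_sub, dotProduct_smul, dotProduct_smul, smul_eq_mul, smul_eq_mul]
      ring

/-- J3: an eigenvalue of a nonnegative matrix with row sums `q` is at most `q` -/
theorem eig_le {V : Type*} [Fintype V] [DecidableEq V] (A : Matrix V V ℝ)
    (h0 : ∀ i j, 0 ≤ A i j) (q : ℝ) (hq : A *ᵥ (fun _ => (1 : ℝ)) = q • (fun _ => (1 : ℝ)))
    (x : V → ℝ) (hx : x ≠ 0) (μ : ℝ) (h : A *ᵥ x = μ • x) : μ ≤ q := by
  obtain ⟨i0, hi0⟩ := Function.ne_iff.mp hx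
  have : Nonempty V := ⟨i0⟩
  obtain ⟨i, hi⟩ := Finite.exists_max (fun i => |x i|)
  have hpos : 0 < |x i| := lt_of_lt_of_le (abs_pos.mpr hi0) (hi i0)
  have hrow : ∑ j, A i j = q := by
    have := congrFun hq i
    simpa [Matrix.mulVec, dotProduct] using this
  have h1 : μ * x i = ∑ j, A i j * x j := by
    have := congrFun h i
    simp only [Matrix.mulVec, dotProduct, Pi.smul_apply, smul_eq_mul] at this
    exact this.symm
  have h2 : μ * |x i| ≤ q * |x i| := by
    calc μ * |x i| ≤ |μ| * |x i| := mul_le_mul_of_nonneg_right (le_abs_self μ) (abs_nonneg _)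
      _ = |∑ j, A i j * x j| := by rw [← abs_mul, h1]
      _ ≤ ∑ j, |A i j * x j| := Finset.abs_sum_le_sum_abs _ _
      _ ≤ ∑ j, A i j * |x i| := by
          apply Finset.sum_le_sum
          intro j _
          rw [abs_mul, abs_of_nonneg (h0 i j)]
          exact mul_le_mul_of_nonneg_left (hi j) (h0 i j)
      _ = q * |x i| := by rw [← Finset.sum_mul, hrow]
  exact le_of_mul_le_mul_right h2 hpos

/-- the coordinates of the line through `p` with first coordinate `x` -/
def lin42 {F : Type} [Field F] {n : ℕ} (p : Fin n → F) (x : F) : ℕ → F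
  | 0 => x
  | (j + 1) => if h : j + 1 < n then
      (if Even j then p ⟨j, by omega⟩ * x else p ⟨0, by omega⟩ * lin42 p x j) - p ⟨j + 1, h⟩
    else 0

/-- the coordinates of the point on `l` with first coordinate `x` -/
def pt42 {F : Type} [Field F] {n : ℕ} (l : Fin n → F) (x : F) : ℕ → F
  | 0 => x
  | (j + 1) => if h : j + 1 < n then
      (if Even j then pt42 l x j * l ⟨0, by omega⟩ else x * l ⟨j, by omega⟩) - l ⟨j + 1, h⟩
    else 0

theorem inc_lin42 {F : Type} [Field F] {n : ℕ} (p : Fin n → F) (x : F) :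
    Inc p (fun i => lin42 p x i) := by
  intro j h
  show p ⟨j + 1, h⟩ + lin42 p x (j + 1) = _
  rw [lin42, dif_pos h]
  show p ⟨j + 1, h⟩ + ((if Even j then p ⟨j, _⟩ * x else p ⟨0, _⟩ * lin42 p x j) - p ⟨j + 1, h⟩) =
    if Even j then p ⟨j, _⟩ * lin42 p x 0 else p ⟨0, _⟩ * lin42 p x j
  rw [show lin42 p x 0 = x from rfl]
  ring

theorem inc_pt42 {F : Type} [Field F] {n : ℕ} (l : Fin n → F) (x : F) :
    Inc (fun i => pt42 l x i) l := by
  intro j h
  show pt42 l x (j + 1) + l ⟨j + 1, h⟩ = _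
  rw [pt42, dif_pos h]
  show ((if Even j then pt42 l x j * l ⟨0, _⟩ else x * l ⟨j, _⟩) - l ⟨j + 1, h⟩) + l ⟨j + 1, h⟩ =
    if Even j then pt42 l x j * l ⟨0, _⟩ else pt42 l x 0 * l ⟨j, _⟩
  rw [show pt42 l x 0 = x from rfl]
  ring

open Classical in
theorem card_lin42 {F : Type} [Field F] [Fintype F] {n : ℕ} (hn : 0 < n) (p : Fin n → F) :
    (Finset.univ.filter (fun l : Fin n → F => Inc p l)).card = Fintype.card F := by
  rw [← Finset.card_univ]
  refine Finset.card_bij' (fun l _ => l ⟨0, hn⟩) (fun x _ => fun i : Fin n => lin42 p x i) ?_ ?_ ?_ ?_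
  · intro l _; exact Finset.mem_univ _
  · intro x _
    rw [Finset.mem_filter]
    exact ⟨Finset.mem_univ _, inc_lin42 p x⟩
  · intro l hl
    rw [Finset.mem_filter] at hl
    exact inc_unique_l hn p _ _ (inc_lin42 p _) hl.2 rfl
  · intro x _; rfl

open Classical in
theorem card_pt42 {F : Type} [Field F] [Fintype F] {n : ℕ} (hn : 0 < n) (l : Fin n → F) :
    (Finset.univ.filter (fun p : Fin n → F => Inc p l)).card = Fintype.card F := by
  rw [← Finset.card_univ]
  refine Finset.card_bij' (fun p _ => p ⟨0, hn⟩) (fun x _ => fun i : Fin n => pt42 l x i) ?_ ?_ ?_ ?_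
  · intro l _; exact Finset.mem_univ _
  · intro x _
    rw [Finset.mem_filter]
    exact ⟨Finset.mem_univ _, inc_pt42 l x⟩
  · intro p hp
    rw [Finset.mem_filter] at hp
    exact inc_unique_p hn l _ _ (inc_pt42 l _) hp.2 rfl
  · intro x _; rfl

open Classical in
theorem adj_pl42 {F : Type} [Field F] {n : ℕ} (p l : Fin n → F) :
    adjA F n (Sum.inl p) (Sum.inr l) = if Inc p l then 1 else 0 := by
  rw [adjA, SimpleGraph.adjMatrix_apply]
  refine if_congr ?_ rfl rfl
  constructor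
  · rintro (⟨p', l', h1, h2, h⟩ | ⟨p', l', h1, h2, h⟩)
    · rw [Sum.inl.injEq] at h1
      rw [Sum.inr.injEq] at h2
      rw [h1, h2]; exact h
    · exact absurd h1 Sum.inl_ne_inr
  · intro h
    exact Or.inl ⟨p, l, rfl, rfl, h⟩

open Classical in
theorem adj_lp42 {F : Type} [Field F] {n : ℕ} (p l : Fin n → F) :
    adjA F n (Sum.inr l) (Sum.inl p) = if Inc p l then 1 else 0 := by
  rw [adjA, SimpleGraph.adjMatrix_apply]
  refine if_congr ?_ rfl rfl
  constructor
  · rintro (⟨p', l', h1, h2, h⟩ | ⟨p', l', h1, h2, h⟩)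
    · exact absurd h1 Sum.inr_ne_inl
    · rw [Sum.inr.injEq] at h1
      rw [Sum.inl.injEq] at h2
      rw [h1, h2]; exact h
  · intro h
    exact Or.inr ⟨p, l, rfl, rfl, h⟩

open Classical in
theorem adj_pp42 {F : Type} [Field F] {n : ℕ} (p p' : Fin n → F) :
    adjA F n (Sum.inl p) (Sum.inl p') = 0 := by
  rw [adjA, SimpleGraph.adjMatrix_apply, if_neg]
  rintro (⟨p', l', h1, h2, h⟩ | ⟨p', l', h1, h2, h⟩)
  · exact absurd h2 Sum.inl_ne_inr
  · exact absurd h1 Sum.inl_ne_inr

open Classical in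
theorem adj_ll42 {F : Type} [Field F] {n : ℕ} (l l' : Fin n → F) :
    adjA F n (Sum.inr l) (Sum.inr l') = 0 := by
  rw [adjA, SimpleGraph.adjMatrix_apply, if_neg]
  rintro (⟨p', l', h1, h2, h⟩ | ⟨p', l', h1, h2, h⟩)
  · exact absurd h1 Sum.inr_ne_inl
  · exact absurd h2 Sum.inr_ne_inl

open Classical in
theorem mul_p42 {F : Type} [Field F] [Fintype F] {n : ℕ}
    (x : (Fin n → F) ⊕ (Fin n → F) → ℝ) (p : Fin n → F) :
    (adjA F n *ᵥ x) (Sum.inl p) =
      ∑ l ∈ Finset.univ.filter (fun l : Fin n → F => Inc p l), x (Sum.inr l) := by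
  rw [Matrix.mulVec, dotProduct, Fintype.sum_sum_type]
  simp only [adj_pp42, adj_pl42, zero_mul, Finset.sum_const_zero, zero_add, ite_mul, one_mul]
  rw [Finset.sum_filter]

open Classical in
theorem mul_l42 {F : Type} [Field F] [Fintype F] {n : ℕ}
    (x : (Fin n → F) ⊕ (Fin n → F) → ℝ) (l : Fin n → F) :
    (adjA F n *ᵥ x) (Sum.inr l) =
      ∑ p ∈ Finset.univ.filter (fun p : Fin n → F => Inc p l), x (Sum.inl p) := by
  rw [Matrix.mulVec, dotProduct, Fintype.sum_sum_type]
  simp only [adj_ll42, adj_lp42, zero_mul, Finset.sum_const_zero, add_zero, ite_mul, one_mul]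
  rw [Finset.sum_filter]

/-- J2: each row of the adjacency matrix has sum `q` -/
theorem adjA_one {F : Type} [Field F] [Fintype F] [DecidableEq F] (n : ℕ) (hn : 0 < n) :
    adjA F n *ᵥ (fun _ => (1 : ℝ)) = (Fintype.card F : ℝ) • (fun _ => (1 : ℝ)) := by
  classical
  funext v
  rcases v with p | l
  · have h := mul_p42 (F := F) (fun _ => (1 : ℝ)) p
    rw [Finset.sum_const, card_lin42 hn p] at h
    convert h using 1
    simp
  · have h := mul_l42 (F := F) (fun _ => (1 : ℝ)) l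
    rw [Finset.sum_const, card_pt42 hn l] at h
    convert h using 1
    simp

/-- J4: the statement used in the end -/
theorem lam2_eigA {F : Type} [Field F] [Fintype F] (n : ℕ) :
    ∃ f g : (Fin (n + 1) → F) → ℂ, ¬ (f = 0 ∧ g = 0) ∧ EigA (lam2 F (n + 1)) f g ∧
      (∑ p, f p) + ∑ l, g l = 0 := by
  classical
  have hq := adjA_one (F := F) (n + 1) (Nat.succ_pos n)
  have hnn : ∀ i j, 0 ≤ adjA F (n + 1) i j := by
    intro i j
    rcases i with p | l <;> rcases j with p' | l'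
    · rw [adj_pp42]
    · rw [adj_pl42]; split_ifs <;> norm_num
    · rw [adj_lp42]; split_ifs <;> norm_num
    · rw [adj_ll42]
  have hmax : (adjA_herm F (n + 1)).eigenvalues₀ ⟨0, lt_trans Nat.zero_lt_one (one_lt_card F (n + 1))⟩ ≤
      (Fintype.card F : ℝ) := by
    set hA := adjA_herm F (n + 1)
    set k : Fin (Fintype.card ((Fin (n + 1) → F) ⊕ (Fin (n + 1) → F))) :=
      ⟨0, lt_trans Nat.zero_lt_one (one_lt_card F (n + 1))⟩
    set j := (Fintype.equivOfCardEq (Fintype.card_fin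
      (Fintype.card ((Fin (n + 1) → F) ⊕ (Fin (n + 1) → F))))) k with hj
    have h1 : hA.eigenvalues j = hA.eigenvalues₀ k := by
      rw [Matrix.IsHermitian.eigenvalues, hj, Equiv.symm_apply_apply]
    rw [← h1]
    refine eig_le (adjA F (n + 1)) hnn _ hq (⇑(hA.eigenvectorBasis j)) ?_ _
      (hA.mulVec_eigenvectorBasis j)
    intro h0
    have h2 := hA.eigenvectorBasis.orthonormal.ne_zero j
    apply h2
    ext i
    exact congrFun h0 i
  obtain ⟨x, hx0, hx, hort⟩ := second_eig (adjA F (n + 1)) (adjA_herm F (n + 1))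
    (one_lt_card F (n + 1)) (fun _ => 1)
    (by
      intro h
      have := congrFun h (Sum.inl 0)
      simp at this) (Fintype.card F : ℝ) hq hmax
  refine ⟨fun p => (x (Sum.inl p) : ℂ), fun l => (x (Sum.inr l) : ℂ), ?_, ⟨?_, ?_⟩, ?_⟩
  · rintro ⟨h1, h2⟩
    apply hx0
    funext v
    rcases v with p | l
    · have h3 : (x (Sum.inl p) : ℂ) = 0 := congrFun h1 p
      show x (Sum.inl p) = 0
      exact_mod_cast h3
    · have h3 : (x (Sum.inr l) : ℂ) = 0 := congrFun h2 l
      show x (Sum.inr l) = 0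
      exact_mod_cast h3
  · intro l
    have h1 := congrFun hx (Sum.inr l)
    rw [mul_l42] at h1
    rw [lam2]
    have h2 := congrArg (fun r : ℝ => (r : ℂ)) h1
    simp only [Pi.smul_apply, smul_eq_mul] at h2
    push_cast at h2
    exact h2
  · intro p
    have h1 := congrFun hx (Sum.inl p)
    rw [mul_p42] at h1
    rw [lam2]
    have h2 := congrArg (fun r : ℝ => (r : ℂ)) h1
    simp only [Pi.smul_apply, smul_eq_mul] at h2
    push_cast at h2
    exact h2
  · have h1 : ∑ v, x v = 0 := by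
      have := hort
      simpa [dotProduct] using this
    rw [Fintype.sum_sum_type] at h1
    have h2 := congrArg (fun r : ℝ => (r : ℂ)) h1
    push_cast at h2
    exact h2

end Anq13
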