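import Mathlib
import Pool.Agent.Anq13.Defs

/-!
# MP_d4d904_co : module H, the multiplicity of a new eigenvalue
-/

namespace Anq13

open Polynomial Matrix

/-- H1: joint eigenvector of a finite commutative group -/
theorem joint {A V : Type*} [CommGroup A] [Fintype A] [AddCommGroup V] [Module ℂ V]
    (T : A →* Module.End ℂ V) (v : V) (hv : v ≠ 0) :
    ∃ (χ : A →* ℂ) (c : A → ℂ), (∑ a, c a • T a v) ≠ 0 ∧
      ∀ b, T b (∑ a, c a • T a v) = χ b • (∑ a, c a • T a v) := by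
  classical
  have key : ∃ ψ : AddChar (Additive A) ℂ,
      (∑ a : A, ψ (Additive.ofMul a⁻¹) • T a v) ≠ 0 := by
    by_contra hcon
    push Not at hcon
    have h1 : ∑ ψ : AddChar (Additive A) ℂ, ∑ a : A, ψ (Additive.ofMul a⁻¹) • T a v = 0 :=
      Finset.sum_eq_zero (fun ψ _ => hcon ψ)
    rw [Finset.sum_comm] at h1
    have h2 : ∀ a : A, ∑ ψ : AddChar (Additive A) ℂ, ψ (Additive.ofMul a⁻¹) • T a v =
        if a = 1 then (Fintype.card (Additive A) : ℂ) • v else 0 := by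
      intro a
      rw [← Finset.sum_smul, AddChar.sum_apply_eq_ite]
      by_cases ha : a = 1
      · subst ha
        simp
      · have : (Additive.ofMul a⁻¹ : Additive A) ≠ 0 := by
          intro h
          apply ha
          have : a⁻¹ = 1 := h
          rwa [inv_eq_one] at this
        rw [if_neg this, if_neg ha, zero_smul]
    simp_rw [h2] at h1
    rw [Finset.sum_ite_eq' Finset.univ (1 : A)] at h1
    simp only [Finset.mem_univ, if_true] at h1
    rcases smul_eq_zero.mp h1 with h | h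
    · rw [Nat.cast_eq_zero] at h
      exact Fintype.card_ne_zero h
    · exact hv h
  obtain ⟨ψ, hψ⟩ := key
  refine ⟨⟨⟨fun a => ψ (Additive.ofMul a), by simp⟩, ?_⟩,
    fun a => ψ (Additive.ofMul a⁻¹), hψ, ?_⟩
  · intro a b
    show ψ (Additive.ofMul (a * b)) = ψ (Additive.ofMul a) * ψ (Additive.ofMul b)
    rw [ofMul_mul, AddChar.map_add_eq_mul]
  · intro b
    show T b (∑ a, ψ (Additive.ofMul a⁻¹) • T a v) =
      ψ (Additive.ofMul b) • ∑ a, ψ (Additive.ofMul a⁻¹) • T a v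
    rw [map_sum, Finset.smul_sum]
    refine Fintype.sum_equiv (Equiv.mulLeft b) _ _ ?_
    intro a
    rw [Equiv.coe_mulLeft, map_smul, smul_smul, map_mul]
    show ψ (Additive.ofMul a⁻¹) • (T b * T a) v = _
    congr 1
    rw [← AddChar.map_add_eq_mul, ← ofMul_mul, mul_inv, mul_inv_cancel_left]

section gen32

variable {G F : Type*} [Group G] [Fintype F]

/-- joint eigenfunction of a commutative subgroup acting by left translations -/
theorem joint32 {G : Type} [Group G] [Fintype G] (D : Subgroup G)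
    (hD : ∀ a ∈ D, ∀ b ∈ D, a * b = b * a) (Phi : G → ℂ) (hne : Phi ≠ 0) :
    ∃ (ι : Type) (_ : Fintype ι) (c : ι → ℂ) (k : ι → G) (χ : G → ℂ), (∀ i, k i ∈ D) ∧
      (fun g => ∑ i, c i * Phi ((k i)⁻¹ * g)) ≠ 0 ∧
      ∀ b ∈ D, ∀ g, (∑ i, c i * Phi ((k i)⁻¹ * (b⁻¹ * g))) =
        χ b * ∑ i, c i * Phi ((k i)⁻¹ * g) := by
  classical
  let _ : CommGroup D :=
    { (inferInstance : Group D) with
      mul_comm := fun a b => Subtype.ext (hD a.1 a.2 b.1 b.2) }
  have : Fintype D := Fintype.ofFinite D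
  let T : D →* Module.End ℂ (G → ℂ) :=
    { toFun := fun a =>
        { toFun := fun f g => f ((a : G)⁻¹ * g)
          map_add' := fun _ _ => rfl
          map_smul' := fun _ _ => rfl }
      map_one' := by
        ext f g
        simp
      map_mul' := fun a b => by
        apply LinearMap.ext
        intro f
        funext g
        show f (((a * b : D) : G)⁻¹ * g) = f ((b : G)⁻¹ * ((a : G)⁻¹ * g))
        rw [Subgroup.coe_mul, _root_.mul_inv_rev, mul_assoc] }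
  obtain ⟨χ, c, h1, h2⟩ := joint T Phi hne
  have hform : ∀ g, (∑ a, c a • T a Phi) g = ∑ a, c a * Phi ((a : G)⁻¹ * g) := by
    intro g
    rw [Finset.sum_apply]
    rfl
  refine ⟨D, inferInstance, c, fun a => (a : G), fun b => if hb : b ∈ D then χ ⟨b, hb⟩ else 0,
    fun a => a.2, ?_, ?_⟩
  · intro h
    apply h1
    funext g
    rw [hform]
    exact congrFun h g
  · intro b hb g
    have h3 := congrFun (h2 ⟨b, hb⟩) g
    have h4 : (T ⟨b, hb⟩ (∑ a, c a • T a Phi)) g = (∑ a, c a • T a Phi) (b⁻¹ * g) := rfl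
    rw [h4, hform, Pi.smul_apply, hform] at h3
    rw [h3]
    simp only [dif_pos hb, smul_eq_mul]

/-- linear combinations of translates of an eigenpair -/
theorem eigG_comb32 {E U : F → G} {lam : ℝ} {Phi Psi : G → ℂ} (h : EigG E U lam Phi Psi)
    {ι : Type} [Fintype ι] (c : ι → ℂ) (k : ι → G) :
    EigG E U lam (fun g => ∑ i, c i * Phi ((k i)⁻¹ * g))
      (fun g => ∑ i, c i * Psi ((k i)⁻¹ * g)) where
  invE g x := by
    refine Finset.sum_congr rfl fun i _ => ?_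
    rw [← mul_assoc, h.invE]
  invU g s := by
    refine Finset.sum_congr rfl fun i _ => ?_
    rw [← mul_assoc, h.invU]
  sumE g := by
    rw [Finset.sum_comm, Finset.mul_sum]
    refine Finset.sum_congr rfl fun i _ => ?_
    rw [← Finset.mul_sum]
    simp_rw [← mul_assoc, h.sumE]
    ring
  sumU g := by
    rw [Finset.sum_comm, Finset.mul_sum]
    refine Finset.sum_congr rfl fun i _ => ?_
    rw [← Finset.mul_sum]
    simp_rw [← mul_assoc, h.sumU]
    ring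

theorem eigG_tr32 {E U : F → G} {lam : ℝ} {Phi Psi : G → ℂ} (h : EigG E U lam Phi Psi) (k : G) :
    EigG E U lam (fun g => Phi (k⁻¹ * g)) (fun g => Psi (k⁻¹ * g)) where
  invE g x := by rw [← mul_assoc, h.invE]
  invU g s := by rw [← mul_assoc, h.invU]
  sumE g := by simp_rw [← mul_assoc, h.sumE]
  sumU g := by simp_rw [← mul_assoc, h.sumU]

/-- orthogonality of eigenvectors of a unitary translation -/
theorem orth32 [Fintype G] (φ : G → ℂ) (hφ : φ ≠ 0) (u k : G) (χ z : ℂ)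
    (h1 : ∀ g, φ (u⁻¹ * g) = χ * φ g)
    (h2 : ∀ g, φ ((k⁻¹ * u * k)⁻¹ * g) = χ * z * φ g) (hz : z ≠ 1) :
    ∑ g, (starRingEnd ℂ) (φ g) * φ (k⁻¹ * g) = 0 := by
  have hN : ∑ g, (starRingEnd ℂ) (φ g) * φ g ≠ 0 := by
    obtain ⟨g0, hg0⟩ := Function.ne_iff.mp hφ
    have : ∑ g, (starRingEnd ℂ) (φ g) * φ g = ((∑ g, ‖φ g‖ ^ 2 : ℝ) : ℂ) := by
      rw [Complex.ofReal_sum]
      refine Finset.sum_congr rfl fun g _ => ?_
      rw [← Complex.normSq_eq_conj_mul_self, Complex.normSq_eq_norm_sq]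
    rw [this, Complex.ofReal_ne_zero]
    have : 0 < ∑ g, ‖φ g‖ ^ 2 := by
      refine Finset.sum_pos' (fun g _ => by positivity) ⟨g0, Finset.mem_univ _, ?_⟩
      have : 0 < ‖φ g0‖ := norm_pos_iff.mpr hg0
      positivity
    exact this.ne'
  have hχ : (starRingEnd ℂ) χ * χ = 1 := by
    have : ∑ g, (starRingEnd ℂ) (φ g) * φ g = (starRingEnd ℂ) χ * χ *
        ∑ g, (starRingEnd ℂ) (φ g) * φ g := by
      rw [Finset.mul_sum]
      refine Fintype.sum_equiv (Equiv.mulLeft u) _ _ ?_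
      intro g
      rw [Equiv.coe_mulLeft]
      have h3 := h1 (u * g)
      rw [inv_mul_cancel_left] at h3
      rw [h3, map_mul]
      ring
    have h4 : (1 - (starRingEnd ℂ) χ * χ) * ∑ g, (starRingEnd ℂ) (φ g) * φ g = 0 := by
      linear_combination this
    rcases mul_eq_zero.mp h4 with h5 | h5
    · linear_combination -h5
    · exact absurd h5 hN
  have hS : ∑ g, (starRingEnd ℂ) (φ g) * φ (k⁻¹ * g) = (starRingEnd ℂ) χ * χ * z *
      ∑ g, (starRingEnd ℂ) (φ g) * φ (k⁻¹ * g) := by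
    rw [Finset.mul_sum]
    refine Fintype.sum_equiv (Equiv.mulLeft u) _ _ ?_
    intro g
    rw [Equiv.coe_mulLeft]
    have h3 := h1 (u * g)
    rw [inv_mul_cancel_left] at h3
    have h4 := h2 (k⁻¹ * (u * g))
    have h5 : (k⁻¹ * u * k)⁻¹ * (k⁻¹ * (u * g)) = k⁻¹ * g := by group
    rw [h5] at h4
    rw [h3, h4, map_mul]
    ring
  rw [hχ, one_mul] at hS
  have h6 : (1 - z) * ∑ g, (starRingEnd ℂ) (φ g) * φ (k⁻¹ * g) = 0 := by
    linear_combination hS
  rcases mul_eq_zero.mp h6 with h7 | h7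
  · exact absurd (by linear_combination -h7) hz
  · exact h7

end gen32

section conc32

variable {F : Type} [Field F] {m : ℕ}

theorem nl_mul32 (y z : Rg F m) : nl y * nl z = nl (y + z) := by
  apply Subtype.ext
  apply sl_ext
  · show ((nl y).1 * (nl z).1) 0 0 = _
    rw [mul_00]
    simp [nl]
  · show ((nl y).1 * (nl z).1) 0 1 = _
    rw [mul_01]
    simp [nl]
  · show ((nl y).1 * (nl z).1) 1 0 = _
    rw [mul_10]
    simp [nl]
  · show ((nl y).1 * (nl z).1) 1 1 = _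
    rw [mul_11]
    simp [nl]

theorem nl_zero32 : nl (0 : Rg F m) = 1 := by
  apply Subtype.ext
  apply sl_ext <;> simp [nl]

theorem nl_inv32 (y : Rg F m) : (nl y)⁻¹ = nl (-y) := by
  rw [inv_eq_iff_mul_eq_one, nl_mul32, add_neg_cancel, nl_zero32]

/-- the polynomial `y_0 + y_1 t + ... + y_(m-1) t^(m-1)` -/
noncomputable def yy32 (y : Fin m → F) : Rg F m := ∑ i : Fin m, cs (y i) * tt ^ (i : ℕ)

theorem cf_sum32 {ι : Type*} (s : Finset ι) (f : ι → Rg F m) (i : ℕ) :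
    cf i (∑ j ∈ s, f j) = ∑ j ∈ s, cf i (f j) := by
  classical
  induction s using Finset.induction_on with
  | empty => simp
  | insert a s ha ih => rw [Finset.sum_insert ha, Finset.sum_insert ha, cf_add, ih]

theorem cf_yy32 (y : Fin m → F) (i : ℕ) (hi : i ≤ m) :
    cf i (yy32 y) = if h : i < m then y ⟨i, h⟩ else 0 := by
  unfold yy32
  rw [cf_sum32]
  simp_rw [cf_cs_tpow i hi]
  split_ifs with h
  · rw [Finset.sum_eq_single (⟨i, h⟩ : Fin m)]
    · simp
    · intro j _ hj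
      rw [if_neg]
      intro h1
      apply hj
      apply Fin.ext
      exact h1.symm
    · simp
  · apply Finset.sum_eq_zero
    intro j _
    rw [if_neg]
    have := j.2
    omega

/-- multiplication of the top power -/
theorem mul_top32 (r : Rg F m) (a : F) : r * (cs a * tt ^ m) = cs (cf 0 r * a) * tt ^ m := by
  apply cf_ext
  intro i hi
  rw [cf_cs_tpow i hi, cf_mul i hi]
  split_ifs with h
  · subst h
    rw [Finset.sum_eq_single (0, i)]
    · show cf 0 r * cf i (cs a * tt ^ i) = cf 0 r * a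
      rw [cf_cs_tpow i le_rfl, if_pos rfl]
    · rintro ⟨p, q⟩ hpq hne
      rw [Finset.HasAntidiagonal.mem_antidiagonal] at hpq
      rw [cf_cs_tpow q (by simp at hpq; omega), if_neg, mul_zero]
      intro hq
      apply hne
      simp at hpq
      ext
      · simp; omega
      · simp [hq]
    · intro h
      exfalso
      apply h
      rw [Finset.HasAntidiagonal.mem_antidiagonal]
      simp
  · apply Finset.sum_eq_zero
    rintro ⟨p, q⟩ hpq
    rw [Finset.HasAntidiagonal.mem_antidiagonal] at hpq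
    simp at hpq
    rw [cf_cs_tpow q (by omega), if_neg (by omega), mul_zero]

/-- a nonzero difference of two `yy32` has a lowest coefficient below `m` -/
theorem val32 (y y' : Fin m → F) (h : y ≠ y') :
    ∃ v < m, ∃ w0 : F, w0 ≠ 0 ∧ ∃ s : Rg F m, yy32 y' - yy32 y = tt ^ v * s ∧ cf 0 s = w0 := by
  classical
  have hex : ∃ i, ∃ hi : i < m, y ⟨i, hi⟩ ≠ y' ⟨i, hi⟩ := by
    obtain ⟨i, hi⟩ := Function.ne_iff.mp h
    exact ⟨i, i.2, hi⟩
  obtain ⟨hv, hv2⟩ := Nat.find_spec hex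
  have hlt : ∀ i < Nat.find hex, i ≤ m → cf i (yy32 y' - yy32 y) = 0 := by
    intro i hi him
    have h1 := Nat.find_min hex hi
    push Not at h1
    rw [cf_sub, cf_yy32 _ _ him, cf_yy32 _ _ him, dif_pos (hi.trans hv), dif_pos (hi.trans hv),
      h1 (hi.trans hv), sub_self]
  obtain ⟨s, hs1, hs2⟩ := exists_tpow_mul _ _ hlt
  refine ⟨Nat.find hex, hv, cf 0 s, ?_, s, hs1, rfl⟩
  rw [hs2 0 (by omega), zero_add, cf_sub, cf_yy32 _ _ hv.le, cf_yy32 _ _ hv.le, dif_pos hv,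
    dif_pos hv]
  exact sub_ne_zero.mpr (Ne.symm hv2)

/-- a translate of a nonzero function is nonzero -/
theorem tr_ne32 {G : Type*} [Group G] (φ : G → ℂ) (hφ : φ ≠ 0) (k : G) :
    (fun g => φ (k⁻¹ * g)) ≠ 0 := by
  intro h
  apply hφ
  funext g
  have := congrFun h (k * g)
  simpa using this

/-- commuting translations -/
theorem comm32 {G : Type*} [Group G] {ι : Type*} [Fintype ι] (Phi : G → ℂ) (c : ι → ℂ)
    (k : ι → G) (z : G) (a : ℂ) (h : ∀ g, Phi (z⁻¹ * g) = a * Phi g)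
    (hk : ∀ i, k i * z = z * k i) (g : G) :
    ∑ i, c i * Phi ((k i)⁻¹ * (z⁻¹ * g)) = a * ∑ i, c i * Phi ((k i)⁻¹ * g) := by
  rw [Finset.mul_sum]
  refine Finset.sum_congr rfl fun i _ => ?_
  have h1 : (k i)⁻¹ * (z⁻¹ * g) = z⁻¹ * ((k i)⁻¹ * g) := by
    rw [← mul_assoc, ← mul_assoc, ← _root_.mul_inv_rev, ← _root_.mul_inv_rev, hk i]
  rw [h1, h]
  ring

/-- the final reindexing -/
theorem final32 [Fintype (Gs F m)] (φ : Gs F m → ℂ) (Y Y' : Rg F m)
    (h : ∑ g, (starRingEnd ℂ) (φ g) * φ ((nl (Y' - Y))⁻¹ * g) = 0) :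
    ∑ g, (starRingEnd ℂ) (φ ((nl Y)⁻¹ * g)) * φ ((nl Y')⁻¹ * g) = 0 := by
  rw [← h]
  symm
  refine Fintype.sum_equiv (Equiv.mulLeft (nl Y)) _ _ ?_
  intro g
  rw [Equiv.coe_mulLeft, inv_mul_cancel_left, ← mul_assoc]
  congr 3
  rw [nl_inv32, nl_inv32, nl_mul32]
  congr 1
  ring

/-- the upper unipotent matrices of `Gs` -/
def U32 (F : Type) [Field F] (m : ℕ) : Subgroup (Gs F m) where
  carrier := {g | g.1 0 0 = 1 ∧ g.1 1 0 = 0 ∧ g.1 1 1 = 1}
  mul_mem' := by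
    rintro a b ⟨h1, h2, h3⟩ ⟨k1, k2, k3⟩
    refine ⟨?_, ?_, ?_⟩
    · show (a.1 * b.1) 0 0 = 1
      rw [mul_00, h1, k1, k2]
      ring
    · show (a.1 * b.1) 1 0 = 0
      rw [mul_10, h2, k1, k2]
      ring
    · show (a.1 * b.1) 1 1 = 1
      rw [mul_11, h2, h3, k3]
      ring
  one_mem' := by
    refine ⟨?_, ?_, ?_⟩ <;> simp
  inv_mem' := by
    rintro a ⟨h1, h2, h3⟩
    refine ⟨?_, ?_, ?_⟩
    · show (a.1⁻¹) 0 0 = 1
      rw [inv_00, h3]
    · show (a.1⁻¹) 1 0 = 0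
      rw [inv_10, h2, neg_zero]
    · show (a.1⁻¹) 1 1 = 1
      rw [inv_11, h1]

/-- the diagonal matrices of `Gs` -/
def D32 (F : Type) [Field F] (m : ℕ) : Subgroup (Gs F m) where
  carrier := {g | g.1 0 1 = 0 ∧ g.1 1 0 = 0}
  mul_mem' := by
    rintro a b ⟨h1, h2⟩ ⟨k1, k2⟩
    refine ⟨?_, ?_⟩
    · show (a.1 * b.1) 0 1 = 0
      rw [mul_01, h1, k1]
      ring
    · show (a.1 * b.1) 1 0 = 0
      rw [mul_10, h2, k2]
      ring
  one_mem' := by
    refine ⟨?_, ?_⟩ <;> simp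
  inv_mem' := by
    rintro a ⟨h1, h2⟩
    refine ⟨?_, ?_⟩
    · show (a.1⁻¹) 0 1 = 0
      rw [inv_01, h1, neg_zero]
    · show (a.1⁻¹) 1 0 = 0
      rw [inv_10, h2, neg_zero]

theorem gs_ext32 (g k : Gs F m) (h00 : g.1 0 0 = k.1 0 0) (h01 : g.1 0 1 = k.1 0 1)
    (h10 : g.1 1 0 = k.1 1 0) (h11 : g.1 1 1 = k.1 1 1) : g = k :=
  Subtype.ext (sl_ext _ _ h00 h01 h10 h11)

theorem nl00 (y : Rg F m) : (nl y).1 0 0 = 1 := rfl
theorem nl01 (y : Rg F m) : (nl y).1 0 1 = 0 := rfl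
theorem nl10 (y : Rg F m) : (nl y).1 1 0 = y := rfl
theorem nl11 (y : Rg F m) : (nl y).1 1 1 = 1 := rfl

/-- the element `(1 c; 0 1)` -/
noncomputable def up32 (c : Rg F m) (hc : cf 0 c = 0) : Gs F m :=
  ⟨sl 1 c 0 1 (by ring), by
    rw [mem_Gs]
    refine ⟨?_, ?_, ?_⟩
    · rw [sl_00]; simp
    · rw [sl_01]; exact hc
    · rw [sl_11]; simp⟩

/-- the element `(a 0; 0 b)` -/
noncomputable def dg32 (a b : Rg F m) (h : a * b = 1) (ha : cf 0 a = 1) (hb : cf 0 b = 1) :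
    Gs F m :=
  ⟨sl a 0 0 b (by linear_combination h), by
    rw [mem_Gs]
    refine ⟨?_, ?_, ?_⟩
    · rw [sl_00]; exact ha
    · rw [sl_01]; simp
    · rw [sl_11]; exact hb⟩

theorem low32 (v : ℕ) (hv : v < m) (w s : Rg F m) (hw : w = tt ^ v * s) (c0 : F) :
    (cs c0 * tt ^ (m - v)) * w = cs (cf 0 s * c0) * tt ^ m := by
  rw [← mul_top32, hw]
  have : (tt : Rg F m) ^ m = tt ^ (m - v) * tt ^ v := by
    rw [← pow_add]
    congr 1
    omega
  rw [this]
  ring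

theorem cs_mul32 (a b : F) : (cs a * cs b : Rg F m) = cs (a * b) := by
  simp

theorem cs_neg32 (a : F) : (cs (-a) : Rg F m) = - cs a := by
  simp

theorem top_low32 (a b : F) (j : ℕ) (hj : 1 ≤ j) :
    (cs a * tt ^ m : Rg F m) * (cs b * tt ^ j) = 0 := by
  rw [mul_mul_mul_comm, ← pow_add, tt_pow_eq_zero _ (by omega), mul_zero]

/-- H2: the orthogonal family, `n = 2m` -/
theorem mult_even [Fintype F] (m : ℕ) (hm : 1 ≤ m) [Fintype (Gs F m)]
    (lam : ℝ) (Phi Psi : Gs F m → ℂ) (h : EigG (eG m) (uG m) lam Phi Psi) (hne : Phi ≠ 0)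
    (θ : AddChar F ℂ) (hθ : θ ≠ 1)
    (hz : ∀ c g, Phi ((zl hm c)⁻¹ * g) = θ c * Phi g)
    (hn : ∀ c g, Phi ((nl (cs c * tt ^ m))⁻¹ * g) = Phi g) :
    ∃ φ ψ : (Fin m → F) → Gs F m → ℂ, (∀ y, EigG (eG m) (uG m) lam (φ y) (ψ y)) ∧
      (∀ y, φ y ≠ 0) ∧
      ∀ y y', y ≠ y' → ∑ g, (starRingEnd ℂ) (φ y g) * φ y' g = 0 := by
  classical
  obtain ⟨ι, _, c, k, χ, hk, hne2, hχ⟩ := joint32 (U32 F m) (by
    rintro a ⟨h1, h2, h3⟩ b ⟨k1, k2, k3⟩
    apply gs_ext32
    · show (a.1 * b.1) 0 0 = (b.1 * a.1) 0 0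
      rw [mul_00, mul_00, h1, h2, k1, k2]
      ring
    · show (a.1 * b.1) 0 1 = (b.1 * a.1) 0 1
      rw [mul_01, mul_01, h1, h3, k1, k3]
      ring
    · show (a.1 * b.1) 1 0 = (b.1 * a.1) 1 0
      rw [mul_10, mul_10, h1, h2, h3, k1, k2, k3]
    · show (a.1 * b.1) 1 1 = (b.1 * a.1) 1 1
      rw [mul_11, mul_11, h2, h3, k2, k3]
      ring) Phi hne
  have hE := eigG_comb32 h c k
  set φ : Gs F m → ℂ := fun g => ∑ i, c i * Phi ((k i)⁻¹ * g) with hφ
  set ψ : Gs F m → ℂ := fun g => ∑ i, c i * Psi ((k i)⁻¹ * g) with hψ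
  have hz2 : ∀ a g, φ ((zl hm a)⁻¹ * g) = θ a * φ g := by
    intro a g
    refine comm32 Phi c k (zl hm a) (θ a) (hz a) ?_ g
    intro i
    obtain ⟨h1, h2, h3⟩ := hk i
    have h4 : cf 0 ((k i).1 0 1) = 0 := (k i).2.2.1
    have h5 := mul_top32 ((k i).1 0 1) a
    rw [h4, zero_mul] at h5
    have h6 : (k i).1 0 1 * (cs a * tt ^ m) = 0 := by
      rw [h5]
      simp
    apply gs_ext32
    · show ((k i).1 * (zl hm a).1) 0 0 = ((zl hm a).1 * (k i).1) 0 0
      rw [mul_00, mul_00, h1, h2]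
      simp [zl]
    · show ((k i).1 * (zl hm a).1) 0 1 = ((zl hm a).1 * (k i).1) 0 1
      rw [mul_01, mul_01, h1, h3]
      show 1 * 0 + (k i).1 0 1 * (1 - cs a * tt ^ m) =
        (1 + cs a * tt ^ m) * (k i).1 0 1 + 0 * 1
      linear_combination (-2 : Rg F m) * h6
    · show ((k i).1 * (zl hm a).1) 1 0 = ((zl hm a).1 * (k i).1) 1 0
      rw [mul_10, mul_10, h1, h2, h3]
      simp [zl]
    · show ((k i).1 * (zl hm a).1) 1 1 = ((zl hm a).1 * (k i).1) 1 1
      rw [mul_11, mul_11, h2, h3]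
      simp [zl]
  have hn2 : ∀ a g, φ ((nl (cs a * tt ^ m))⁻¹ * g) = φ g := by
    intro a g
    have := comm32 Phi c k (nl (cs a * tt ^ m)) 1 (fun g => by rw [hn, one_mul]) (by
      intro i
      obtain ⟨h1, h2, h3⟩ := hk i
      have h4 : cf 0 ((k i).1 0 1) = 0 := (k i).2.2.1
      have h5 := mul_top32 ((k i).1 0 1) a
      rw [h4, zero_mul] at h5
      have h6 : (k i).1 0 1 * (cs a * tt ^ m) = 0 := by
        rw [h5]
        simp
      apply gs_ext32
      · show ((k i).1 * (nl (cs a * tt ^ m : Rg F m)).1) 0 0 =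
          ((nl (cs a * tt ^ m : Rg F m)).1 * (k i).1) 0 0
        rw [mul_00, mul_00, h1, h2, nl00, nl10, nl01]
        linear_combination h6
      · show ((k i).1 * (nl (cs a * tt ^ m : Rg F m)).1) 0 1 =
          ((nl (cs a * tt ^ m : Rg F m)).1 * (k i).1) 0 1
        rw [mul_01, mul_01, h1, h3, nl00, nl11, nl01]
        ring
      · show ((k i).1 * (nl (cs a * tt ^ m : Rg F m)).1) 1 0 =
          ((nl (cs a * tt ^ m : Rg F m)).1 * (k i).1) 1 0
        rw [mul_10, mul_10, h1, h2, h3, nl00, nl11, nl10]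
        ring
      · show ((k i).1 * (nl (cs a * tt ^ m : Rg F m)).1) 1 1 =
          ((nl (cs a * tt ^ m : Rg F m)).1 * (k i).1) 1 1
        rw [mul_11, mul_11, h2, h3, nl01, nl11, nl10]
        linear_combination -h6) g
    rw [one_mul] at this
    exact this
  refine ⟨fun y g => φ ((nl (yy32 y))⁻¹ * g), fun y g => ψ ((nl (yy32 y))⁻¹ * g),
    fun y => eigG_tr32 hE _, fun y => tr_ne32 φ hne2 _, ?_⟩
  intro y y' hyy
  apply final32
  obtain ⟨v, hv, w0, hw0, s, hs, hs0⟩ := val32 y y' hyy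
  obtain ⟨d, hd⟩ : ∃ d, θ d ≠ 1 := by
    by_contra hcon
    push Not at hcon
    apply hθ
    ext d
    rw [hcon d]
    rfl
  set w := yy32 y' - yy32 y with hw
  have hc0 : cf 0 (cs (d / w0) * tt ^ (m - v) : Rg F m) = 0 := by
    rw [cf_cs_tpow 0 (Nat.zero_le _), if_neg (by omega)]
  have hcw := low32 v hv w s hs (d / w0)
  rw [hs0, mul_div_cancel₀ _ hw0] at hcw
  have hww := mul_top32 w d
  have hec := top_low32 (m := m) d (d / w0) (m - v) (by omega)
  have hKc := top_low32 (m := m) (-(cf 0 w * d)) (d / w0) (m - v) (by omega)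
  have hKe := top_low32 (m := m) (-(cf 0 w * d)) d m hm
  have hconj : (nl w)⁻¹ * up32 (cs (d / w0) * tt ^ (m - v)) hc0 * nl w =
      nl (cs (-(cf 0 w * d)) * tt ^ m) * zl hm d * up32 (cs (d / w0) * tt ^ (m - v)) hc0 := by
    rw [nl_inv32]
    set cc : Rg F m := cs (d / w0) * tt ^ (m - v) with hcc
    set ee : Rg F m := cs d * tt ^ m with hee
    have hK : (cs (-(cf 0 w * d)) * tt ^ m : Rg F m) = -(w * ee) := by
      rw [hww, cs_neg32]
      ring
    rw [hK] at hKc hKe ⊢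
    apply gs_ext32
    · show ((nl (-w)).1 * (up32 cc hc0).1 * (nl w).1) 0 0 =
        ((nl (-(w * ee))).1 * (zl hm d).1 * (up32 cc hc0).1) 0 0
      simp only [mul_00, mul_01, nl00, nl01, nl10]
      show (1 * 1 + 0 * 0) * 1 + (1 * cc + 0 * 1) * w =
        (1 * (1 + ee) + 0 * 0) * 1 + (1 * 0 + 0 * (1 - ee)) * 0
      linear_combination hcw
    · show ((nl (-w)).1 * (up32 cc hc0).1 * (nl w).1) 0 1 =
        ((nl (-(w * ee))).1 * (zl hm d).1 * (up32 cc hc0).1) 0 1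
      simp only [mul_00, mul_01, nl00, nl01, nl11]
      show (1 * 1 + 0 * 0) * 0 + (1 * cc + 0 * 1) * 1 =
        (1 * (1 + ee) + 0 * 0) * cc + (1 * 0 + 0 * (1 - ee)) * 1
      linear_combination -hec
    · show ((nl (-w)).1 * (up32 cc hc0).1 * (nl w).1) 1 0 =
        ((nl (-(w * ee))).1 * (zl hm d).1 * (up32 cc hc0).1) 1 0
      simp only [mul_10, mul_11, nl00, nl10, nl11]
      show (-w * 1 + 1 * 0) * 1 + (-w * cc + 1 * 1) * w =
        (-(w * ee) * (1 + ee) + 1 * 0) * 1 + (-(w * ee) * 0 + 1 * (1 - ee)) * 0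
      linear_combination -w * hcw - hKe
    · show ((nl (-w)).1 * (up32 cc hc0).1 * (nl w).1) 1 1 =
        ((nl (-(w * ee))).1 * (zl hm d).1 * (up32 cc hc0).1) 1 1
      simp only [mul_10, mul_11, nl01, nl10, nl11]
      show (-w * 1 + 1 * 0) * 0 + (-w * cc + 1 * 1) * 1 =
        (-(w * ee) * (1 + ee) + 1 * 0) * cc + (-(w * ee) * 0 + 1 * (1 - ee)) * 1
      linear_combination -hcw - (1 + ee) * hKc
  have hmem : up32 (cs (d / w0) * tt ^ (m - v)) hc0 ∈ U32 F m := by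
    refine ⟨rfl, rfl, rfl⟩
  refine orth32 φ hne2 (up32 (cs (d / w0) * tt ^ (m - v)) hc0) (nl w)
    (χ (up32 (cs (d / w0) * tt ^ (m - v)) hc0)) (θ d) (fun g => hχ _ hmem g) ?_ hd
  intro g
  rw [hconj, _root_.mul_inv_rev, _root_.mul_inv_rev, mul_assoc, mul_assoc]
  have := hχ _ hmem ((zl hm d)⁻¹ * ((nl (cs (-(cf 0 w * d)) * tt ^ m))⁻¹ * g))
  show φ _ = _
  rw [show φ ((up32 (cs (d / w0) * tt ^ (m - v)) hc0)⁻¹ *
    ((zl hm d)⁻¹ * ((nl (cs (-(cf 0 w * d)) * tt ^ m))⁻¹ * g))) = _ from this]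
  show _ * φ _ = _
  rw [hz2, hn2]
  ring

/-- H3: the orthogonal family, `n = 2m+1` -/
theorem mult_odd [Fintype F] (h2 : (2 : F) ≠ 0) (m : ℕ) (hm : 1 ≤ m)
    [Fintype (Gs F m)]
    (lam : ℝ) (Phi Psi : Gs F m → ℂ) (h : EigG (eG m) (uG m) lam Phi Psi) (hne : Phi ≠ 0)
    (θ : AddChar F ℂ) (hθ : θ ≠ 1)
    (hn : ∀ c g, Phi ((nl (cs c * tt ^ m))⁻¹ * g) = θ c * Phi g) :
    ∃ φ ψ : (Fin m → F) → Gs F m → ℂ, (∀ y, EigG (eG m) (uG m) lam (φ y) (ψ y)) ∧
      (∀ y, φ y ≠ 0) ∧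
      ∀ y y', y ≠ y' → ∑ g, (starRingEnd ℂ) (φ y g) * φ y' g = 0 := by
  classical
  obtain ⟨ι, _, c, k, χ, hk, hne2, hχ⟩ := joint32 (D32 F m) (by
    rintro a ⟨h1, h2⟩ b ⟨k1, k2⟩
    apply gs_ext32
    · show (a.1 * b.1) 0 0 = (b.1 * a.1) 0 0
      rw [mul_00, mul_00, h1, h2, k1, k2]
      ring
    · show (a.1 * b.1) 0 1 = (b.1 * a.1) 0 1
      rw [mul_01, mul_01, h1, k1]
      ring
    · show (a.1 * b.1) 1 0 = (b.1 * a.1) 1 0
      rw [mul_10, mul_10, h2, k2]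
      ring
    · show (a.1 * b.1) 1 1 = (b.1 * a.1) 1 1
      rw [mul_11, mul_11, h1, h2, k1, k2]
      ring) Phi hne
  have hE := eigG_comb32 h c k
  set φ : Gs F m → ℂ := fun g => ∑ i, c i * Phi ((k i)⁻¹ * g) with hφ
  set ψ : Gs F m → ℂ := fun g => ∑ i, c i * Psi ((k i)⁻¹ * g) with hψ
  have hn2 : ∀ a g, φ ((nl (cs a * tt ^ m))⁻¹ * g) = θ a * φ g := by
    intro a g
    refine comm32 Phi c k (nl (cs a * tt ^ m)) (θ a) (hn a) ?_ g
    intro i
    obtain ⟨h1, h2⟩ := hk i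
    have h4 : cf 0 ((k i).1 0 0) = 1 := (k i).2.1
    have h4' : cf 0 ((k i).1 1 1) = 1 := (k i).2.2.2
    have h5 := mul_top32 ((k i).1 0 0) a
    rw [h4, one_mul] at h5
    have h6 := mul_top32 ((k i).1 1 1) a
    rw [h4', one_mul] at h6
    apply gs_ext32
    · show ((k i).1 * (nl (cs a * tt ^ m : Rg F m)).1) 0 0 =
          ((nl (cs a * tt ^ m : Rg F m)).1 * (k i).1) 0 0
      rw [mul_00, mul_00, h1, nl00, nl10, nl01]
      ring
    · show ((k i).1 * (nl (cs a * tt ^ m : Rg F m)).1) 0 1 =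
          ((nl (cs a * tt ^ m : Rg F m)).1 * (k i).1) 0 1
      rw [mul_01, mul_01, h1, nl00, nl11, nl01]
      ring
    · show ((k i).1 * (nl (cs a * tt ^ m : Rg F m)).1) 1 0 =
          ((nl (cs a * tt ^ m : Rg F m)).1 * (k i).1) 1 0
      rw [mul_10, mul_10, h2, nl00, nl11, nl10]
      linear_combination h6 - h5
    · show ((k i).1 * (nl (cs a * tt ^ m : Rg F m)).1) 1 1 =
          ((nl (cs a * tt ^ m : Rg F m)).1 * (k i).1) 1 1
      rw [mul_11, mul_11, h1, h2, nl01, nl11, nl10]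
      ring
  refine ⟨fun y g => φ ((nl (yy32 y))⁻¹ * g), fun y g => ψ ((nl (yy32 y))⁻¹ * g),
    fun y => eigG_tr32 hE _, fun y => tr_ne32 φ hne2 _, ?_⟩
  intro y y' hyy
  apply final32
  obtain ⟨v, hv, w0, hw0, s, hs, hs0⟩ := val32 y y' hyy
  obtain ⟨d, hd⟩ : ∃ d, θ d ≠ 1 := by
    by_contra hcon
    push Not at hcon
    apply hθ
    ext d
    rw [hcon d]
    rfl
  set w := yy32 y' - yy32 y with hw
  set a0 : F := -(d / (2 * w0)) with ha0
  have ha0' : w0 * (-2 * a0) = d := by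
    rw [ha0]
    field_simp
  have ha : cf 0 (1 + cs a0 * tt ^ (m - v) : Rg F m) = 1 := by
    rw [cf_add, cf0_one, cf_cs_tpow 0 (Nat.zero_le _), if_neg (by omega), add_zero]
  obtain ⟨b, hab, hb⟩ := exists_inv (1 + cs a0 * tt ^ (m - v) : Rg F m) ha
  set a : Rg F m := 1 + cs a0 * tt ^ (m - v) with haa
  have hcw := low32 v hv w s hs a0
  rw [hs0] at hcw
  have hec := top_low32 (m := m) (w0 * a0) a0 (m - v) (by omega)
  have hba := mul_top32 b (w0 * a0)
  rw [hb, one_mul] at hba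
  have haa2 := mul_top32 a d
  rw [ha, one_mul] at haa2
  have hd2 : (cs d * tt ^ m : Rg F m) = -2 * (cs (w0 * a0) * tt ^ m) := by
    have hd3 : d = -(w0 * a0) - (w0 * a0) := by
      linear_combination -ha0'
    rw [hd3]
    simp
    ring
  have hkey : (b - a) * w = cs d * tt ^ m := by
    have h7 : a * a * w = w + 2 * (cs (w0 * a0) * tt ^ m) := by
      rw [haa]
      linear_combination (2 + cs a0 * tt ^ (m - v)) * hcw + hec
    have h8 : b * w = a * w + -2 * (cs (w0 * a0) * tt ^ m) := by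
      linear_combination (-b) * h7 + (a * w) * hab - 2 * hba
    rw [hd2]
    linear_combination h8
  have hconj : (nl w)⁻¹ * dg32 a b hab ha hb * nl w =
      nl (cs d * tt ^ m) * dg32 a b hab ha hb := by
    rw [nl_inv32]
    apply gs_ext32
    · show ((nl (-w)).1 * (dg32 a b hab ha hb).1 * (nl w).1) 0 0 =
        ((nl (cs d * tt ^ m : Rg F m)).1 * (dg32 a b hab ha hb).1) 0 0
      simp only [mul_00, mul_01, nl00, nl01, nl10]
      show (1 * a + 0 * 0) * 1 + (1 * 0 + 0 * b) * w = 1 * a + 0 * 0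
      ring
    · show ((nl (-w)).1 * (dg32 a b hab ha hb).1 * (nl w).1) 0 1 =
        ((nl (cs d * tt ^ m : Rg F m)).1 * (dg32 a b hab ha hb).1) 0 1
      simp only [mul_00, mul_01, nl00, nl01, nl11]
      show (1 * a + 0 * 0) * 0 + (1 * 0 + 0 * b) * 1 = 1 * 0 + 0 * b
      ring
    · show ((nl (-w)).1 * (dg32 a b hab ha hb).1 * (nl w).1) 1 0 =
        ((nl (cs d * tt ^ m : Rg F m)).1 * (dg32 a b hab ha hb).1) 1 0
      simp only [mul_10, mul_11, nl00, nl10, nl11]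
      show (-w * a + 1 * 0) * 1 + (-w * 0 + 1 * b) * w = (cs d * tt ^ m) * a + 1 * 0
      linear_combination hkey - haa2
    · show ((nl (-w)).1 * (dg32 a b hab ha hb).1 * (nl w).1) 1 1 =
        ((nl (cs d * tt ^ m : Rg F m)).1 * (dg32 a b hab ha hb).1) 1 1
      simp only [mul_10, mul_11, nl01, nl10, nl11]
      show (-w * a + 1 * 0) * 0 + (-w * 0 + 1 * b) * 1 = (cs d * tt ^ m) * 0 + 1 * b
      ring
  have hmem : dg32 a b hab ha hb ∈ D32 F m := ⟨rfl, rfl⟩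
  refine orth32 φ hne2 (dg32 a b hab ha hb) (nl w)
    (χ (dg32 a b hab ha hb)) (θ d) (fun g => hχ _ hmem g) ?_ hd
  intro g
  rw [hconj, _root_.mul_inv_rev, mul_assoc]
  have := hχ _ hmem ((nl (cs d * tt ^ m))⁻¹ * g)
  show φ _ = _
  rw [show φ ((dg32 a b hab ha hb)⁻¹ * ((nl (cs d * tt ^ m))⁻¹ * g)) = _ from this]
  show _ * φ _ = _
  rw [hn2]
  ring

end conc32

end Anq13
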