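import Mathlib
import Pool.Agent.Anq13.Defs
import Pool.Agent.Anq13.Mult

/-!
# MP_d4d904_co : module H4, the multiplicity in characteristic two, `n = 2m+1`
-/

namespace Anq13

open Polynomial Matrix

noncomputable section

variable {F : Type} [Field F] {m : ℕ}

/-- the matrices `(a, ct^m; 0, b)` of `Gs` -/
def B13 (F : Type) [Field F] (m : ℕ) : Subgroup (Gs F m) where
  carrier := {g | (∀ i < m, cf i (g.1 0 1) = 0) ∧ g.1 1 0 = 0}
  mul_mem' := by
    rintro a b ⟨h1, h2⟩ ⟨k1, k2⟩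
    refine ⟨?_, ?_⟩
    · intro i hi
      show cf i ((a.1 * b.1) 0 1) = 0
      rw [mul_01, cf_add, cf_mul i hi.le, cf_mul i hi.le, Finset.sum_eq_zero, Finset.sum_eq_zero,
        add_zero]
      · rintro ⟨p, q⟩ hpq
        rw [Finset.HasAntidiagonal.mem_antidiagonal] at hpq
        simp only at hpq ⊢
        rw [h1 p (by omega), zero_mul]
      · rintro ⟨p, q⟩ hpq
        rw [Finset.HasAntidiagonal.mem_antidiagonal] at hpq
        simp only at hpq ⊢
        rw [k1 q (by omega), mul_zero]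
    · show (a.1 * b.1) 1 0 = 0
      rw [mul_10, h2, k2]
      ring
  one_mem' := by
    refine ⟨?_, ?_⟩ <;> simp
  inv_mem' := by
    rintro a ⟨h1, h2⟩
    refine ⟨?_, ?_⟩
    · intro i hi
      show cf i ((a.1⁻¹) 0 1) = 0
      rw [inv_01, cf_neg, h1 i hi, neg_zero]
    · show (a.1⁻¹) 1 0 = 0
      rw [inv_10, h2, neg_zero]

theorem top13 (r : Rg F m) (h : ∀ i < m, cf i r = 0) : r = cs (cf m r) * tt ^ m := by
  apply cf_ext
  intro i hi
  rw [cf_cs_tpow i hi]
  split_ifs with h1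
  · rw [h1]
  · exact h i (by omega)

theorem B13_comm (a : Gs F m) (ha : a ∈ B13 F m) (b : Gs F m) (hb : b ∈ B13 F m) :
    a * b = b * a := by
  obtain ⟨h1, h2⟩ := ha
  obtain ⟨k1, k2⟩ := hb
  have e1 := top13 _ h1
  have e2 := top13 _ k1
  have a0 : cf 0 (a.1 0 0) = 1 := a.2.1
  have a1 : cf 0 (a.1 1 1) = 1 := a.2.2.2
  have b0 : cf 0 (b.1 0 0) = 1 := b.2.1
  have b1 : cf 0 (b.1 1 1) = 1 := b.2.2.2
  have m1 := mul_top32 (a.1 0 0) (cf m (b.1 0 1))
  have m2 := mul_top32 (a.1 1 1) (cf m (b.1 0 1))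
  have m3 := mul_top32 (b.1 0 0) (cf m (a.1 0 1))
  have m4 := mul_top32 (b.1 1 1) (cf m (a.1 0 1))
  rw [a0, one_mul, ← e2] at m1
  rw [a1, one_mul, ← e2] at m2
  rw [b0, one_mul, ← e1] at m3
  rw [b1, one_mul, ← e1] at m4
  apply gs_ext32
  · show (a.1 * b.1) 0 0 = (b.1 * a.1) 0 0
    rw [mul_00, mul_00, h2, k2]
    ring
  · show (a.1 * b.1) 0 1 = (b.1 * a.1) 0 1
    rw [mul_01, mul_01]
    linear_combination m1 + m4 - m3 - m2
  · show (a.1 * b.1) 1 0 = (b.1 * a.1) 1 0
    rw [mul_10, mul_10, h2, k2]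
    ring
  · show (a.1 * b.1) 1 1 = (b.1 * a.1) 1 1
    rw [mul_11, mul_11, h2, k2]
    ring

theorem B13_nl (hm : 1 ≤ m) (a : Gs F m) (ha : a ∈ B13 F m) (c : F) :
    a * nl (cs c * tt ^ m) = nl (cs c * tt ^ m) * a := by
  obtain ⟨h1, h2⟩ := ha
  have e1 := top13 _ h1
  have a0 : cf 0 (a.1 0 0) = 1 := a.2.1
  have a1 : cf 0 (a.1 1 1) = 1 := a.2.2.2
  have m1 := mul_top32 (a.1 0 0) c
  have m2 := mul_top32 (a.1 1 1) c
  rw [a0, one_mul] at m1
  rw [a1, one_mul] at m2
  have m3 : a.1 0 1 * (cs c * tt ^ m) = 0 := by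
    rw [e1]
    exact top_low32 _ _ _ hm
  apply gs_ext32
  · show (a.1 * (nl (cs c * tt ^ m : Rg F m)).1) 0 0 =
      ((nl (cs c * tt ^ m : Rg F m)).1 * a.1) 0 0
    rw [mul_00, mul_00, nl00, nl10, nl01]
    linear_combination m3
  · show (a.1 * (nl (cs c * tt ^ m : Rg F m)).1) 0 1 =
      ((nl (cs c * tt ^ m : Rg F m)).1 * a.1) 0 1
    rw [mul_01, mul_01, nl00, nl11, nl01]
    ring
  · show (a.1 * (nl (cs c * tt ^ m : Rg F m)).1) 1 0 =
      ((nl (cs c * tt ^ m : Rg F m)).1 * a.1) 1 0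
    rw [mul_10, mul_10, nl00, nl11, nl10, h2]
    linear_combination m2 - m1
  · show (a.1 * (nl (cs c * tt ^ m : Rg F m)).1) 1 1 =
      ((nl (cs c * tt ^ m : Rg F m)).1 * a.1) 1 1
    rw [mul_11, mul_11, nl01, nl11, nl10]
    linear_combination -m3

/-- first orthogonality, by the torus -/
theorem opt1_13 [Fintype F] (h2 : (2 : F) = 0) [Fintype (Gs F m)] (φ : Gs F m → ℂ)
    (hne : φ ≠ 0) (χ : Gs F m → ℂ)
    (hχ : ∀ b ∈ B13 F m, ∀ g, φ (b⁻¹ * g) = χ b * φ g) (θ : AddChar F ℂ) (hθ : θ ≠ 1)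
    (hn : ∀ a g, φ ((nl (cs a * tt ^ m))⁻¹ * g) = θ a * φ g)
    (v j : ℕ) (hj : 1 ≤ j) (hvj : v + 2 * j = m) (w s : Rg F m) (hs : w = tt ^ v * s)
    (hs0 : cf 0 s ≠ 0) :
    ∑ g, (starRingEnd ℂ) (φ g) * φ ((nl w)⁻¹ * g) = 0 := by
  obtain ⟨d, hd⟩ : ∃ d, θ d ≠ 1 := by
    by_contra hcon
    push Not at hcon
    apply hθ
    ext d
    rw [hcon d]
    rfl
  have hchar : ringChar F = 2 := by
    have h1 : ringChar F ∣ 2 := (ringChar.spec F 2).mp (by exact_mod_cast h2)
    rcases (Nat.dvd_prime Nat.prime_two).mp h1 with h3 | h3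
    · exfalso
      have h4 := (ringChar.spec F 1).mpr (by rw [h3])
      simp at h4
    · exact h3
  obtain ⟨a0, ha0⟩ : ∃ a0 : F, d / cf 0 s = a0 * a0 := by
    have := FiniteField.isSquare_of_char_two hchar (d / cf 0 s)
    exact this
  have had : a0 * a0 * cf 0 s = d := by
    rw [← ha0]
    field_simp
  have h2R : (2 : Rg F m) = 0 := by
    have h3 := congrArg (AdjoinRoot.of (X ^ (m + 1) : F[X])) h2
    rwa [map_ofNat, map_zero] at h3
  have ha : cf 0 (1 + cs a0 * tt ^ j : Rg F m) = 1 := by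
    rw [cf_add, cf0_one, cf_cs_tpow 0 (Nat.zero_le _), if_neg (by omega), add_zero]
  obtain ⟨b, hab, hb⟩ := exists_inv (1 + cs a0 * tt ^ j : Rg F m) ha
  set a : Rg F m := 1 + cs a0 * tt ^ j with haa
  have h7 : (1 - a * a) * w = cs d * tt ^ m := by
    have h8 := mul_top32 s (a0 * a0)
    rw [mul_comm (cf 0 s), had] at h8
    rw [← h8, haa, hs]
    have h9 : (tt : Rg F m) ^ m = tt ^ v * tt ^ j * tt ^ j := by
      rw [← pow_add, ← pow_add]
      congr 1
      omega
    rw [h9, ← cs_mul32]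
    linear_combination (-(cs a0 * tt ^ j) * tt ^ v * s - (cs a0 * tt ^ j) *
      (cs a0 * tt ^ j) * tt ^ v * s) * h2R
  have hbd := mul_top32 b d
  rw [hb, one_mul] at hbd
  have had2 := mul_top32 a d
  rw [ha, one_mul] at had2
  have hkey : (b - a) * w = cs d * tt ^ m := by
    linear_combination b * h7 + a * w * hab + hbd
  have hconj : (nl w)⁻¹ * dg32 a b hab ha hb * nl w =
      nl (cs d * tt ^ m) * dg32 a b hab ha hb := by
    rw [nl_inv32]
    apply gs_ext32
    · show ((nl (-w)).1 * (dg32 a b hab ha hb).1 * (nl w).1) 0 0 =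
        ((nl (cs d * tt ^ m : Rg F m)).1 * (dg32 a b hab ha hb).1) 0 0
      simp only [mul_00, mul_01, nl00, nl01, nl10]
      show (1 * a + 0 * 0) * 1 + (1 * 0 + 0 * b) * w = 1 * a + 0 * 0
      ring
    · show ((nl (-w)).1 * (dg32 a b hab ha hb).1 * (nl w).1) 0 1 =
        ((nl (cs d * tt ^ m : Rg F m)).1 * (dg32 a b hab ha hb).1) 0 1
      simp only [mul_00, mul_01, nl00, nl01, nl11]
      show (1 * a + 0 * 0) * 0 + (1 * 0 + 0 * b) * 1 = 1 * 0 + 0 * b
      ring
    · show ((nl (-w)).1 * (dg32 a b hab ha hb).1 * (nl w).1) 1 0 =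
        ((nl (cs d * tt ^ m : Rg F m)).1 * (dg32 a b hab ha hb).1) 1 0
      simp only [mul_10, mul_11, nl00, nl10, nl11]
      show (-w * a + 1 * 0) * 1 + (-w * 0 + 1 * b) * w = (cs d * tt ^ m) * a + 1 * 0
      linear_combination hkey - had2
    · show ((nl (-w)).1 * (dg32 a b hab ha hb).1 * (nl w).1) 1 1 =
        ((nl (cs d * tt ^ m : Rg F m)).1 * (dg32 a b hab ha hb).1) 1 1
      simp only [mul_10, mul_11, nl01, nl10, nl11]
      show (-w * a + 1 * 0) * 0 + (-w * 0 + 1 * b) * 1 = (cs d * tt ^ m) * 0 + 1 * b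
      ring
  have hmem : dg32 a b hab ha hb ∈ B13 F m := by
    refine ⟨?_, rfl⟩
    intro i _
    show cf i (0 : Rg F m) = 0
    simp
  refine orth32 φ hne (dg32 a b hab ha hb) (nl w)
    (χ (dg32 a b hab ha hb)) (θ d) (fun g => hχ _ hmem g) ?_ hd
  intro g
  rw [hconj, _root_.mul_inv_rev, mul_assoc]
  rw [hχ _ hmem ((nl (cs d * tt ^ m))⁻¹ * g), hn]
  ring

/-- second orthogonality, by `(1, ct^m; 0, 1)` -/
theorem opt2_13 (hm : 1 ≤ m) [Fintype (Gs F m)] (φ : Gs F m → ℂ)
    (hne : φ ≠ 0) (χ : Gs F m → ℂ)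
    (hχ : ∀ b ∈ B13 F m, ∀ g, φ (b⁻¹ * g) = χ b * φ g) (θ : AddChar F ℂ)
    (hn : ∀ a g, φ ((nl (cs a * tt ^ m))⁻¹ * g) = θ a * φ g)
    (w : Rg F m) (c0 : F)
    (hc : θ (-(cf 0 w * (cf 0 w * c0))) * χ (zl hm (cf 0 w * c0)) ≠ 1) :
    ∑ g, (starRingEnd ℂ) (φ g) * φ ((nl w)⁻¹ * g) = 0 := by
  have hc0 : cf 0 (cs c0 * tt ^ m : Rg F m) = 0 := by
    rw [cf_cs_tpow 0 (Nat.zero_le _), if_neg (by omega)]
  have hcw := mul_top32 w c0
  have hww := mul_top32 w (cf 0 w * c0)
  have hec := top_low32 (m := m) (cf 0 w * c0) c0 m hm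
  have hKc := top_low32 (m := m) (-(cf 0 w * (cf 0 w * c0))) c0 m hm
  have hKe := top_low32 (m := m) (-(cf 0 w * (cf 0 w * c0))) (cf 0 w * c0) m hm
  have hconj : (nl w)⁻¹ * up32 (cs c0 * tt ^ m) hc0 * nl w =
      nl (cs (-(cf 0 w * (cf 0 w * c0))) * tt ^ m) * zl hm (cf 0 w * c0) *
        up32 (cs c0 * tt ^ m) hc0 := by
    rw [nl_inv32]
    set cc : Rg F m := cs c0 * tt ^ m with hcc
    set ee : Rg F m := cs (cf 0 w * c0) * tt ^ m with hee
    have hK : (cs (-(cf 0 w * (cf 0 w * c0))) * tt ^ m : Rg F m) = -(w * ee) := by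
      rw [hww, cs_neg32]
      ring
    rw [hK] at hKc hKe ⊢
    apply gs_ext32
    · show ((nl (-w)).1 * (up32 cc hc0).1 * (nl w).1) 0 0 =
        ((nl (-(w * ee))).1 * (zl hm (cf 0 w * c0)).1 * (up32 cc hc0).1) 0 0
      simp only [mul_00, mul_01, nl00, nl01, nl10]
      show (1 * 1 + 0 * 0) * 1 + (1 * cc + 0 * 1) * w =
        (1 * (1 + ee) + 0 * 0) * 1 + (1 * 0 + 0 * (1 - ee)) * 0
      linear_combination hcw
    · show ((nl (-w)).1 * (up32 cc hc0).1 * (nl w).1) 0 1 =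
        ((nl (-(w * ee))).1 * (zl hm (cf 0 w * c0)).1 * (up32 cc hc0).1) 0 1
      simp only [mul_00, mul_01, nl00, nl01, nl11]
      show (1 * 1 + 0 * 0) * 0 + (1 * cc + 0 * 1) * 1 =
        (1 * (1 + ee) + 0 * 0) * cc + (1 * 0 + 0 * (1 - ee)) * 1
      linear_combination -hec
    · show ((nl (-w)).1 * (up32 cc hc0).1 * (nl w).1) 1 0 =
        ((nl (-(w * ee))).1 * (zl hm (cf 0 w * c0)).1 * (up32 cc hc0).1) 1 0
      simp only [mul_10, mul_11, nl00, nl10, nl11]
      show (-w * 1 + 1 * 0) * 1 + (-w * cc + 1 * 1) * w =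
        (-(w * ee) * (1 + ee) + 1 * 0) * 1 + (-(w * ee) * 0 + 1 * (1 - ee)) * 0
      linear_combination -w * hcw - hKe
    · show ((nl (-w)).1 * (up32 cc hc0).1 * (nl w).1) 1 1 =
        ((nl (-(w * ee))).1 * (zl hm (cf 0 w * c0)).1 * (up32 cc hc0).1) 1 1
      simp only [mul_10, mul_11, nl01, nl10, nl11]
      show (-w * 1 + 1 * 0) * 0 + (-w * cc + 1 * 1) * 1 =
        (-(w * ee) * (1 + ee) + 1 * 0) * cc + (-(w * ee) * 0 + 1 * (1 - ee)) * 1
      linear_combination -hcw - (1 + ee) * hKc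
  have hmem : up32 (cs c0 * tt ^ m) hc0 ∈ B13 F m := by
    refine ⟨?_, rfl⟩
    intro i hi
    show cf i (cs c0 * tt ^ m : Rg F m) = 0
    rw [cf_cs_tpow i hi.le, if_neg (by omega)]
  have hmem2 : zl hm (cf 0 w * c0) ∈ B13 F m := by
    refine ⟨?_, rfl⟩
    intro i _
    show cf i (0 : Rg F m) = 0
    simp
  refine orth32 φ hne (up32 (cs c0 * tt ^ m) hc0) (nl w)
    (χ (up32 (cs c0 * tt ^ m) hc0))
    (θ (-(cf 0 w * (cf 0 w * c0))) * χ (zl hm (cf 0 w * c0))) (fun g => hχ _ hmem g) ?_ hc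
  intro g
  rw [hconj, _root_.mul_inv_rev, _root_.mul_inv_rev, mul_assoc, mul_assoc]
  rw [hχ _ hmem, hχ _ hmem2, hn]
  ring

/-- the family of translations -/
def Y13 (m : ℕ) (z : Fin (m / 2) → F) (x : F) : Rg F m :=
  cs x + ∑ j : Fin (m / 2), cs (z j) * tt ^ (2 * (j : ℕ) + m % 2)

/-- H4: an orthogonal family with at least `q^(m/2)` members -/
theorem mult_char2 [Fintype F] (h2 : (2 : F) = 0)
    (h4 : 4 ≤ Fintype.card F) (m : ℕ) (hm : 1 ≤ m) [Fintype (Gs F m)]
    (lam : ℝ) (Phi Psi : Gs F m → ℂ) (h : EigG (eG m) (uG m) lam Phi Psi) (hne : Phi ≠ 0)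
    (θ : AddChar F ℂ) (hθ : θ ≠ 1)
    (hn : ∀ c g, Phi ((nl (cs c * tt ^ m))⁻¹ * g) = θ c * Phi g) :
    ∃ (ι : Type) (_ : Fintype ι) (φ ψ : ι → Gs F m → ℂ),
      Fintype.card F ^ m ≤ (Fintype.card ι) ^ 2 ∧
      (∀ y, EigG (eG m) (uG m) lam (φ y) (ψ y)) ∧ (∀ y, φ y ≠ 0) ∧
      ∀ y y', y ≠ y' → ∑ g, (starRingEnd ℂ) (φ y g) * φ y' g = 0 := by
  classical
  obtain ⟨ι0, _, c, k, χ, hk, hne2, hχ⟩ := joint32 (B13 F m) B13_comm Phi hne
  have hE := eigG_comb32 h c k
  set φ : Gs F m → ℂ := fun g => ∑ i, c i * Phi ((k i)⁻¹ * g) with hφ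
  set ψ : Gs F m → ℂ := fun g => ∑ i, c i * Psi ((k i)⁻¹ * g) with hψ
  have hn2 : ∀ a g, φ ((nl (cs a * tt ^ m))⁻¹ * g) = θ a * φ g := by
    intro a g
    exact comm32 Phi c k (nl (cs a * tt ^ m)) (θ a) (hn a) (fun i => B13_nl hm _ (hk i) a) g
  have hχ2 : ∀ b ∈ B13 F m, ∀ g, φ (b⁻¹ * g) = χ b * φ g := hχ
  -- the exceptional value
  obtain ⟨ws, hws0, hws⟩ : ∃ ws : F, ws ≠ 0 ∧ ∀ w : F, w ≠ 0 →
      (∀ c0, θ (-(w * (w * c0))) * χ (zl hm (w * c0)) = 1) → w = ws := by
    by_cases hex : ∃ w : F, w ≠ 0 ∧ ∀ c0, θ (-(w * (w * c0))) * χ (zl hm (w * c0)) = 1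
    · obtain ⟨w1, hw1, hP1⟩ := hex
      refine ⟨w1, hw1, ?_⟩
      intro w hw hP
      by_contra hne3
      apply hθ
      ext d
      have e1 := hP (d / ((w1 - w) * w))
      have e2 := hP1 (d / ((w1 - w) * w1))
      have hsub : w1 - w ≠ 0 := sub_ne_zero.mpr (Ne.symm hne3)
      have f1 : w * (d / ((w1 - w) * w)) = d / (w1 - w) := by
        field_simp
      have f2 : w1 * (d / ((w1 - w) * w1)) = d / (w1 - w) := by
        field_simp
      rw [f1] at e1
      rw [f2] at e2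
      have e3 : θ (-(w * (d / (w1 - w)))) = θ (-(w1 * (d / (w1 - w)))) := by
        have hz0 : χ (zl hm (d / (w1 - w))) ≠ 0 := by
          intro h0
          rw [h0, mul_zero] at e1
          exact zero_ne_one e1
        exact mul_right_cancel₀ hz0 (e1.trans e2.symm)
      have e4 : θ d * θ (-(w1 * (d / (w1 - w)))) = θ (-(w * (d / (w1 - w)))) := by
        rw [← AddChar.map_add_eq_mul]
        congr 1
        field_simp
        ring
      rw [e3] at e4
      have hz1 : θ (-(w1 * (d / (w1 - w)))) ≠ 0 := by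
        intro h0
        rw [h0, zero_mul] at e2
        exact zero_ne_one e2
      have e5 : θ d = 1 := mul_right_cancel₀ hz1 (by rw [e4, one_mul])
      rw [e5]
      rfl
    · push Not at hex
      refine ⟨1, one_ne_zero, ?_⟩
      intro w hw hP
      obtain ⟨c0, hc0⟩ := hex w hw
      exact absurd (hP c0) hc0
  -- half of the field
  let ff := Fintype.equivFin F
  let A : Type := {x : F // if m % 2 = 0 then x = 0 else ff x < ff (x + ws)}
  let ι : Type := (Fin (m / 2) → F) × A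
  have hwsws : ∀ x : F, x + ws + ws = x := by
    intro x
    linear_combination ws * h2
  have hcardA : if m % 2 = 0 then Fintype.card A = 1 else 2 * Fintype.card A = Fintype.card F := by
    split_ifs with hpar
    · rw [Fintype.card_eq_one_iff]
      refine ⟨⟨0, by rw [if_pos hpar]⟩, ?_⟩
      rintro ⟨y, hy⟩
      rw [if_pos hpar] at hy
      exact Subtype.ext hy
    · have hb : Function.Bijective (fun p : A × Bool => if p.2 then p.1.1 else p.1.1 + ws) := by
        constructor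
        · rintro ⟨⟨x, hx⟩, b⟩ ⟨⟨x', hx'⟩, b'⟩ hxx
          rw [if_neg hpar] at hx hx'
          cases b <;> cases b' <;> simp only [Bool.false_eq_true, if_false, if_true] at hxx
          · have : x = x' := by linear_combination hxx
            subst this
            rfl
          · exfalso
            subst hxx
            rw [hwsws] at hx'
            exact absurd hx (not_lt.mpr hx'.le)
          · exfalso
            subst hxx
            rw [hwsws] at hx
            exact absurd hx' (not_lt.mpr hx.le)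
          · subst hxx
            rfl
        · intro y
          have hyn : ff y ≠ ff (y + ws) := by
            intro h0
            apply hws0
            have := ff.injective h0
            linear_combination -this
          rcases lt_or_gt_of_ne hyn with h5 | h5
          · exact ⟨(⟨y, by rw [if_neg hpar]; exact h5⟩, true), by simp⟩
          · refine ⟨(⟨y + ws, by rw [if_neg hpar, hwsws]; exact h5⟩, false), ?_⟩
            simp only [Bool.false_eq_true, if_false]
            exact hwsws y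
      have := Fintype.card_of_bijective hb
      rw [Fintype.card_prod, Fintype.card_bool] at this
      omega
  refine ⟨ι, inferInstance, fun y g => φ ((nl (Y13 m y.1 y.2.1))⁻¹ * g),
    fun y g => ψ ((nl (Y13 m y.1 y.2.1))⁻¹ * g), ?_,
    fun y => eigG_tr32 hE _, fun y => tr_ne32 φ hne2 _, ?_⟩
  · show _ ≤ (Fintype.card ((Fin (m / 2) → F) × A)) ^ 2
    rw [Fintype.card_prod, Fintype.card_fun, Fintype.card_fin, mul_pow, ← pow_mul]
    by_cases hpar : m % 2 = 0
    · rw [if_pos hpar] at hcardA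
      rw [hcardA, one_pow, mul_one]
      exact Nat.pow_le_pow_right (by omega) (by omega)
    · rw [if_neg hpar] at hcardA
      have h5 : Fintype.card F ≤ (Fintype.card A) ^ 2 := by
        nlinarith
      calc Fintype.card F ^ m = Fintype.card F ^ (m / 2 * 2) * Fintype.card F := by
            rw [← pow_succ]
            congr 1
            omega
        _ ≤ Fintype.card F ^ (m / 2 * 2) * (Fintype.card A) ^ 2 := Nat.mul_le_mul_left _ h5
  · rintro ⟨z, ⟨x, hx⟩⟩ ⟨z', ⟨x', hx'⟩⟩ hyy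
    apply final32
    show ∑ g, (starRingEnd ℂ) (φ g) * φ ((nl (Y13 m z' x' - Y13 m z x))⁻¹ * g) = 0
    by_cases hxx : x = x'
    · subst hxx
      have hzz : z ≠ z' := by
        intro h0
        subst h0
        exact hyy rfl
      have hw : Y13 m z' x - Y13 m z x =
          ∑ j : Fin (m / 2), cs (z' j - z j) * tt ^ (2 * (j : ℕ) + m % 2) := by
        unfold Y13
        rw [add_sub_add_left_eq_sub, ← Finset.sum_sub_distrib]
        refine Finset.sum_congr rfl fun j _ => ?_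
        simp
        ring
      rw [hw]
      have hcf : ∀ i ≤ m, cf i (∑ j : Fin (m / 2), cs (z' j - z j) *
          tt ^ (2 * (j : ℕ) + m % 2) : Rg F m) =
          ∑ j : Fin (m / 2), if i = 2 * (j : ℕ) + m % 2 then z' j - z j else 0 := by
        intro i hi
        rw [cf_sum32]
        exact Finset.sum_congr rfl fun j _ => cf_cs_tpow i hi _ _
      have hex : ∃ i, ∃ hi : i < m / 2, z ⟨i, hi⟩ ≠ z' ⟨i, hi⟩ := by
        obtain ⟨i, hi⟩ := Function.ne_iff.mp hzz
        exact ⟨i, i.2, hi⟩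
      obtain ⟨hv, hv2⟩ := Nat.find_spec hex
      have hmin : ∀ i (hi : i < m / 2), i < Nat.find hex → z ⟨i, hi⟩ = z' ⟨i, hi⟩ := by
        intro i hi hlt
        have := Nat.find_min hex hlt
        push Not at this
        exact this hi
      obtain ⟨s, hs1, hs2⟩ := exists_tpow_mul _ (2 * Nat.find hex + m % 2) (by
        intro i hi him
        rw [hcf i him]
        apply Finset.sum_eq_zero
        intro j _
        split_ifs with hij
        · rw [hmin j j.2 (by omega)]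
          simp
        · rfl)
      refine opt1_13 h2 φ hne2 χ hχ2 θ hθ hn2 (2 * Nat.find hex + m % 2)
        (m / 2 - Nat.find hex) (by omega) (by omega) _ s hs1 ?_
      rw [hs2 0 (by omega), zero_add, hcf _ (by omega),
        Finset.sum_eq_single (⟨Nat.find hex, hv⟩ : Fin (m / 2))]
      · rw [if_pos rfl]
        exact sub_ne_zero.mpr (Ne.symm hv2)
      · intro j _ hj
        rw [if_neg]
        intro h0
        apply hj
        apply Fin.ext
        show (j : ℕ) = Nat.find hex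
        omega
      · intro h0
        exact absurd (Finset.mem_univ _) h0
    · have hpar : ¬ m % 2 = 0 := by
        intro hpar
        rw [if_pos hpar] at hx hx'
        exact hxx (hx.trans hx'.symm)
      rw [if_neg hpar] at hx hx'
      have hcf0 : cf 0 (Y13 m z' x' - Y13 m z x) = x' - x := by
        unfold Y13
        rw [cf_sub, cf_add, cf_add, cf_sum32, cf_sum32, cf_cs 0 (Nat.zero_le _),
          cf_cs 0 (Nat.zero_le _), if_pos rfl, if_pos rfl, Finset.sum_eq_zero,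
          Finset.sum_eq_zero]
        · ring
        · intro j _
          rw [cf_cs_tpow 0 (Nat.zero_le _), if_neg (by omega)]
        · intro j _
          rw [cf_cs_tpow 0 (Nat.zero_le _), if_neg (by omega)]
      have hne4 : x' - x ≠ ws := by
        intro h0
        have h5 : x' = x + ws := by linear_combination h0
        rw [h5, hwsws] at hx'
        exact absurd hx (not_lt.mpr hx'.le)
      have hP : ¬ ∀ c0, θ (-((x' - x) * ((x' - x) * c0))) * χ (zl hm ((x' - x) * c0)) = 1 :=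
        fun hP => hne4 (hws _ (sub_ne_zero.mpr (Ne.symm hxx)) hP)
      push Not at hP
      obtain ⟨c0, hc0⟩ := hP
      refine opt2_13 hm φ hne2 χ hχ2 θ hn2 _ c0 ?_
      rw [hcf0]
      exact hc0

end

end Anq13
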