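import Mathlib
import Pool.Agent.Anq13.Defs

/-!
# MP_d4d904_co : module K, the final inequality
-/

namespace Anq13

/-- K1: the Chebyshev recursion grows -/
theorem ch_ge (q lam τ : ℝ) (hq : 1 ≤ q) (hτ : 0 < τ) (h : τ + (q - 1) / τ ≤ lam) (k : ℕ) :
    τ ^ k ≤ ch q lam k := by
  have key : ∀ k, τ ^ k ≤ ch q lam k ∧ τ * ch q lam k ≤ ch q lam (k + 1) := by
    intro k
    induction k with
    | zero =>
      refine ⟨by simp [ch], ?_⟩
      simp only [ch]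
      have : 0 ≤ (q - 1) / τ := div_nonneg (by linarith) hτ.le
      linarith
    | succ k ih =>
      obtain ⟨h1, h2⟩ := ih
      have hp : 0 ≤ ch q lam k := le_trans (by positivity) h1
      have h3 : τ ^ (k + 1) ≤ ch q lam (k + 1) := by
        rw [pow_succ']
        exact le_trans (mul_le_mul_of_nonneg_left h1 hτ.le) h2
      refine ⟨h3, ?_⟩
      have hp1 : 0 ≤ ch q lam (k + 1) := le_trans (by positivity) h3
      show τ * ch q lam (k + 1) ≤ lam * ch q lam (k + 1) - (q - 1) * ch q lam k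
      have h4 : (τ + (q - 1) / τ) * ch q lam (k + 1) ≤ lam * ch q lam (k + 1) :=
        mul_le_mul_of_nonneg_right h hp1
      have h5 : (q - 1) * ch q lam k ≤ (q - 1) / τ * ch q lam (k + 1) := by
        have h6 : ch q lam k ≤ ch q lam (k + 1) / τ := by
          rw [le_div_iff₀ hτ]
          linarith
        calc (q - 1) * ch q lam k ≤ (q - 1) * (ch q lam (k + 1) / τ) :=
              mul_le_mul_of_nonneg_left h6 (by linarith)
          _ = (q - 1) / τ * ch q lam (k + 1) := by ring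
      nlinarith
  exact (key k).1

theorem sum_range_shift_zero (c : ℕ → ℝ) (m n : ℕ) (h : ∀ l, l < m → c l = 0) :
    ∑ l ∈ Finset.range (m + n), c l = ∑ e ∈ Finset.range n, c (m + e) := by
  rw [Finset.sum_range_add]
  rw [Finset.sum_eq_zero (fun l hl => h l (Finset.mem_range.mp hl)), zero_add]

/-- the upper bound of the trace -/
theorem rhs_le (q m : ℕ) (hq : 2 ≤ q) (hm : 1 ≤ m) (G : ℝ) (hG0 : 0 ≤ G)
    (hG : G ≤ (q : ℝ) ^ (3 * m + 1)) (c : ℕ → ℝ) (hc0 : ∀ l, l < m → c l = 0)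
    (hc : ∀ l, m ≤ l → c l ≤ 4 ^ (l - m) * (q : ℝ) ^ ((l - m) + 1 + ((l - m) - m))) :
    (q : ℝ) * ((q : ℝ) ^ (3 * m) * G +
        ∑ l ∈ Finset.range (3 * m), (q : ℝ) ^ (3 * m - l) * (G * c l)) ≤
      (q : ℝ) ^ (6 * m + 2) * ((16 ^ m + 2) / 3) := by
  have hqR : (2 : ℝ) ≤ (q : ℝ) := by exact_mod_cast hq
  have hq1 : (1 : ℝ) ≤ (q : ℝ) := by linarith
  have hq0 : (0 : ℝ) < (q : ℝ) := by linarith
  have hS : ∑ l ∈ Finset.range (3 * m), (q : ℝ) ^ (3 * m - l) * (G * c l) ≤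
      G * ((q : ℝ) ^ (3 * m) * ((16 ^ m - 1) / 3)) := by
    rw [show 3 * m = m + 2 * m by ring]
    rw [sum_range_shift_zero _ m (2 * m) (by
      intro l hl
      rw [hc0 l hl]
      ring)]
    have hterm : ∀ e ∈ Finset.range (2 * m),
        (q : ℝ) ^ (m + 2 * m - (m + e)) * (G * c (m + e)) ≤ G * (q : ℝ) ^ (3 * m) * 4 ^ e := by
      intro e he
      rw [Finset.mem_range] at he
      have h1 := hc (m + e) (by omega)
      rw [show m + e - m = e by omega] at h1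
      have h2 : (q : ℝ) ^ (m + 2 * m - (m + e)) * (G * c (m + e)) ≤
          (q : ℝ) ^ (m + 2 * m - (m + e)) * (G * (4 ^ e * (q : ℝ) ^ (e + 1 + (e - m)))) := by
        apply mul_le_mul_of_nonneg_left _ (by positivity)
        exact mul_le_mul_of_nonneg_left h1 hG0
      refine h2.trans ?_
      have h3 : (q : ℝ) ^ (m + 2 * m - (m + e)) * (G * (4 ^ e * (q : ℝ) ^ (e + 1 + (e - m)))) =
          G * (q : ℝ) ^ ((m + 2 * m - (m + e)) + (e + 1 + (e - m))) * 4 ^ e := by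
        rw [pow_add]
        ring
      rw [h3]
      apply mul_le_mul_of_nonneg_right _ (by positivity)
      apply mul_le_mul_of_nonneg_left _ hG0
      apply pow_le_pow_right₀ hq1
      omega
    refine (Finset.sum_le_sum hterm).trans ?_
    rw [← Finset.mul_sum, geom_sum_eq (by norm_num), show m + 2 * m = 3 * m by ring]
    have h16 : (4 : ℝ) ^ (2 * m) = 16 ^ m := by
      rw [pow_mul]
      norm_num
    rw [h16]
    apply le_of_eq
    ring
  have h16 : (0 : ℝ) ≤ ((16 : ℝ) ^ m + 2) / 3 := by positivity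
  calc (q : ℝ) * ((q : ℝ) ^ (3 * m) * G +
        ∑ l ∈ Finset.range (3 * m), (q : ℝ) ^ (3 * m - l) * (G * c l))
      ≤ (q : ℝ) * ((q : ℝ) ^ (3 * m) * G + G * ((q : ℝ) ^ (3 * m) * ((16 ^ m - 1) / 3))) := by
        apply mul_le_mul_of_nonneg_left _ hq0.le
        linarith
    _ = G * ((q : ℝ) ^ (3 * m + 1) * ((16 ^ m + 2) / 3)) := by
        rw [pow_succ]
        ring
    _ ≤ (q : ℝ) ^ (3 * m + 1) * ((q : ℝ) ^ (3 * m + 1) * ((16 ^ m + 2) / 3)) := by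
        apply mul_le_mul_of_nonneg_right hG
        positivity
    _ = (q : ℝ) ^ (6 * m + 2) * ((16 ^ m + 2) / 3) := by
        rw [show 6 * m + 2 = (3 * m + 1) + (3 * m + 1) by ring, pow_add]
        ring

/-- K2: the contradiction -/
theorem num (q m : ℕ) (hq : 2 ≤ q) (hm : 1 ≤ m) (lam τ : ℝ) (hτ0 : 0 < τ)
    (hτ : τ ^ 6 = 16 * (q : ℝ) ^ 5) (hlam : τ + ((q : ℝ) - 1) / τ ≤ lam) (G : ℝ) (hG0 : 0 ≤ G)
    (hG : G ≤ (q : ℝ) ^ (3 * m + 1)) (c : ℕ → ℝ) (hc0 : ∀ l, l < m → c l = 0)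
    (hc : ∀ l, m ≤ l → c l ≤ 4 ^ (l - m) * (q : ℝ) ^ ((l - m) + 1 + ((l - m) - m)))
    (h : (q : ℝ) ^ m * ((q : ℝ) * ch q lam (3 * m)) ^ 2 ≤
      (q : ℝ) * ((q : ℝ) ^ (3 * m) * G +
        ∑ l ∈ Finset.range (3 * m), (q : ℝ) ^ (3 * m - l) * (G * c l))) : False := by
  have hqR : (2 : ℝ) ≤ (q : ℝ) := by exact_mod_cast hq
  have hq1 : (1 : ℝ) ≤ (q : ℝ) := by linarith
  have hq0 : (0 : ℝ) < (q : ℝ) := by linarith
  have hch := ch_ge q lam τ hq1 hτ0 hlam (3 * m)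
  -- lower bound
  have hL : (q : ℝ) ^ (6 * m + 2) * 16 ^ m ≤ (q : ℝ) ^ m * ((q : ℝ) * ch q lam (3 * m)) ^ 2 := by
    have h1 : (τ ^ (3 * m)) ^ 2 ≤ (ch q lam (3 * m)) ^ 2 :=
      pow_le_pow_left₀ (by positivity) hch 2
    have h2 : (τ ^ (3 * m)) ^ 2 = (16 * (q : ℝ) ^ 5) ^ m := by
      rw [← hτ, ← pow_mul, ← pow_mul]
      congr 1
      ring
    rw [h2] at h1
    calc (q : ℝ) ^ (6 * m + 2) * 16 ^ m = (q : ℝ) ^ (m + 2) * (16 * (q : ℝ) ^ 5) ^ m := by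
          rw [mul_pow, ← pow_mul]
          rw [show 6 * m + 2 = (m + 2) + 5 * m by ring, pow_add]
          ring
      _ ≤ (q : ℝ) ^ (m + 2) * (ch q lam (3 * m)) ^ 2 := by
          apply mul_le_mul_of_nonneg_left h1 (by positivity)
      _ = (q : ℝ) ^ m * ((q : ℝ) * ch q lam (3 * m)) ^ 2 := by ring
  have hR := rhs_le q m hq hm G hG0 hG c hc0 hc
  have hfin : (q : ℝ) ^ (6 * m + 2) * 16 ^ m ≤ (q : ℝ) ^ (6 * m + 2) * ((16 ^ m + 2) / 3) :=
    hL.trans (h.trans hR)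
  have h1 := le_of_mul_le_mul_left hfin (by positivity)
  have h2 : (16 : ℝ) ^ 1 ≤ 16 ^ m := pow_le_pow_right₀ (by norm_num) hm
  linarith

/-- K4: the contradiction with the smaller multiplicity -/
theorem num2 (q m D : ℕ) (hq : 2 ≤ q) (hm : 1 ≤ m) (hD : q ^ m ≤ D ^ 2) (lam τ : ℝ)
    (hτ0 : 0 < τ)
    (hτ : τ ^ 12 = 256 * (q : ℝ) ^ 11) (hlam : τ + ((q : ℝ) - 1) / τ ≤ lam) (G : ℝ) (hG0 : 0 ≤ G)
    (hG : G ≤ (q : ℝ) ^ (3 * m + 1)) (c : ℕ → ℝ) (hc0 : ∀ l, l < m → c l = 0)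
    (hc : ∀ l, m ≤ l → c l ≤ 4 ^ (l - m) * (q : ℝ) ^ ((l - m) + 1 + ((l - m) - m)))
    (h : (D : ℝ) * ((q : ℝ) * ch q lam (3 * m)) ^ 2 ≤
      (q : ℝ) * ((q : ℝ) ^ (3 * m) * G +
        ∑ l ∈ Finset.range (3 * m), (q : ℝ) ^ (3 * m - l) * (G * c l))) : False := by
  have hqR : (2 : ℝ) ≤ (q : ℝ) := by exact_mod_cast hq
  have hq1 : (1 : ℝ) ≤ (q : ℝ) := by linarith
  have hq0 : (0 : ℝ) < (q : ℝ) := by linarith
  have hch := ch_ge q lam τ hq1 hτ0 hlam (3 * m)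
  have hR := rhs_le q m hq hm G hG0 hG c hc0 hc
  have h0 : (D : ℝ) * ((q : ℝ) * τ ^ (3 * m)) ^ 2 ≤ (q : ℝ) ^ (6 * m + 2) * ((16 ^ m + 2) / 3) := by
    refine le_trans ?_ (h.trans hR)
    apply mul_le_mul_of_nonneg_left _ (by positivity)
    apply pow_le_pow_left₀ (by positivity)
    exact mul_le_mul_of_nonneg_left hch hq0.le
  have hDR : ((q : ℝ)) ^ m ≤ (D : ℝ) ^ 2 := by exact_mod_cast hD
  have hsq := pow_le_pow_left₀ (by positivity) h0 2
  have hL : ((q : ℝ) ^ (6 * m + 2)) ^ 2 * 256 ^ m ≤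
      ((D : ℝ) * ((q : ℝ) * τ ^ (3 * m)) ^ 2) ^ 2 := by
    have h2 : (τ ^ (3 * m)) ^ 4 = (256 * (q : ℝ) ^ 11) ^ m := by
      rw [← hτ, ← pow_mul, ← pow_mul]
      congr 1
      ring
    calc ((q : ℝ) ^ (6 * m + 2)) ^ 2 * 256 ^ m =
          (q : ℝ) ^ m * ((q : ℝ) ^ 4 * (256 * (q : ℝ) ^ 11) ^ m) := by
          rw [mul_pow, ← pow_mul, ← pow_mul]
          rw [show (6 * m + 2) * 2 = m + (4 + 11 * m) by ring, pow_add, pow_add]
          ring
      _ ≤ (D : ℝ) ^ 2 * ((q : ℝ) ^ 4 * (256 * (q : ℝ) ^ 11) ^ m) := by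
          apply mul_le_mul_of_nonneg_right hDR (by positivity)
      _ = ((D : ℝ) * ((q : ℝ) * τ ^ (3 * m)) ^ 2) ^ 2 := by
          rw [← h2]
          ring
  have hfin : ((q : ℝ) ^ (6 * m + 2)) ^ 2 * 256 ^ m ≤
      ((q : ℝ) ^ (6 * m + 2)) ^ 2 * ((16 ^ m + 2) / 3) ^ 2 := by
    refine (hL.trans hsq).trans (le_of_eq ?_)
    ring
  have h1 := le_of_mul_le_mul_left hfin (by positivity)
  have h2 : (16 : ℝ) ^ 1 ≤ 16 ^ m := pow_le_pow_right₀ (by norm_num) hm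
  have h3 : (256 : ℝ) ^ m = (16 ^ m) ^ 2 := by
    rw [← pow_mul, mul_comm m 2, pow_mul]
    norm_num
  rw [h3] at h1
  have h4 : ((16 : ℝ) ^ m + 2) / 3 < 16 ^ m := by linarith
  have h5 : (((16 : ℝ) ^ m + 2) / 3) ^ 2 < (16 ^ m) ^ 2 :=
    pow_lt_pow_left₀ h4 (by positivity) (by norm_num)
  linarith

/-- K3: the bound is below `q` -/
theorem tau_lt (q τ : ℝ) (hq : 23 ≤ q) (hτ0 : 0 < τ) (hτ : τ ^ 6 = 16 * q ^ 5) :
    τ + (q - 1) / τ < q := by
  have h1 : 1 < τ := by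
    by_contra hcon
    push Not at hcon
    have h2 : τ ^ 6 ≤ 1 := pow_le_one₀ hτ0.le hcon
    have h3 : (1 : ℝ) ≤ q ^ 5 := one_le_pow₀ (by linarith)
    rw [hτ] at h2
    linarith
  have h2 : τ < q - 1 := by
    by_contra hcon
    push Not at hcon
    have h3 : (q - 1) ^ 6 ≤ τ ^ 6 := pow_le_pow_left₀ (by linarith) hcon 6
    rw [hτ] at h3
    obtain ⟨r, hr⟩ : ∃ r, q = 23 + r := ⟨q - 23, by ring⟩
    have hr0 : 0 ≤ r := by linarith
    subst hr
    have h4 : (23 + r - 1) ^ 6 - 16 * (23 + r) ^ 5 = 10398416 + r * (8534512 + r * (1567120 +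
        r * (128320 + r * (5420 + r * (116 + r))))) := by ring
    have h5 : 0 ≤ r * (8534512 + r * (1567120 +
        r * (128320 + r * (5420 + r * (116 + r))))) := by positivity
    linarith
  rw [← sub_pos]
  have h3 : q - (τ + (q - 1) / τ) = (τ - 1) * (q - 1 - τ) / τ := by
    field_simp
    ring
  rw [h3]
  apply div_pos _ hτ0
  apply mul_pos <;> linarith

/-- K5: the bound is below `q`, characteristic two -/
theorem tau_lt2 (q τ : ℝ) (hq : 512 ≤ q) (hτ0 : 0 < τ) (hτ : τ ^ 12 = 256 * q ^ 11) :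
    τ + (q - 1) / τ < q := by
  have h1 : 1 < τ := by
    by_contra hcon
    push Not at hcon
    have h2 : τ ^ 12 ≤ 1 := pow_le_one₀ hτ0.le hcon
    have h3 : (1 : ℝ) ≤ q ^ 11 := one_le_pow₀ (by linarith)
    rw [hτ] at h2
    linarith
  have h2 : τ < q - 1 := by
    by_contra hcon
    push Not at hcon
    have h3 : (q - 1) ^ 12 ≤ τ ^ 12 := pow_le_pow_left₀ (by linarith) hcon 12
    rw [hτ] at h3
    have hq0 : 0 < q := by linarith
    have h4 := one_add_mul_le_pow (a := -(1 / q)) (by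
      have : 1 / q ≤ 1 := by
        rw [div_le_one hq0]
        linarith
      linarith) 12
    have h5 : (q - 1) ^ 12 = q ^ 12 * (1 + -(1 / q)) ^ 12 := by
      rw [← mul_pow]
      congr 1
      field_simp
      ring
    have h6 : q ^ 12 * (1 + (12 : ℕ) * -(1 / q)) = q ^ 11 * (q - 12) := by
      field_simp
      push_cast
      ring
    have h7 : q ^ 11 * (q - 12) ≤ (q - 1) ^ 12 := by
      rw [h5, ← h6]
      exact mul_le_mul_of_nonneg_left h4 (by positivity)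
    have h8 : 256 * q ^ 11 < q ^ 11 * (q - 12) := by
      rw [mul_comm]
      apply mul_lt_mul_of_pos_left _ (by positivity)
      linarith
    linarith
  rw [← sub_pos]
  have h3 : q - (τ + (q - 1) / τ) = (τ - 1) * (q - 1 - τ) / τ := by
    field_simp
    ring
  rw [h3]
  apply div_pos _ hτ0
  apply mul_pos <;> linarith

end Anq13
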