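import Mathlib
import Pool.Agent.Anq13.Defs

/-!
# MP_d4d904_co : module C, the group matrices
-/

namespace Anq13

open Matrix

section
variable {G : Type*} [Group G] [Fintype G] [DecidableEq G]

theorem rho_mul1 (h h' : G) : rho h * rho h' = rho (h * h') := by
  ext g k
  rw [Matrix.mul_apply]
  unfold rho
  rw [Finset.sum_eq_single_of_mem (g * h) (Finset.mem_univ _)]
  · rw [if_pos rfl, one_mul, mul_assoc]
  · intro b _ hb
    rw [if_neg (fun h => hb h.symm), zero_mul]

omit [Fintype G] in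
theorem rho_one1 : rho (1 : G) = 1 := by
  ext g k
  unfold rho
  rw [mul_one, Matrix.one_apply]

omit [Fintype G] in
theorem rho_transpose1 (h : G) : (rho h)ᵀ = rho h⁻¹ := by
  ext g k
  rw [Matrix.transpose_apply]
  unfold rho
  congr 1
  apply propext
  constructor
  · intro h1; rw [← h1]; group
  · intro h1; rw [← h1]; group

theorem rho_trace1 (h : G) : (rho h).trace = if h = 1 then (Fintype.card G : ℝ) else 0 := by
  unfold Matrix.trace rho
  simp only [Matrix.diag_apply, mul_eq_left]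
  split_ifs
  · simp
  · simp

end

section
variable {G F : Type*} [Group G] [Fintype G] [DecidableEq G] [Field F] [Fintype F]

theorem em_sq (E : F → G) (hadd : ∀ x y, E (x + y) = E x * E y) :
    em E * em E = (Fintype.card F : ℝ) • em E := by
  unfold em
  rw [Finset.sum_mul]
  have h1 : ∀ x : F, rho (E x) * ∑ y, rho (E y) = ∑ y, rho (E y) := by
    intro x
    rw [Finset.mul_sum]
    rw [← Equiv.sum_comp (Equiv.addLeft x) (fun y => rho (E y))]
    refine Finset.sum_congr rfl fun y _ => ?_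
    rw [rho_mul1, ← hadd]
    rfl
  rw [Finset.sum_congr rfl fun x _ => h1 x, Finset.sum_const, Finset.card_univ]
  rw [← Nat.cast_smul_eq_nsmul ℝ]

theorem em_symm (E : F → G) (hadd : ∀ x y, E (x + y) = E x * E y) : (em E)ᵀ = em E := by
  have h0 : E 0 = 1 := by
    have := hadd 0 0
    rw [add_zero] at this
    exact (mul_eq_left.1 this.symm)
  unfold em
  rw [Matrix.transpose_sum, ← Equiv.sum_comp (Equiv.neg F) (fun y => rho (E y))]
  refine Finset.sum_congr rfl fun y _ => ?_
  rw [rho_transpose1]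
  congr 1
  rw [inv_eq_iff_mul_eq_one, Equiv.neg_apply, ← hadd, add_neg_cancel, h0]

theorem em_trace (E : F → G) (h0 : E 0 = 1) (hinj : Function.Injective E) :
    (em E).trace = Fintype.card G := by
  unfold em
  rw [Matrix.trace_sum, Finset.sum_eq_single_of_mem (0 : F) (Finset.mem_univ _)]
  · rw [rho_trace1, if_pos h0]
  · intro b _ hb
    rw [rho_trace1, if_neg]
    intro h1
    exact hb (hinj (h1.trans h0.symm))

theorem em_apply (E : F → G) (f : G → ℂ) (g : G) :
    ∑ g', (em E g g' : ℂ) * f g' = ∑ x, f (g * E x) := by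
  unfold em
  have h1 : ∀ g', (((∑ x, rho (E x)) g g' : ℝ) : ℂ) * f g' =
      ∑ x, (if g * E x = g' then f g' else 0) := by
    intro g'
    rw [Matrix.sum_apply]
    push_cast
    rw [Finset.sum_mul]
    refine Finset.sum_congr rfl fun x _ => ?_
    unfold rho
    split_ifs <;> simp
  rw [Finset.sum_congr rfl fun g' _ => h1 g', Finset.sum_comm]
  refine Finset.sum_congr rfl fun x _ => ?_
  rw [Finset.sum_ite_eq Finset.univ (g * E x) f, if_pos (Finset.mem_univ _)]

end

section
variable {G Γ F : Type*} [Group G] [Fintype G] [DecidableEq G] [Group Γ] [DecidableEq Γ]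
    [Field F] [Fintype F] [DecidableEq F]

theorem em_sub_one1 (π : Γ →* G) (e0 : F → Γ) (he0 : e0 0 = 1) :
    em (fun x => π (e0 x)) - 1 =
      ∑ x ∈ Finset.univ.filter (fun x : F => x ≠ 0), rho (π (e0 x)) := by
  unfold em
  rw [← Finset.sum_filter_add_sum_filter_not Finset.univ (fun x : F => x ≠ 0)]
  have h1 : Finset.univ.filter (fun x : F => ¬ x ≠ 0) = {0} := by
    ext x; simp
  rw [h1, Finset.sum_singleton]
  simp only [he0, map_one, rho_one1, add_sub_cancel_right]

theorem Qsum1 (π : Γ →* G) (e0 u0 : F → Γ) (he0 : e0 0 = 1)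
    (hu0 : u0 0 = 1) (inj0 : Function.Injective u0)
    (inj1 : ∀ l, Set.InjOn (fun p : Γ × F × F => p.1 * e0 p.2.1 * u0 p.2.2)
      {p | p.1 ∈ Qw e0 u0 l ∧ p.2.1 ≠ 0 ∧ p.2.2 ≠ 0}) (l : ℕ) :
    (em (fun x => π (u0 x)) - 1) * ((em (fun x => π (e0 x)) - 1) *
      (em (fun x => π (u0 x)) - 1)) ^ l = ∑ h ∈ Qw e0 u0 l, rho (π h) := by
  induction l with
  | zero =>
    rw [pow_zero, mul_one, em_sub_one1 π u0 hu0]
    unfold Qw
    rw [Finset.sum_image (fun a _ b _ h => inj0 h)]
  | succ l ih =>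
    rw [pow_succ, ← mul_assoc, ih, em_sub_one1 π e0 he0, em_sub_one1 π u0 hu0]
    rw [Qw, Finset.sum_image]
    · rw [Finset.sum_product, Finset.sum_mul]
      refine Finset.sum_congr rfl fun h _ => ?_
      rw [Finset.sum_product, Finset.sum_mul_sum, Finset.mul_sum]
      refine Finset.sum_congr rfl fun x _ => ?_
      rw [Finset.mul_sum]
      refine Finset.sum_congr rfl fun s _ => ?_
      rw [rho_mul1, rho_mul1, map_mul, map_mul, mul_assoc]
    · intro a ha b hb hab
      rw [Finset.mem_coe, Finset.mem_product, Finset.mem_product, Finset.mem_filter,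
        Finset.mem_filter] at ha hb
      exact inj1 l ⟨ha.1, ha.2.1.2, ha.2.2.2⟩ ⟨hb.1, hb.2.1.2, hb.2.2.2⟩ hab

end

theorem trace_W {G Γ F : Type*} [Group G] [Fintype G] [DecidableEq G] [Group Γ] [DecidableEq Γ]
    [Field F] [Fintype F] [DecidableEq F] (π : Γ →* G) (e0 u0 : F → Γ) (he0 : e0 0 = 1)
    (hu0 : u0 0 = 1) (inj0 : Function.Injective u0)
    (inj1 : ∀ l, Set.InjOn (fun p : Γ × F × F => p.1 * e0 p.2.1 * u0 p.2.2)
      {p | p.1 ∈ Qw e0 u0 l ∧ p.2.1 ≠ 0 ∧ p.2.2 ≠ 0})
    (inj2 : ∀ l, Set.InjOn (fun p : Γ × F => p.1 * e0 p.2) {p | p.1 ∈ Qw e0 u0 l}) (l : ℕ) :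
    (W (em (fun x => π (e0 x))) (em (fun x => π (u0 x))) l).trace =
      (Fintype.card G : ℝ) * (((Tw e0 u0 l).filter (fun h => π h = 1)).card : ℝ) := by
  unfold W
  rw [Qsum1 π e0 u0 he0 hu0 inj0 inj1 l]
  have h1 : (∑ h ∈ Qw e0 u0 l, rho (π h)) * em (fun x => π (e0 x)) =
      ∑ h ∈ Tw e0 u0 l, rho (π h) := by
    unfold Tw em
    rw [Finset.sum_image, Finset.sum_product, Finset.sum_mul]
    · refine Finset.sum_congr rfl fun h _ => ?_
      rw [Finset.mul_sum]
      refine Finset.sum_congr rfl fun x _ => ?_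
      rw [rho_mul1, map_mul]
    · intro a ha b hb hab
      rw [Finset.mem_coe, Finset.mem_product] at ha hb
      exact inj2 l ha.1 hb.1 hab
  rw [h1, Matrix.trace_sum, Finset.sum_congr rfl fun h _ => rho_trace1 (π h),
    ← Finset.sum_filter, Finset.sum_const, nsmul_eq_mul, mul_comm]

end Anq13
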