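import Mathlib
import Pool.Agent.Anq13.Defs
import Pool.Agent.Anq13.Cheb
import Pool.Agent.Anq13.Bessel
import Pool.Agent.Anq13.Words
import Pool.Agent.Anq13.Red
import Pool.Agent.Anq13.Count
import Pool.Agent.Anq13.Card
import Pool.Agent.Anq13.Mult
import Pool.Agent.Anq13.Mult2
import Pool.Agent.Anq13.Pull
import Pool.Agent.Anq13.Down
import Pool.Agent.Anq13.Lam
import Pool.Agent.Anq13.Num

/-!
# MP_d4d904_co : assembly
-/

namespace Anq13

open Polynomial Matrix

theorem eP_add {F : Type} [Field F] (m : ℕ) (x y : F) : eP m (x + y) = eP m x * eP m y := by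
  apply Subtype.ext
  apply sl_ext
  · rw [Subgroup.coe_mul, mul_00]; simp [eP]
  · rw [Subgroup.coe_mul, mul_01]; simp [eP]
  · rw [Subgroup.coe_mul, mul_10]; simp [eP]
  · rw [Subgroup.coe_mul, mul_11]; simp [eP]

theorem uP_add {F : Type} [Field F] (m : ℕ) (x y : F) : uP m (x + y) = uP m x * uP m y := by
  apply Subtype.ext
  apply sl_ext
  · rw [Subgroup.coe_mul, mul_00]; simp [uP]
  · rw [Subgroup.coe_mul, mul_01]; simp [uP]; ring
  · rw [Subgroup.coe_mul, mul_10]; simp [uP]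
  · rw [Subgroup.coe_mul, mul_11]; simp [uP]

theorem eP_zero {F : Type} [Field F] (m : ℕ) : eP m (0 : F) = 1 := by
  have h := eP_add m (0 : F) 0
  rw [add_zero] at h
  exact (mul_eq_left.mp h.symm)

theorem uP_zero {F : Type} [Field F] (m : ℕ) : uP m (0 : F) = 1 := by
  have h := uP_add m (0 : F) 0
  rw [add_zero] at h
  exact (mul_eq_left.mp h.symm)

theorem eG_inj {F : Type} [Field F] (m : ℕ) : Function.Injective (eG (F := F) m) := by
  intro x y h
  have h1 : cf 0 ((eG m x : SpecialLinearGroup (Fin 2) (Rg F m)) 1 0) =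
    cf 0 ((eG m y : SpecialLinearGroup (Fin 2) (Rg F m)) 1 0) := by rw [h]
  have h2 : ∀ x : F, cf 0 ((eG m x : SpecialLinearGroup (Fin 2) (Rg F m)) 1 0) = x := by
    intro x
    show cf 0 (mk m (C x)) = x
    rw [cf_mk 0 (Nat.zero_le _)]
    simp
  rw [h2, h2] at h1
  exact h1

/-- the trace inequality for a family of orthogonal eigenpairs on the group -/
theorem group_ineq {F : Type} [Field F] [Fintype F] (m : ℕ) [Fintype (Gs F m)] (lam : ℝ)
    (hlam0 : 0 < lam) {ι : Type} [Fintype ι] (φ ψ : ι → Gs F m → ℂ)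
    (hE : ∀ y, EigG (eG m) (uG m) lam (φ y) (ψ y)) (hne : ∀ y, φ y ≠ 0)
    (horth : ∀ y y', y ≠ y' → ∑ g, (starRingEnd ℂ) (φ y g) * φ y' g = 0) :
    ∃ c : ℕ → ℝ, (∀ l, l < m → c l = 0) ∧
      (∀ l, m ≤ l → c l ≤ 4 ^ (l - m) *
        (Fintype.card F : ℝ) ^ ((l - m) + 1 + ((l - m) - m))) ∧
      (Fintype.card ι : ℝ) * ((Fintype.card F : ℝ) * ch (Fintype.card F) lam (3 * m)) ^ 2 ≤
      (Fintype.card F : ℝ) * ((Fintype.card F : ℝ) ^ (3 * m) * (Fintype.card (Gs F m) : ℝ) +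
        ∑ l ∈ Finset.range (3 * m), (Fintype.card F : ℝ) ^ (3 * m - l) *
          ((Fintype.card (Gs F m) : ℝ) * c l)) := by
  classical
  have hq2 : 2 ≤ Fintype.card F := Fintype.one_lt_card
  have hqR : (2 : ℝ) ≤ (Fintype.card F : ℝ) := by exact_mod_cast hq2
  have headd : ∀ x y : F, eG m (x + y) = eG m x * eG m y := by
    intro x y
    rw [eG, eP_add, map_mul]
    rfl
  have huadd : ∀ x y : F, uG m (x + y) = uG m x * uG m y := by
    intro x y
    rw [uG, uP_add, map_mul]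
    rfl
  have he := em_sq (eG (F := F) m) headd
  have hu := em_sq (uG (F := F) m) huadd
  have het := em_symm (eG (F := F) m) headd
  have hut := em_symm (uG (F := F) m) huadd
  have htr := em_trace (eG (F := F) m) (by rw [eG, eP_zero, map_one]) (eG_inj m)
  have hW : ∀ l, (W (em (eG (F := F) m)) (em (uG (F := F) m)) l).trace =
      (Fintype.card (Gs F m) : ℝ) *
        (((Tw (eP (F := F) m) (uP m) l).filter (fun h => pr F m h = 1)).card : ℝ) := by
    intro l
    exact trace_W (pr F m) (eP (F := F) m) (uP m) (eP_zero m) (uP_zero m) (uP_inj m)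
      (Qw_inj1 m) (Qw_inj2 m) l
  have hb := bessel (Fintype.card F : ℝ) (by linarith)
    (em (eG (F := F) m)) (em (uG (F := F) m)) he hu het hut lam hlam0.ne' φ ψ
    (by
      intro i g
      rw [em_apply]
      rw [Finset.sum_congr rfl (fun x _ => (hE i).invE g x)]
      simp)
    (by
      intro i g
      rw [em_apply]
      rw [Finset.sum_congr rfl (fun x _ => (hE i).invU g x)]
      simp)
    (by
      intro i g
      rw [em_apply]
      exact (hE i).sumE g)
    (by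
      intro i g
      rw [em_apply]
      exact (hE i).sumU g)
    hne horth (3 * m)
  have hh := hs_le (Fintype.card F : ℝ) (by linarith) (em (eG (F := F) m)) (em (uG (F := F) m))
    he hu het hut (by rw [htr]; positivity) (by intro l; rw [hW]; positivity) (3 * m)
  have h := hb.trans hh
  rw [htr] at h
  simp only [hW] at h
  refine ⟨fun l => (((Tw (eP (F := F) m) (uP m) l).filter (fun h => pr F m h = 1)).card : ℝ),
    ?_, ?_, h⟩
  · intro l hl
    have := count_zero (F := F) m l hl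
    beta_reduce
    exact_mod_cast this
  · intro l hl
    have := count_le (F := F) m l hl
    beta_reduce
    exact_mod_cast this

/-- the bound for a family of `q^m` orthogonal eigenpairs on the group -/
theorem group_bound {F : Type} [Field F] [Fintype F] (m : ℕ) (hm : 1 ≤ m)
    [Fintype (Gs F m)] (lam τ : ℝ) (hlam0 : 0 < lam) (hτ0 : 0 < τ)
    (hτ : τ ^ 6 = 16 * (Fintype.card F : ℝ) ^ 5)
    (hlam : τ + ((Fintype.card F : ℝ) - 1) / τ ≤ lam)
    (φ ψ : (Fin m → F) → Gs F m → ℂ)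
    (hE : ∀ y, EigG (eG m) (uG m) lam (φ y) (ψ y)) (hne : ∀ y, φ y ≠ 0)
    (horth : ∀ y y', y ≠ y' → ∑ g, (starRingEnd ℂ) (φ y g) * φ y' g = 0) : False := by
  classical
  have hq2 : 2 ≤ Fintype.card F := Fintype.one_lt_card
  obtain ⟨c, hc0, hc, h⟩ := group_ineq m lam hlam0 φ ψ hE hne horth
  have hcard : (Fintype.card (Fin m → F) : ℝ) = (Fintype.card F : ℝ) ^ m := by
    rw [Fintype.card_fun, Fintype.card_fin]
    push_cast
    rfl
  rw [hcard] at h
  exact num (Fintype.card F) m hq2 hm lam τ hτ0 hτ hlam (Fintype.card (Gs F m) : ℝ)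
    (by positivity) (by exact_mod_cast card_Gs m) c hc0 hc h

/-- the bound for a family of at least `q^(m/2)` orthogonal eigenpairs on the group -/
theorem group_bound2 {F : Type} [Field F] [Fintype F] (m : ℕ) (hm : 1 ≤ m)
    [Fintype (Gs F m)] (lam τ : ℝ) (hlam0 : 0 < lam) (hτ0 : 0 < τ)
    (hτ : τ ^ 12 = 256 * (Fintype.card F : ℝ) ^ 11)
    (hlam : τ + ((Fintype.card F : ℝ) - 1) / τ ≤ lam)
    {ι : Type} [Fintype ι] (hι : Fintype.card F ^ m ≤ (Fintype.card ι) ^ 2)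
    (φ ψ : ι → Gs F m → ℂ)
    (hE : ∀ y, EigG (eG m) (uG m) lam (φ y) (ψ y)) (hne : ∀ y, φ y ≠ 0)
    (horth : ∀ y y', y ≠ y' → ∑ g, (starRingEnd ℂ) (φ y g) * φ y' g = 0) : False := by
  have hq2 : 2 ≤ Fintype.card F := Fintype.one_lt_card
  obtain ⟨c, hc0, hc, h⟩ := group_ineq m lam hlam0 φ ψ hE hne horth
  exact num2 (Fintype.card F) m (Fintype.card ι) hq2 hm hι lam τ hτ0 hτ hlam
    (Fintype.card (Gs F m) : ℝ) (by positivity) (by exact_mod_cast card_Gs m) c hc0 hc h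

theorem lam_pos {F : Type} [Fintype F] [Nonempty F] (τ lam : ℝ) (hτ0 : 0 < τ)
    (hlam : τ + ((Fintype.card F : ℝ) - 1) / τ ≤ lam) : 0 < lam := by
  have h1 : (1 : ℝ) ≤ (Fintype.card F : ℝ) := by exact_mod_cast Fintype.card_pos
  have : 0 ≤ ((Fintype.card F : ℝ) - 1) / τ := by
    apply div_nonneg _ hτ0.le
    linarith
  linarith

theorem f_zero {F : Type} [Field F] [Fintype F] (n : ℕ) (lam : ℝ) (hlam0 : 0 < lam)
    (f g : (Fin n → F) → ℂ) (h : EigA lam f g) (hg0 : g = 0) : f = 0 := by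
  funext p
  have := h.sumL p
  rw [hg0] at this
  simp only [Pi.zero_apply, Finset.sum_const_zero] at this
  have h3 := mul_eq_zero.mp this.symm
  rcases h3 with h3 | h3
  · exfalso
    exact hlam0.ne' (by exact_mod_cast h3)
  · exact h3

/-- a new eigenpair has a small eigenvalue, odd characteristic -/
theorem new_bound {F : Type} [Field F] [Fintype F] (h2 : (2 : F) ≠ 0) (τ : ℝ) (hτ0 : 0 < τ)
    (hτ : τ ^ 6 = 16 * (Fintype.card F : ℝ) ^ 5) (N : ℕ) (lam : ℝ)
    (f g : (Fin (N + 2) → F) → ℂ) (hlam : τ + ((Fintype.card F : ℝ) - 1) / τ ≤ lam)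
    (h : EigA lam f g) (θ : AddChar F ℂ) (hθ : θ ≠ 1)
    (hf : ∀ c p, f (p - Pi.single (Fin.last (N + 1)) c) = θ c * f p)
    (hg : ∀ c l, g (l + Pi.single (Fin.last (N + 1)) c) = θ c * g l) : f = 0 ∧ g = 0 := by
  have hlam0 : 0 < lam := lam_pos (F := F) τ lam hτ0 hlam
  by_cases hg0 : g = 0
  · exact ⟨f_zero _ lam hlam0 f g h hg0, hg0⟩
  · exfalso
    have : Fintype (Gs F ((N + 2) / 2)) := Fintype.ofFinite _
    have hm : 1 ≤ (N + 2) / 2 := by omega
    obtain ⟨Phi, Psi, hE, hne, hc⟩ := pull N ((N + 2) / 2) hm (by omega) lam f g h hg0 θ hf hg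
    rcases hc with ⟨-, hz, hn⟩ | ⟨-, hn⟩
    · obtain ⟨φ, ψ, h3, h4, h5⟩ := mult_even ((N + 2) / 2) hm lam Phi Psi hE hne θ hθ hz hn
      exact group_bound ((N + 2) / 2) hm lam τ hlam0 hτ0 hτ hlam φ ψ h3 h4 h5
    · obtain ⟨φ, ψ, h3, h4, h5⟩ := mult_odd h2 ((N + 2) / 2) hm lam Phi Psi hE hne θ hθ hn
      exact group_bound ((N + 2) / 2) hm lam τ hlam0 hτ0 hτ hlam φ ψ h3 h4 h5

/-- a new eigenpair has a small eigenvalue, characteristic two -/
theorem new_bound2 {F : Type} [Field F] [Fintype F] (h2 : (2 : F) = 0)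
    (hq4 : 4 ≤ Fintype.card F) (τ : ℝ) (hτ0 : 0 < τ)
    (hτ : τ ^ 12 = 256 * (Fintype.card F : ℝ) ^ 11) (N : ℕ) (lam : ℝ)
    (f g : (Fin (N + 2) → F) → ℂ) (hlam : τ + ((Fintype.card F : ℝ) - 1) / τ ≤ lam)
    (h : EigA lam f g) (θ : AddChar F ℂ) (hθ : θ ≠ 1)
    (hf : ∀ c p, f (p - Pi.single (Fin.last (N + 1)) c) = θ c * f p)
    (hg : ∀ c l, g (l + Pi.single (Fin.last (N + 1)) c) = θ c * g l) : f = 0 ∧ g = 0 := by
  have hlam0 : 0 < lam := lam_pos (F := F) τ lam hτ0 hlam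
  by_cases hg0 : g = 0
  · exact ⟨f_zero _ lam hlam0 f g h hg0, hg0⟩
  · exfalso
    have : Fintype (Gs F ((N + 2) / 2)) := Fintype.ofFinite _
    have hm : 1 ≤ (N + 2) / 2 := by omega
    obtain ⟨Phi, Psi, hE, hne, hc⟩ := pull N ((N + 2) / 2) hm (by omega) lam f g h hg0 θ hf hg
    rcases hc with ⟨-, hz, hn⟩ | ⟨-, hn⟩
    · obtain ⟨φ, ψ, h3, h4, h5⟩ := mult_even ((N + 2) / 2) hm lam Phi Psi hE hne θ hθ hz hn
      refine group_bound2 ((N + 2) / 2) hm lam τ hlam0 hτ0 hτ hlam ?_ φ ψ h3 h4 h5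
      rw [Fintype.card_fun, Fintype.card_fin, ← pow_mul]
      exact Nat.pow_le_pow_right (by omega) (by omega)
    · obtain ⟨ι, hι, φ, ψ, h6, h3, h4, h5⟩ :=
        mult_char2 h2 hq4 ((N + 2) / 2) hm lam Phi Psi hE hne θ hθ hn
      exact group_bound2 ((N + 2) / 2) hm lam τ hlam0 hτ0 hτ hlam h6 φ ψ h3 h4 h5

/-- the uniform bound, odd characteristic -/
theorem lam2_lt {F : Type} [Field F] [Fintype F] (h2 : (2 : F) ≠ 0) (τ : ℝ) (hτ0 : 0 < τ)
    (hτ : τ ^ 6 = 16 * (Fintype.card F : ℝ) ^ 5) (n : ℕ) :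
    lam2 F (n + 1) < τ + ((Fintype.card F : ℝ) - 1) / τ := by
  by_contra hcon
  push Not at hcon
  obtain ⟨f, g, hne, hE, hs⟩ := lam2_eigA (F := F) n
  refine hne (down (τ + ((Fintype.card F : ℝ) - 1) / τ)
    (lam_pos (F := F) τ _ hτ0 le_rfl) ?_ n _ f g hcon hE hs)
  intro N lam f g hl hE θ hθ hf hg
  exact new_bound h2 τ hτ0 hτ N lam f g hl hE θ hθ hf hg

/-- the second eigenvalue is at most `q` -/
theorem lam2_le {F : Type} [Field F] [Fintype F] (n : ℕ) :
    lam2 F (n + 1) ≤ (Fintype.card F : ℝ) := by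
  classical
  have hA := adjA_herm F (n + 1)
  set σ := Fintype.equivOfCardEq (Fintype.card_fin
    (Fintype.card ((Fin (n + 1) → F) ⊕ (Fin (n + 1) → F)))) with hσ
  have h := hA.mulVec_eigenvectorBasis (σ ⟨1, one_lt_card F (n + 1)⟩)
  have h2 : hA.eigenvalues (σ ⟨1, one_lt_card F (n + 1)⟩) = lam2 F (n + 1) := by
    unfold Matrix.IsHermitian.eigenvalues lam2
    rw [← hσ, Equiv.symm_apply_apply]
  rw [h2] at h
  refine eig_le (adjA F (n + 1)) ?_ (Fintype.card F : ℝ) (adjA_one (n + 1) (by omega)) _ ?_ _ h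
  · intro i j
    unfold adjA
    rw [SimpleGraph.adjMatrix_apply]
    split_ifs <;> norm_num
  · intro h0
    have h3 := hA.eigenvectorBasis.orthonormal.1 (σ ⟨1, one_lt_card F (n + 1)⟩)
    have h4 : hA.eigenvectorBasis (σ ⟨1, one_lt_card F (n + 1)⟩) = 0 := by
      ext i
      exact congrFun h0 i
    rw [h4] at h3
    simp at h3

/-- the uniform bound, characteristic two -/
theorem lam2_lt2 {F : Type} [Field F] [Fintype F] (h2 : (2 : F) = 0) (τ : ℝ) (hτ0 : 0 < τ)
    (hτ : τ ^ 12 = 256 * (Fintype.card F : ℝ) ^ 11) (n : ℕ) :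
    lam2 F (n + 1) < τ + ((Fintype.card F : ℝ) - 1) / τ := by
  by_cases hq4 : 4 ≤ Fintype.card F
  · by_contra hcon
    push Not at hcon
    obtain ⟨f, g, hne, hE, hs⟩ := lam2_eigA (F := F) n
    refine hne (down (τ + ((Fintype.card F : ℝ) - 1) / τ)
      (lam_pos (F := F) τ _ hτ0 le_rfl) ?_ n _ f g hcon hE hs)
    intro N lam f g hl hE θ hθ hf hg
    exact new_bound2 h2 hq4 τ hτ0 hτ N lam f g hl hE θ hθ hf hg
  · have hq2 : 2 ≤ Fintype.card F := Fintype.one_lt_card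
    have hq4' : (Fintype.card F : ℝ) ≤ 3 := by
      have : Fintype.card F ≤ 3 := by omega
      exact_mod_cast this
    have hqR : (2 : ℝ) ≤ (Fintype.card F : ℝ) := by exact_mod_cast hq2
    have h3 : (Fintype.card F : ℝ) < τ := by
      by_contra hcon
      push Not at hcon
      have h5 : τ ^ 12 ≤ (Fintype.card F : ℝ) ^ 12 := pow_le_pow_left₀ hτ0.le hcon 12
      rw [hτ] at h5
      have h6 : (0 : ℝ) < (Fintype.card F : ℝ) ^ 11 := by positivity
      have h7 : (Fintype.card F : ℝ) ^ 12 = (Fintype.card F : ℝ) * (Fintype.card F : ℝ) ^ 11 := by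
        ring
      rw [h7] at h5
      have h8 := le_of_mul_le_mul_right h5 h6
      linarith
    have h4 : 0 ≤ ((Fintype.card F : ℝ) - 1) / τ := by
      apply div_nonneg _ hτ0.le
      linarith
    have h5 := lam2_le (F := F) n
    linarith

end Anq13
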