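import Mathlib
import Pool.Agent.Anq13.Defs

/-!
# MP_d4d904_co : the tree of `PGL₂(F((1/t)))` and its quotient by `Γ(t^N)` (definitions)
-/

namespace Anq13

open Polynomial Matrix

noncomputable section

/-! ## Functions on a coset space `G/H`, for a group `G` -/

section
variable {G : Type} [Group G] {H : Subgroup G}

/-- the vertices `xH` and `x δ H` of `G/H` are neighbours -/
def AdjC (δ : G) (v w : G ⧸ H) : Prop :=
  ∃ x : G, (x : G ⧸ H) = v ∧ ((x * δ : G) : G ⧸ H) = w

/-- the adjacency operator: the sum over the neighbours -/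
def heckeC (δ : G) (f : G ⧸ H → ℝ) (v : G ⧸ H) : ℝ := ∑ᶠ w ∈ {w | AdjC δ v w}, f w

/-- the inner product of `Γ`-invariant functions on `G/H`: the sum over the orbits of `Γ`, with
weights `1/|stabiliser|` -/
def ipC (Γ : Subgroup G) (a b : G ⧸ H → ℝ) : ℝ :=
  ∑ᶠ o : MulAction.orbitRel.Quotient Γ (G ⧸ H),
    a o.out * b o.out / (Nat.card (MulAction.stabilizer Γ o.out) : ℝ)

/-- `f` is invariant under `Γ`, its support is finite modulo `Γ`, and it is orthogonal to the
constants and to the function `s` -/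
structure TestC (Γ : Subgroup G) (s f : G ⧸ H → ℝ) : Prop where
  inv : ∀ (γ : Γ) (v : G ⧸ H), f (γ • v) = f v
  fin : {o : MulAction.orbitRel.Quotient Γ (G ⧸ H) | f o.out ≠ 0}.Finite
  one : ipC Γ f (fun _ => 1) = 0
  sgn : ipC Γ f s = 0

end

/-! ## Matrices over a field `K` with a discrete valuation -/

section
variable {K : Type} [Field K]

/-- the subgroup `K^* GL₂(O)` of `GL₂(K)`, where `O` is the valuation ring of `K` -/
def HOv (v : Valuation K (WithZero (Multiplicative ℤ))) : Subgroup (GL (Fin 2) K) :=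
  Subgroup.center (GL (Fin 2) K) ⊔ (GeneralLinearGroup.map (n := Fin 2) v.integer.subtype).range

/-- the matrix `diag (a, 1)` -/
def dgv (a : K) (ha : a ≠ 0) : GL (Fin 2) K :=
  GeneralLinearGroup.mkOfDetNeZero !![a, 0; 0, 1] (by simpa using ha)

open Classical in
/-- the sign of the bipartition of `GL₂(K) / K^* GL₂(O)` -/
def sgv (v : Valuation K (WithZero (Multiplicative ℤ))) (w : GL (Fin 2) K ⧸ HOv v) : ℝ :=
  if ∃ x : GL (Fin 2) K, (x : GL (Fin 2) K ⧸ HOv v) = w ∧ IsSquare (v (x.1.det)) then 1 else -1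

/-- the map `SL₂(F[t]) → GL₂(K)` -/
def toKv {F : Type} [Field F] (ι : F[X] →+* K) :
    SpecialLinearGroup (Fin 2) F[X] →* GL (Fin 2) K :=
  SpecialLinearGroup.toGL.comp (SpecialLinearGroup.map ι)

/-- the congruence subgroup `Γ(t^N)` of `SL₂(F[t])`, as a subgroup of `GL₂(K)` -/
def Gammav {F : Type} [Field F] (ι : F[X] →+* K) (N : ℕ) : Subgroup (GL (Fin 2) K) :=
  (SpecialLinearGroup.map (AdjoinRoot.mk (X ^ N : F[X]))).ker.map (toKv ι)

end

/-! ## The tree of `PGL₂(F((1/t)))` -/

open Classical in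
/-- the completion `F((1/t))` of the field `F(t)` at infinity -/
abbrev Kinf (F : Type) [Field F] : Type := RatFunc.CompletionAtInfty F

/-- the inclusion of `F[t]` in `F((1/t))` -/
def polK (F : Type) [Field F] : F[X] →+* Kinf F :=
  (algebraMap (RatFunc F) (Kinf F)).comp (algebraMap F[X] (RatFunc F))

open Classical in
/-- the valuation of `F((1/t))`, with `val F t = exp 1` -/
def val (F : Type) [Field F] : Valuation (Kinf F) (WithZero (Multiplicative ℤ)) :=
  (Valued.v : Valuation (Kinf F) (WithZero (Multiplicative ℤ)))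

theorem polK_ne (F : Type) [Field F] {p : F[X]} (hp : p ≠ 0) : polK F p ≠ 0 := by
  unfold polK
  rw [RingHom.comp_apply]
  simp [hp]

/-- the subgroup `K^* GL₂(O)` of `GL₂(K)`, `K = F((1/t))` -/
abbrev HO (F : Type) [Field F] : Subgroup (GL (Fin 2) (Kinf F)) := HOv (val F)

/-- the vertices of the tree of `PGL₂(K)`, `K = F((1/t))` -/
abbrev Vert (F : Type) [Field F] : Type := GL (Fin 2) (Kinf F) ⧸ HOv (val F)

/-- the matrix `diag (t, 1)` -/
def dt (F : Type) [Field F] : GL (Fin 2) (Kinf F) := dgv (polK F X) (polK_ne F X_ne_zero)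

/-- the map `SL₂(F[t]) → GL₂(K)` -/
abbrev toK (F : Type) [Field F] : SpecialLinearGroup (Fin 2) F[X] →* GL (Fin 2) (Kinf F) :=
  toKv (polK F)

/-- the congruence subgroup `Γ(t^N)` of `SL₂(F[t])`, as a subgroup of `GL₂(K)` -/
abbrev Gamma (F : Type) [Field F] (N : ℕ) : Subgroup (GL (Fin 2) (Kinf F)) := Gammav (polK F) N

/-- the sign of the bipartition of the tree -/
abbrev sgn (F : Type) [Field F] : Vert F → ℝ := sgv (val F)

/-- adjacency in the tree: `x K^* GL₂(O)` and `x diag(t,1) K^* GL₂(O)` are neighbours -/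
abbrev AdjT {F : Type} [Field F] (v w : Vert F) : Prop := AdjC (dt F) v w

/-- the adjacency operator of the tree -/
def hecke {F : Type} [Field F] (f : Vert F → ℝ) : Vert F → ℝ := heckeC (dt F) f

/-- the inner product of `Γ(t^N)`-invariant functions, with weights `1/|stabiliser|` -/
def ip (F : Type) [Field F] (N : ℕ) (a b : Vert F → ℝ) : ℝ := ipC (Gammav (polK F) N) a b

/-- `f` is invariant under `Γ(t^N)`, its support is finite modulo `Γ(t^N)`, and it is orthogonal
to the constants and to the sign of the bipartition -/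
def TestFn (F : Type) [Field F] (N : ℕ) (f : Vert F → ℝ) : Prop :=
  TestC (Gammav (polK F) N) (sgv (val F)) f

/-! ## first facts -/

theorem val_polK (F : Type) [Field F] {p : F[X]} (hp : p ≠ 0) :
    val F (polK F p) = WithZero.exp (p.natDegree : ℤ) := by
  classical
  have h1 : val F (polK F p) = RatFunc.inftyValuationDef F (algebraMap F[X] (RatFunc F) p) := by
    unfold val polK
    rw [RingHom.comp_apply, RatFunc.valuedCompletionAtInfty.def F]
    exact @Valued.extensionValuation_apply_coe (RatFunc F) _ _ _ (RatFunc.inftyValued F)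
      (algebraMap F[X] (RatFunc F) p)
  rw [h1, RatFunc.inftyValuation.polynomial F hp]

end

end Anq13
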