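import Mathlib
import Pool.Agent.Anq13.TreeDefs
import Pool.Agent.Anq13.Lam

/-!
# MP_d4d904_co : valuations of matrices
-/

namespace Anq13

open Polynomial Matrix WithZero

open scoped Pointwise

variable {F : Type} [Field F]

/-- all entries have valuation at most `exp a` -/
def Bd (M : Matrix (Fin 2) (Fin 2) (Kinf F)) (a : ℤ) : Prop := ∀ i j, val F (M i j) ≤ exp a

theorem Bd.mul {A B : Matrix (Fin 2) (Fin 2) (Kinf F)} {a b : ℤ} (hA : Bd A a) (hB : Bd B b) :
    Bd (A * B) (a + b) := by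
  intro i j
  rw [Matrix.mul_apply, Fin.sum_univ_two]
  refine (Valuation.map_add _ _ _).trans (max_le ?_ ?_)
  · rw [map_mul, exp_add]
    exact mul_le_mul' (hA i 0) (hB 0 j)
  · rw [map_mul, exp_add]
    exact mul_le_mul' (hA i 1) (hB 1 j)

theorem det_int (k : GL (Fin 2) (val F).integer) :
    val F ((GeneralLinearGroup.map (val F).integer.subtype k).1.det) = 1 := by
  have h1 : ∀ k : GL (Fin 2) (val F).integer,
      (GeneralLinearGroup.map (val F).integer.subtype k).1.det =
        (((GeneralLinearGroup.det k : (val F).integerˣ) : (val F).integer) : Kinf F) := by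
    intro k
    have h := GeneralLinearGroup.map_det (val F).integer.subtype k
    have h2 := congrArg (fun u : (Kinf F)ˣ => (u : Kinf F)) h
    exact h2
  rw [h1]
  set u := GeneralLinearGroup.det k
  have h2 : val F (((u : (val F).integerˣ) : (val F).integer) : Kinf F) ≤ 1 := u.1.2
  have h3 : val F (((u⁻¹ : (val F).integerˣ) : (val F).integer) : Kinf F) ≤ 1 := (u⁻¹).1.2
  have h4 : (((u : (val F).integerˣ) : (val F).integer) : Kinf F) *
      (((u⁻¹ : (val F).integerˣ) : (val F).integer) : Kinf F) = 1 := by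
    have := congrArg (fun x : (val F).integer => (x : Kinf F)) u.mul_inv
    exact this
  have h5 := congrArg (val F) h4
  rw [map_mul, map_one] at h5
  refine le_antisymm h2 ?_
  rw [← h5]
  exact mul_le_of_le_one_right' h3

theorem HO_bound {x : GL (Fin 2) (Kinf F)} (hx : x ∈ HO F) :
    ∃ z : ℤ, val F x.1.det = exp (2 * z) ∧ Bd x.1 z := by
  have h : x ∈ ((Subgroup.center (GL (Fin 2) (Kinf F)) : Set (GL (Fin 2) (Kinf F))) *
      (((GeneralLinearGroup.map (n := Fin 2) (val F).integer.subtype).range :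
        Subgroup (GL (Fin 2) (Kinf F))) : Set (GL (Fin 2) (Kinf F)))) := by
    rw [← Subgroup.normal_mul]
    exact hx
  obtain ⟨c, hc, k, hk, rfl⟩ := Set.mem_mul.1 h
  obtain ⟨z, hz⟩ := GeneralLinearGroup.mem_center_iff_val_mem_range_scalar.1 hc
  obtain ⟨k', rfl⟩ := hk
  have hz0 : z ≠ 0 := by
    rintro rfl
    have h1 := c.isUnit
    rw [Matrix.isUnit_iff_isUnit_det, ← hz] at h1
    simp at h1
  have hv0 : val F z ≠ 0 := (Valuation.ne_zero_iff _).2 hz0
  have hval : val F z = exp (log (val F z)) := (exp_log hv0).symm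
  refine ⟨log (val F z), ?_, ?_⟩
  · rw [Units.val_mul, Matrix.det_mul, map_mul, det_int, mul_one, ← hz, two_mul, exp_add, ← hval]
    simp [pow_two]
  · intro i j
    rw [← hval, Units.val_mul, ← hz, Matrix.scalar_apply, Matrix.diagonal_mul, map_mul]
    exact mul_le_of_le_one_right' (k'.1 i j).2

theorem toGL_mem {s : SpecialLinearGroup (Fin 2) (Kinf F)} (h : ∀ i j, val F (s i j) ≤ 1) :
    SpecialLinearGroup.toGL s ∈ HO F := by
  apply Subgroup.mem_sup_right
  set M : Matrix (Fin 2) (Fin 2) (val F).integer := fun i j => ⟨s i j, h i j⟩ with hM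
  have hdet : M.det = 1 := by
    apply Subtype.ext
    rw [Matrix.det_fin_two]
    have := det_eq s
    exact this
  refine ⟨SpecialLinearGroup.toGL ⟨M, hdet⟩, ?_⟩
  apply Units.ext
  ext i j
  rfl

/-! ## polynomials -/

theorem val_le_nat {p : F[X]} {k : ℕ} (h : val F (polK F p) ≤ exp (k : ℤ)) : p.natDegree ≤ k := by
  by_cases hp : p = 0
  · subst hp; simp
  · rw [val_polK F hp, exp_le_exp] at h
    exact_mod_cast h

theorem val_neg_one {p : F[X]} (h : val F (polK F p) ≤ exp (-1 : ℤ)) : p = 0 := by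
  by_contra hp
  rw [val_polK F hp, exp_le_exp] at h
  omega

theorem val_X : val F (polK F X) = exp 1 := by
  rw [val_polK F X_ne_zero, natDegree_X]
  rfl

theorem val_C (c : F) : val F (polK F (C c)) ≤ 1 := by
  by_cases hc : c = 0
  · subst hc; simp
  · rw [val_polK F (by simpa using hc), natDegree_C]
    simp

theorem toK_apply (g : SpecialLinearGroup (Fin 2) F[X]) (i j : Fin 2) :
    (toK F g).1 i j = polK F (g i j) := rfl

theorem toK_det (g : SpecialLinearGroup (Fin 2) F[X]) : (toK F g).1.det = 1 :=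
  (SpecialLinearGroup.map (polK F) g).2

theorem dt_00 : (dt F).1 0 0 = polK F X := rfl
theorem dt_01 : (dt F).1 0 1 = 0 := rfl
theorem dt_10 : (dt F).1 1 0 = 0 := rfl
theorem dt_11 : (dt F).1 1 1 = 1 := rfl

theorem dt_det : (dt F).1.det = polK F X := by
  rw [Matrix.det_fin_two, dt_00, dt_01, dt_10, dt_11]
  ring

theorem Bd_dt : Bd (dt F).1 1 := by
  intro i j
  fin_cases i <;> fin_cases j
  · show val F ((dt F).1 0 0) ≤ _
    rw [dt_00, val_X]
  · show val F ((dt F).1 0 1) ≤ _
    rw [dt_01]; simp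
  · show val F ((dt F).1 1 0) ≤ _
    rw [dt_10]; simp
  · show val F ((dt F).1 1 1) ≤ _
    rw [dt_11, map_one, ← exp_zero, exp_le_exp]
    norm_num

/-! ## cosets -/

theorem mul_dt (A : Matrix (Fin 2) (Fin 2) (Kinf F)) :
    (∀ i, (A * (dt F).1) i 0 = A i 0 * polK F X) ∧ (∀ i, (A * (dt F).1) i 1 = A i 1) := by
  constructor
  · intro i
    rw [Matrix.mul_apply, Fin.sum_univ_two, dt_00, dt_10]
    ring
  · intro i
    rw [Matrix.mul_apply, Fin.sum_univ_two, dt_01, dt_11]
    ring

theorem dt_mul (A : Matrix (Fin 2) (Fin 2) (Kinf F)) :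
    (∀ j, ((dt F).1 * A) 0 j = polK F X * A 0 j) ∧ (∀ j, ((dt F).1 * A) 1 j = A 1 j) := by
  constructor
  · intro j
    rw [Matrix.mul_apply, Fin.sum_univ_two, dt_00, dt_01]
    ring
  · intro j
    rw [Matrix.mul_apply, Fin.sum_univ_two, dt_10, dt_11]
    ring

theorem exp_two_eq {a b : ℤ} (h : (exp (2 * a) : WithZero (Multiplicative ℤ)) = exp (2 * b)) :
    a = b := by
  rw [exp_inj] at h
  omega

end Anq13
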