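import Mathlib
import Pool.Agent.Anq13.TreeVal

/-!
# MP_d4d904_co : stabilisers and neighbours in the tree
-/

namespace Anq13

open Polynomial Matrix WithZero

noncomputable section

variable {F : Type} [Field F]

/-- the vertex `g K^* GL₂(O)` -/
def v0 (g : SpecialLinearGroup (Fin 2) F[X]) : Vert F := ((toK F g : GL (Fin 2) (Kinf F)) : Vert F)

/-- the vertex `g diag(t,1) K^* GL₂(O)` -/
def v1 (g : SpecialLinearGroup (Fin 2) F[X]) : Vert F :=
  ((toK F g * dt F : GL (Fin 2) (Kinf F)) : Vert F)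

theorem eq_imp {a b : GL (Fin 2) (Kinf F)} (h : (a : Vert F) = (b : Vert F)) :
    ∃ z : ℤ, val F (a⁻¹ * b).1.det = exp (2 * z) ∧ Bd (a⁻¹ * b).1 z :=
  HO_bound (QuotientGroup.eq.1 h)

theorem adj_imp {a b : GL (Fin 2) (Kinf F)} (h : AdjT (a : Vert F) (b : Vert F)) :
    ∃ z : ℤ, val F (a⁻¹ * b).1.det = exp (2 * z + 1) ∧ Bd (a⁻¹ * b).1 (z + 1) := by
  obtain ⟨x, hx, hy⟩ := h
  obtain ⟨z1, hd1, hb1⟩ := eq_imp hx.symm
  obtain ⟨z2, hd2, hb2⟩ := eq_imp hy
  have h1 : a⁻¹ * b = (a⁻¹ * x) * dt F * ((x * dt F)⁻¹ * b) := by group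
  refine ⟨z1 + z2, ?_, ?_⟩
  · rw [h1, Units.val_mul, Units.val_mul, Matrix.det_mul, Matrix.det_mul, map_mul, map_mul, hd1,
      hd2, dt_det, val_X, ← exp_add, ← exp_add]
    congr 1
    ring
  · rw [h1, Units.val_mul, Units.val_mul]
    have h2 := (hb1.mul Bd_dt).mul hb2
    have h3 : z1 + 1 + z2 = z1 + z2 + 1 := by ring
    rw [h3] at h2
    exact h2

theorem toK_inv_mul (g g' : SpecialLinearGroup (Fin 2) F[X]) :
    (toK F g)⁻¹ * toK F g' = toK F (g⁻¹ * g') := by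
  rw [map_mul, map_inv]

theorem toK_mem {h : SpecialLinearGroup (Fin 2) F[X]} (hh : ∀ i j, val F (polK F (h i j)) ≤ 1) :
    toK F h ∈ HO F := toGL_mem hh

/-! ## explicit elements of `Gam` -/

theorem eq_eP {m : ℕ} (h : Gam F m) (d00 : (h.1 0 0).natDegree ≤ 0)
    (d01 : (h.1 0 1).natDegree ≤ 0) (d10 : (h.1 1 0).natDegree ≤ 0)
    (d11 : (h.1 1 1).natDegree ≤ 0) : ∃ x, h = eP m x := by
  obtain ⟨c1, c2, c3⟩ := (mem_Gam m h.1).1 h.2
  refine ⟨(h.1 1 0).coeff 0, ?_⟩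
  apply Subtype.ext
  apply sl_ext
  · rw [eq_C_of_natDegree_le_zero d00, c1]; rfl
  · rw [eq_C_of_natDegree_le_zero d01, c2]; simp [eP]
  · conv_lhs => rw [eq_C_of_natDegree_le_zero d10]
    rfl
  · rw [eq_C_of_natDegree_le_zero d11, c3]; rfl

theorem eq_CX {p : F[X]} (h : p.natDegree ≤ 1) (h0 : p.coeff 0 = 0) : p = C (p.coeff 1) * X := by
  have := eq_X_add_C_of_natDegree_le_one h
  rw [h0, map_zero, add_zero] at this
  exact this

theorem eq_uP {m : ℕ} (h : Gam F m) (d00 : (h.1 0 0).natDegree ≤ 0)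
    (d01 : (h.1 0 1).natDegree ≤ 1) (d10 : h.1 1 0 = 0)
    (d11 : (h.1 1 1).natDegree ≤ 0) : ∃ s, h = uP m s := by
  obtain ⟨c1, c2, c3⟩ := (mem_Gam m h.1).1 h.2
  refine ⟨-(h.1 0 1).coeff 1, ?_⟩
  apply Subtype.ext
  apply sl_ext
  · rw [eq_C_of_natDegree_le_zero d00, c1]; rfl
  · rw [eq_CX d01 c2]; simp [uP]
  · rw [d10]; rfl
  · rw [eq_C_of_natDegree_le_zero d11, c3]; rfl

theorem eq_eu {m : ℕ} (h : Gam F m) (d00 : (h.1 0 0).natDegree ≤ 0)
    (d01 : (h.1 0 1).natDegree ≤ 1) (d10 : (h.1 1 0).natDegree ≤ 0) :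
    ∃ x s, h = eP m x * uP m s := by
  obtain ⟨c1, c2, c3⟩ := (mem_Gam m h.1).1 h.2
  have e00 : h.1 0 0 = 1 := by rw [eq_C_of_natDegree_le_zero d00, c1]; rfl
  have e01 := eq_CX d01 c2
  have e10 := eq_C_of_natDegree_le_zero d10
  have hd := det_eq h.1
  refine ⟨(h.1 1 0).coeff 0, -(h.1 0 1).coeff 1, ?_⟩
  apply Subtype.ext
  rw [Subgroup.coe_mul]
  apply sl_ext
  · rw [mul_00, e00]; simp [eP, uP]
  · rw [mul_01, e01]; simp [eP, uP]
  · rw [mul_10]; conv_lhs => rw [e10]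
    simp [eP, uP]
  · rw [mul_11]
    simp only [eP, uP, sl_10, sl_11, sl_01]
    rw [← e10]
    rw [e00, one_mul] at hd
    have h3 : h.1 1 1 = 1 + h.1 0 1 * h.1 1 0 := by linear_combination hd
    rw [h3, map_neg]
    conv_lhs => rw [e01]
    ring

theorem eq_ue {m : ℕ} (h : Gam F m) (d11 : (h.1 1 1).natDegree ≤ 0)
    (d01 : (h.1 0 1).natDegree ≤ 1) (d10 : (h.1 1 0).natDegree ≤ 0) :
    ∃ s x, h = uP m s * eP m x := by
  obtain ⟨c1, c2, c3⟩ := (mem_Gam m h.1).1 h.2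
  have e11 : h.1 1 1 = 1 := by rw [eq_C_of_natDegree_le_zero d11, c3]; rfl
  have e01 := eq_CX d01 c2
  have e10 := eq_C_of_natDegree_le_zero d10
  have hd := det_eq h.1
  refine ⟨-(h.1 0 1).coeff 1, (h.1 1 0).coeff 0, ?_⟩
  apply Subtype.ext
  rw [Subgroup.coe_mul]
  apply sl_ext
  · rw [mul_00]
    simp only [eP, uP, sl_10, sl_00, sl_01]
    rw [← e10]
    rw [e11, mul_one] at hd
    have h3 : h.1 0 0 = 1 + h.1 0 1 * h.1 1 0 := by linear_combination hd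
    rw [h3, map_neg]
    conv_lhs => rw [e01]
    ring
  · rw [mul_01, e01]; simp [eP, uP]
  · rw [mul_10]; conv_lhs => rw [e10]
    simp [eP, uP]
  · rw [mul_11, e11]; simp [eP, uP]

/-! ## stabilisers -/

theorem v0_mul_eP {m : ℕ} (g : Gam F m) (x : F) : v0 (g * eP m x).1 = v0 g.1 := by
  symm
  unfold v0
  rw [QuotientGroup.eq, toK_inv_mul]
  have h1 : (g.1)⁻¹ * (g * eP m x).1 = (eP m x).1 := by
    rw [Subgroup.coe_mul, inv_mul_cancel_left]
  rw [h1]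
  apply toK_mem
  intro i j
  fin_cases i <;> fin_cases j
  · show val F (polK F 1) ≤ 1
    simp
  · show val F (polK F 0) ≤ 1
    simp
  · exact val_C x
  · show val F (polK F 1) ≤ 1
    simp

/-- the constant matrix `(1 -s; 0 1)` -/
def kU (s : F) : SpecialLinearGroup (Fin 2) (Kinf F) := sl 1 (-polK F (C s)) 0 1 (by ring)

theorem toGL_kU (s : F) : (SpecialLinearGroup.toGL (kU s)).1 0 0 = 1 ∧
    (SpecialLinearGroup.toGL (kU s)).1 0 1 = -polK F (C s) ∧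
    (SpecialLinearGroup.toGL (kU s)).1 1 0 = 0 ∧ (SpecialLinearGroup.toGL (kU s)).1 1 1 = 1 :=
  ⟨rfl, rfl, rfl, rfl⟩

theorem toK_uP {m : ℕ} (s : F) : (toK F (uP m s).1).1 0 0 = 1 ∧
    (toK F (uP m s).1).1 0 1 = -(polK F (C s) * polK F X) ∧
    (toK F (uP m s).1).1 1 0 = 0 ∧ (toK F (uP m s).1).1 1 1 = 1 := by
  refine ⟨?_, ?_, ?_, ?_⟩
  · rw [toK_apply]; simp [uP]
  · rw [toK_apply]; simp [uP]
  · rw [toK_apply]; simp [uP]
  · rw [toK_apply]; simp [uP]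

theorem uP_dt {m : ℕ} (s : F) :
    toK F (uP m s).1 * dt F = dt F * SpecialLinearGroup.toGL (kU s) := by
  obtain ⟨a1, a2, a3, a4⟩ := toK_uP (m := m) s
  obtain ⟨b1, b2, b3, b4⟩ := toGL_kU s
  apply Units.ext
  rw [Units.val_mul, Units.val_mul]
  ext i j
  fin_cases i <;> fin_cases j
  · show ((toK F (uP m s).1).1 * (dt F).1) 0 0 = ((dt F).1 * (SpecialLinearGroup.toGL (kU s)).1) 0 0
    rw [(mul_dt _).1, (dt_mul _).1, a1, b1]
    ring
  · show ((toK F (uP m s).1).1 * (dt F).1) 0 1 = ((dt F).1 * (SpecialLinearGroup.toGL (kU s)).1) 0 1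
    rw [(mul_dt _).2, (dt_mul _).1, a2, b2]
    ring
  · show ((toK F (uP m s).1).1 * (dt F).1) 1 0 = ((dt F).1 * (SpecialLinearGroup.toGL (kU s)).1) 1 0
    rw [(mul_dt _).1, (dt_mul _).2, a3, b3]
    ring
  · show ((toK F (uP m s).1).1 * (dt F).1) 1 1 = ((dt F).1 * (SpecialLinearGroup.toGL (kU s)).1) 1 1
    rw [(mul_dt _).2, (dt_mul _).2, a4, b4]

theorem kU_mem (s : F) : SpecialLinearGroup.toGL (kU s) ∈ HO F := by
  apply toGL_mem
  intro i j
  fin_cases i <;> fin_cases j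
  · show val F 1 ≤ 1
    simp
  · show val F (-polK F (C s)) ≤ 1
    rw [Valuation.map_neg]
    exact val_C s
  · show val F 0 ≤ 1
    simp
  · show val F 1 ≤ 1
    simp

theorem v1_mul_uP {m : ℕ} (g : Gam F m) (s : F) : v1 (g * uP m s).1 = v1 g.1 := by
  symm
  unfold v1
  rw [QuotientGroup.eq]
  have h1 : (toK F g.1 * dt F)⁻¹ * (toK F (g * uP m s).1 * dt F) =
      SpecialLinearGroup.toGL (kU s) := by
    rw [Subgroup.coe_mul, map_mul, mul_assoc (toK F g.1), uP_dt]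
    group
  rw [h1]
  exact kU_mem s

theorem stab0 {m : ℕ} {g g' : Gam F m} (h : v0 g.1 = v0 g'.1) : ∃ x, g' = g * eP m x := by
  obtain ⟨z, hd, hb⟩ := eq_imp h
  rw [toK_inv_mul] at hd hb
  rw [toK_det, map_one, ← exp_zero, exp_inj] at hd
  have hz : z = 0 := by omega
  subst hz
  have h2 : ∀ i j, ((g.1⁻¹ * g'.1) i j).natDegree ≤ 0 := by
    intro i j
    exact val_le_nat (hb i j)
  obtain ⟨x, hx⟩ := eq_eP (g⁻¹ * g') (h2 0 0) (h2 0 1) (h2 1 0) (h2 1 1)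
  exact ⟨x, by rw [← hx]; group⟩

/-- entries of a matrix `h` of polynomials from a bound for `h diag(t,1)` -/
theorem ent_mul_dt {h : SpecialLinearGroup (Fin 2) F[X]} (hb : Bd (toK F h * dt F).1 1) :
    (h 0 0).natDegree ≤ 0 ∧ (h 1 0).natDegree ≤ 0 ∧ (h 0 1).natDegree ≤ 1 ∧
      (h 1 1).natDegree ≤ 1 := by
  rw [Units.val_mul] at hb
  have key : ∀ p : F[X], val F (polK F p * polK F X) ≤ exp 1 → p.natDegree ≤ 0 := by
    intro p hp
    rw [← map_mul] at hp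
    have h1 := val_le_nat (k := 1) hp
    by_cases h0 : p = 0
    · subst h0; simp
    · rw [natDegree_mul_X h0] at h1
      omega
  refine ⟨key _ ?_, key _ ?_, val_le_nat (k := 1) ?_, val_le_nat (k := 1) ?_⟩
  · have := hb 0 0
    rw [(mul_dt _).1] at this
    exact this
  · have := hb 1 0
    rw [(mul_dt _).1] at this
    exact this
  · have := hb 0 1
    rw [(mul_dt _).2] at this
    exact this
  · have := hb 1 1
    rw [(mul_dt _).2] at this
    exact this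

/-- entries of a matrix `h` of polynomials from a bound for `diag(t,1)⁻¹ h` -/
theorem ent_dt_mul {h : SpecialLinearGroup (Fin 2) F[X]} (hb : Bd ((dt F)⁻¹ * toK F h).1 0) :
    (h 1 0).natDegree ≤ 0 ∧ (h 1 1).natDegree ≤ 0 ∧ (h 0 0).natDegree ≤ 1 ∧
      (h 0 1).natDegree ≤ 1 := by
  have h1 : toK F h = dt F * ((dt F)⁻¹ * toK F h) := by group
  have h2 : ∀ j, val F (polK F (h 0 j)) ≤ exp 1 := by
    intro j
    have e : polK F (h 0 j) = ((dt F).1 * ((dt F)⁻¹ * toK F h).1) 0 j := by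
      rw [← Units.val_mul, ← h1]; rfl
    rw [e, (dt_mul _).1, map_mul, val_X]
    calc exp 1 * val F (((dt F)⁻¹ * toK F h).1 0 j) ≤ exp 1 * exp 0 := mul_le_mul_right (hb 0 j) _
      _ = exp 1 := by rw [exp_zero, mul_one]
  have h3 : ∀ j, val F (polK F (h 1 j)) ≤ exp 0 := by
    intro j
    have e : polK F (h 1 j) = ((dt F).1 * ((dt F)⁻¹ * toK F h).1) 1 j := by
      rw [← Units.val_mul, ← h1]; rfl
    rw [e, (dt_mul _).2]
    exact hb 1 j
  exact ⟨val_le_nat (k := 0) (h3 0), val_le_nat (k := 0) (h3 1), val_le_nat (k := 1) (h2 0),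
    val_le_nat (k := 1) (h2 1)⟩

theorem stab1 {m : ℕ} {g g' : Gam F m} (h : v1 g.1 = v1 g'.1) : ∃ s, g' = g * uP m s := by
  obtain ⟨z, hd, hb⟩ := eq_imp h
  have e1 : (toK F g.1 * dt F)⁻¹ * (toK F g'.1 * dt F) =
      (dt F)⁻¹ * toK F (g.1⁻¹ * g'.1) * dt F := by
    rw [← toK_inv_mul]; group
  rw [e1] at hd hb
  have e2 : ((dt F)⁻¹ * toK F (g.1⁻¹ * g'.1) * dt F).1.det = 1 := by
    rw [Units.val_mul, Units.val_mul, Matrix.det_mul, Matrix.det_mul, toK_det, mul_one,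
      ← Matrix.det_mul, ← Units.val_mul, inv_mul_cancel, Units.val_one, Matrix.det_one]
  rw [e2, map_one, ← exp_zero, exp_inj] at hd
  have hz : z = 0 := by omega
  subst hz
  set k := g.1⁻¹ * g'.1 with hk
  set y := ((dt F)⁻¹ * toK F k * dt F) with hy
  have h1 : dt F * y = toK F k * dt F := by rw [hy]; group
  have h2 : ∀ i j, ((dt F).1 * y.1) i j = ((toK F k).1 * (dt F).1) i j := by
    intro i j
    rw [← Units.val_mul, h1, Units.val_mul]
  have hX : polK F X ≠ 0 := polK_ne F X_ne_zero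
  have d00 : (k 0 0).natDegree ≤ 0 := by
    apply val_le_nat (k := 0)
    have := h2 0 0
    rw [(dt_mul _).1, (mul_dt _).1, mul_comm] at this
    have h3 := mul_right_cancel₀ hX this
    show val F ((toK F k).1 0 0) ≤ _
    rw [← h3]
    exact hb 0 0
  have d01 : (k 0 1).natDegree ≤ 1 := by
    apply val_le_nat (k := 1)
    have := h2 0 1
    rw [(dt_mul _).1, (mul_dt _).2] at this
    show val F ((toK F k).1 0 1) ≤ _
    rw [← this, map_mul, val_X]
    calc exp 1 * val F (y.1 0 1) ≤ exp 1 * exp 0 := mul_le_mul_right (hb 0 1) _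
      _ = exp ((1 : ℕ) : ℤ) := by rw [exp_zero, mul_one]; rfl
  have d11 : (k 1 1).natDegree ≤ 0 := by
    apply val_le_nat (k := 0)
    have := h2 1 1
    rw [(dt_mul _).2, (mul_dt _).2] at this
    show val F ((toK F k).1 1 1) ≤ _
    rw [← this]
    exact hb 1 1
  have d10 : k 1 0 = 0 := by
    by_contra h0
    have := h2 1 0
    rw [(dt_mul _).2, (mul_dt _).1] at this
    have h3 := hb 1 0
    rw [this] at h3
    have h4 : val F (polK F (k 1 0) * polK F X) ≤ exp 0 := h3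
    rw [← map_mul, val_polK F (mul_ne_zero h0 X_ne_zero), natDegree_mul_X h0, exp_le_exp] at h4
    push_cast at h4
    omega
  obtain ⟨s, hs⟩ := eq_uP (g⁻¹ * g') d00 d01 d10 d11
  exact ⟨s, by rw [← hs]; group⟩

theorem v0_ne_v1 (g g' : SpecialLinearGroup (Fin 2) F[X]) : v0 g ≠ v1 g' := by
  intro h
  obtain ⟨z, hd, hb⟩ := eq_imp h
  have e1 : (toK F g)⁻¹ * (toK F g' * dt F) = toK F (g⁻¹ * g') * dt F := by
    rw [← toK_inv_mul]; group
  rw [e1, Units.val_mul, Matrix.det_mul, toK_det, one_mul, dt_det, val_X, exp_inj] at hd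
  omega

/-! ## neighbours -/

theorem adj01 {m : ℕ} {g g' : Gam F m} (h : AdjT (v0 g.1) (v1 g'.1)) :
    ∃ x, v1 g'.1 = v1 (g * eP m x).1 := by
  obtain ⟨z, hd, hb⟩ := adj_imp h
  have e1 : (toK F g.1)⁻¹ * (toK F g'.1 * dt F) = toK F (g.1⁻¹ * g'.1) * dt F := by
    rw [← toK_inv_mul]; group
  rw [e1] at hd hb
  rw [Units.val_mul, Matrix.det_mul, toK_det, one_mul, dt_det, val_X, exp_inj] at hd
  have hz : z = 0 := by omega
  subst hz
  rw [zero_add] at hb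
  obtain ⟨d00, d10, d01, d11⟩ := ent_mul_dt hb
  obtain ⟨x, s, hxs⟩ := eq_eu (g⁻¹ * g') d00 d01 d10
  refine ⟨x, ?_⟩
  have h2 : g' = g * eP m x * uP m s := by rw [mul_assoc, ← hxs]; group
  rw [h2, v1_mul_uP]

theorem adj10 {m : ℕ} {g g' : Gam F m} (h : AdjT (v1 g.1) (v0 g'.1)) :
    ∃ s, v0 g'.1 = v0 (g * uP m s).1 := by
  obtain ⟨z, hd, hb⟩ := adj_imp h
  have e1 : (toK F g.1 * dt F)⁻¹ * toK F g'.1 = (dt F)⁻¹ * toK F (g.1⁻¹ * g'.1) := by
    rw [← toK_inv_mul]; group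
  rw [e1] at hd hb
  have e2 : val F (((dt F)⁻¹ * toK F (g.1⁻¹ * g'.1)).1.det) * exp 1 = 1 := by
    rw [Units.val_mul, Matrix.det_mul, toK_det, mul_one, ← val_X (F := F), ← dt_det, ← map_mul,
      ← Matrix.det_mul, ← Units.val_mul, inv_mul_cancel, Units.val_one, Matrix.det_one, map_one]
  rw [hd, ← exp_add, ← exp_zero, exp_inj] at e2
  have hz : z = -1 := by omega
  subst hz
  have hb' : Bd ((dt F)⁻¹ * toK F (g.1⁻¹ * g'.1)).1 0 := hb
  obtain ⟨d10, d11, d00, d01⟩ := ent_dt_mul hb'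
  obtain ⟨s, x, hsx⟩ := eq_ue (g⁻¹ * g') d11 d01 d10
  refine ⟨s, ?_⟩
  have h2 : g' = g * uP m s * eP m x := by rw [mul_assoc, ← hsx]; group
  rw [h2, v0_mul_eP]

theorem not_adj00 (g g' : SpecialLinearGroup (Fin 2) F[X]) : ¬ AdjT (v0 g) (v0 g') := by
  intro h
  obtain ⟨z, hd, hb⟩ := adj_imp h
  rw [toK_inv_mul, toK_det, map_one, ← exp_zero, exp_inj] at hd
  omega

theorem not_adj11 (g g' : SpecialLinearGroup (Fin 2) F[X]) : ¬ AdjT (v1 g) (v1 g') := by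
  intro h
  obtain ⟨z, hd, hb⟩ := adj_imp h
  have e1 : (toK F g * dt F)⁻¹ * (toK F g' * dt F) = (dt F)⁻¹ * toK F (g⁻¹ * g') * dt F := by
    rw [← toK_inv_mul]; group
  have e2 : ((dt F)⁻¹ * toK F (g⁻¹ * g') * dt F).1.det = 1 := by
    rw [Units.val_mul, Units.val_mul, Matrix.det_mul, Matrix.det_mul, toK_det, mul_one,
      ← Matrix.det_mul, ← Units.val_mul, inv_mul_cancel, Units.val_one, Matrix.det_one]
  rw [e1, e2, map_one, ← exp_zero, exp_inj] at hd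
  omega

theorem adj_v0_v1 (g : SpecialLinearGroup (Fin 2) F[X]) : AdjT (v0 g) (v1 g) :=
  ⟨toK F g, rfl, rfl⟩

/-- the matrix `(0 -1; 1 0)` -/
def kW : SpecialLinearGroup (Fin 2) (Kinf F) := sl 0 (-1) 1 0 (by ring)

theorem kW_mem : SpecialLinearGroup.toGL (kW (F := F)) ∈ HO F := by
  apply toGL_mem
  intro i j
  fin_cases i <;> fin_cases j
  · show val F 0 ≤ 1
    simp
  · show val F (-1) ≤ 1
    rw [Valuation.map_neg]
    simp
  · show val F 1 ≤ 1
    simp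
  · show val F 0 ≤ 1
    simp

theorem dt_kW_dt : dt F * SpecialLinearGroup.toGL (kW (F := F)) * dt F =
    GeneralLinearGroup.scalar (Fin 2) (Units.mk0 (polK F X) (polK_ne F X_ne_zero)) *
      SpecialLinearGroup.toGL (kW (F := F)) := by
  apply Units.ext
  rw [Units.val_mul, Units.val_mul, Units.val_mul, GeneralLinearGroup.coe_scalar]
  ext i j
  rw [Matrix.scalar_apply, Matrix.diagonal_mul]
  fin_cases i <;> fin_cases j
  · show ((dt F).1 * (SpecialLinearGroup.toGL (kW (F := F))).1 * (dt F).1) 0 0 = _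
    rw [(mul_dt _).1, (dt_mul _).1]
    show polK F X * 0 * polK F X = polK F X * 0
    ring
  · show ((dt F).1 * (SpecialLinearGroup.toGL (kW (F := F))).1 * (dt F).1) 0 1 = _
    rw [(mul_dt _).2, (dt_mul _).1]
    rfl
  · show ((dt F).1 * (SpecialLinearGroup.toGL (kW (F := F))).1 * (dt F).1) 1 0 = _
    rw [(mul_dt _).1, (dt_mul _).2]
    show 1 * polK F X = polK F X * 1
    ring
  · show ((dt F).1 * (SpecialLinearGroup.toGL (kW (F := F))).1 * (dt F).1) 1 1 = _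
    rw [(mul_dt _).2, (dt_mul _).2]
    show 0 = polK F X * 0
    ring

theorem adj_v1_v0 (g : SpecialLinearGroup (Fin 2) F[X]) : AdjT (v1 g) (v0 g) := by
  refine ⟨toK F g * dt F * SpecialLinearGroup.toGL (kW (F := F)), ?_, ?_⟩
  · unfold v1
    symm
    rw [QuotientGroup.eq, inv_mul_cancel_left]
    exact kW_mem
  · unfold v0
    symm
    rw [QuotientGroup.eq]
    have h1 : (toK F g)⁻¹ * (toK F g * dt F * SpecialLinearGroup.toGL (kW (F := F)) * dt F) =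
        dt F * SpecialLinearGroup.toGL (kW (F := F)) * dt F := by group
    rw [h1, dt_kW_dt]
    refine Subgroup.mul_mem _ (Subgroup.mem_sup_left ?_) kW_mem
    rw [GeneralLinearGroup.mem_center_iff_val_mem_range_scalar]
    exact ⟨polK F X, rfl⟩

end

end Anq13
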