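import Mathlib
import Pool.Agent.Anq13.TreeStab

/-!
# MP_d4d904_co : functions on the tree from functions on the group
-/

namespace Anq13

open Polynomial Matrix WithZero

noncomputable section

variable {F : Type} [Field F]

open Classical in
/-- the function on the tree given by two functions on the group, zero off the two orbits -/
def extT {m : ℕ} (Phi Psi : Gs F m → ℝ) (v : Vert F) : ℝ :=
  if h : ∃ g : Gam F m, v0 g.1 = v then Phi (pr F m h.choose)
  else if h : ∃ g : Gam F m, v1 g.1 = v then Psi (pr F m h.choose) else 0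

section
variable {m : ℕ} {Phi Psi : Gs F m → ℝ}

theorem extT_v0 (hE : ∀ k x, Phi (k * eG m x) = Phi k) (g : Gam F m) :
    extT Phi Psi (v0 g.1) = Phi (pr F m g) := by
  have h : ∃ g' : Gam F m, v0 g'.1 = v0 g.1 := ⟨g, rfl⟩
  unfold extT
  rw [dif_pos h]
  obtain ⟨x, hx⟩ := stab0 h.choose_spec
  have h2 : pr F m g = pr F m h.choose * eG m x := by
    conv_lhs => rw [hx]
    rw [map_mul]; rfl
  rw [h2, hE]

theorem extT_v1 (hU : ∀ k s, Psi (k * uG m s) = Psi k) (g : Gam F m) :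
    extT Phi Psi (v1 g.1) = Psi (pr F m g) := by
  have h0 : ¬ ∃ g' : Gam F m, v0 g'.1 = v1 g.1 := fun ⟨g', h⟩ => v0_ne_v1 _ _ h
  have h : ∃ g' : Gam F m, v1 g'.1 = v1 g.1 := ⟨g, rfl⟩
  unfold extT
  rw [dif_neg h0, dif_pos h]
  obtain ⟨x, hx⟩ := stab1 h.choose_spec
  have h2 : pr F m g = pr F m h.choose * uG m x := by
    conv_lhs => rw [hx]
    rw [map_mul]; rfl
  rw [h2, hU]

theorem extT_ne {v : Vert F} (h : extT Phi Psi v ≠ 0) :
    (∃ g : Gam F m, v0 g.1 = v) ∨ ∃ g : Gam F m, v1 g.1 = v := by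
  by_contra hc
  push Not at hc
  apply h
  unfold extT
  rw [dif_neg (by push Not; exact hc.1), dif_neg (by push Not; exact hc.2)]

theorem ent10_e (x : F) : ((eP m x : Gam F m).1) 1 0 = C x := rfl

theorem v1_eP_inj (g : Gam F m) : Function.Injective (fun x : F => v1 (g * eP m x).1) := by
  intro x x' h
  obtain ⟨s, hs⟩ := stab1 (g := g * eP m x) (g' := g * eP m x') h
  rw [mul_assoc] at hs
  have h1 := mul_left_cancel hs
  have h2 : ((eP m x' : Gam F m).1) 1 0 = ((eP m x * uP m s : Gam F m).1) 1 0 := by rw [h1]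
  rw [Subgroup.coe_mul, mul_10] at h2
  simp only [eP, uP, sl_10, sl_11, sl_00] at h2
  rw [mul_one, mul_zero, add_zero] at h2
  exact (C_injective h2).symm

theorem v0_uP_inj (g : Gam F m) : Function.Injective (fun s : F => v0 (g * uP m s).1) := by
  intro s s' h
  obtain ⟨x, hx⟩ := stab0 (g := g * uP m s) (g' := g * uP m s') h
  rw [mul_assoc] at hx
  have h1 := mul_left_cancel hx
  have h2 : ((uP m s' : Gam F m).1) 0 1 = ((uP m s * eP m x : Gam F m).1) 0 1 := by rw [h1]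
  rw [Subgroup.coe_mul, mul_01] at h2
  simp only [eP, uP, sl_01, sl_11, sl_00] at h2
  rw [mul_zero, zero_add, mul_one, neg_inj] at h2
  have h3 := congrArg (fun p : F[X] => p.coeff 1) h2
  simp at h3
  exact h3.symm

theorem hecke_v0 [Fintype F] (hU : ∀ k s, Psi (k * uG m s) = Psi k) (g : Gam F m) :
    hecke (extT Phi Psi) (v0 g.1) = ∑ x : F, Psi (pr F m g * eG m x) := by
  unfold hecke heckeC
  have h1 : ({w | AdjC (dt F) (v0 g.1) w} : Set (Vert F)) ∩ Function.support (extT Phi Psi) =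
      Set.range (fun x : F => v1 (g * eP m x).1) ∩ Function.support (extT Phi Psi) := by
    ext w
    constructor
    · rintro ⟨ha, hs⟩
      refine ⟨?_, hs⟩
      rcases extT_ne hs with ⟨g', rfl⟩ | ⟨g', rfl⟩
      · exact absurd ha (not_adj00 _ _)
      · obtain ⟨x, hx⟩ := adj01 ha
        exact ⟨x, hx.symm⟩
    · rintro ⟨⟨x, rfl⟩, hs⟩
      refine ⟨?_, hs⟩
      show AdjT (v0 g.1) (v1 (g * eP m x).1)
      rw [← v0_mul_eP g x]
      exact adj_v0_v1 _
  rw [finsum_mem_inter_support_eq _ _ _ h1, finsum_mem_range (v1_eP_inj g),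
    finsum_eq_sum_of_fintype]
  refine Finset.sum_congr rfl ?_
  intro x _
  rw [extT_v1 hU, map_mul]
  rfl

theorem hecke_v1 [Fintype F] (hE : ∀ k x, Phi (k * eG m x) = Phi k) (g : Gam F m) :
    hecke (extT Phi Psi) (v1 g.1) = ∑ s : F, Phi (pr F m g * uG m s) := by
  unfold hecke heckeC
  have h1 : ({w | AdjC (dt F) (v1 g.1) w} : Set (Vert F)) ∩ Function.support (extT Phi Psi) =
      Set.range (fun s : F => v0 (g * uP m s).1) ∩ Function.support (extT Phi Psi) := by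
    ext w
    constructor
    · rintro ⟨ha, hs⟩
      refine ⟨?_, hs⟩
      rcases extT_ne hs with ⟨g', rfl⟩ | ⟨g', rfl⟩
      · obtain ⟨x, hx⟩ := adj10 ha
        exact ⟨x, hx.symm⟩
      · exact absurd ha (not_adj11 _ _)
    · rintro ⟨⟨x, rfl⟩, hs⟩
      refine ⟨?_, hs⟩
      show AdjT (v1 g.1) (v0 (g * uP m x).1)
      rw [← v1_mul_uP g x]
      exact adj_v1_v0 _
  rw [finsum_mem_inter_support_eq _ _ _ h1, finsum_mem_range (v0_uP_inj g),
    finsum_eq_sum_of_fintype]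
  refine Finset.sum_congr rfl ?_
  intro x _
  rw [extT_v0 hE, map_mul]
  rfl

end

/-! ## the congruence subgroup -/

theorem Gamma_elim {m : ℕ} (γ : Gamma F (m + 1)) :
    ∃ h : Gam F m, pr F m h = 1 ∧ γ.1 = toK F h.1 := by
  obtain ⟨h, hh, he⟩ := γ.2
  have h1 : SpecialLinearGroup.map (AdjoinRoot.mk (X ^ (m + 1) : F[X])) h = 1 := hh
  have h2 : h ∈ Gam F m := by
    show SpecialLinearGroup.map (AdjoinRoot.mk (X ^ (m + 1) : F[X])) h ∈ Gs F m
    rw [h1]
    exact (Gs F m).one_mem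
  refine ⟨⟨h, h2⟩, ?_, he.symm⟩
  apply Subtype.ext
  exact h1

theorem Gamma_intro {m : ℕ} {h : Gam F m} (hh : pr F m h = 1) : toK F h.1 ∈ Gamma F (m + 1) := by
  refine ⟨h.1, ?_, rfl⟩
  have := congrArg Subtype.val hh
  exact this

theorem smul_v0 {m : ℕ} (γ : Gamma F (m + 1)) (h g : Gam F m) (he : γ.1 = toK F h.1) :
    γ • (v0 g.1 : Vert F) = v0 (h * g).1 := by
  have h1 : γ • (v0 g.1 : Vert F) = ((γ.1 * toK F g.1 : GL (Fin 2) (Kinf F)) : Vert F) := rfl
  rw [h1, he, ← map_mul]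
  rfl

theorem smul_v1 {m : ℕ} (γ : Gamma F (m + 1)) (h g : Gam F m) (he : γ.1 = toK F h.1) :
    γ • (v1 g.1 : Vert F) = v1 (h * g).1 := by
  have h1 : γ • (v1 g.1 : Vert F) = ((γ.1 * (toK F g.1 * dt F) : GL (Fin 2) (Kinf F)) : Vert F) :=
    rfl
  rw [h1, he, ← mul_assoc, ← map_mul]
  rfl

theorem extT_inv {m : ℕ} {Phi Psi : Gs F m → ℝ} (hE : ∀ k x, Phi (k * eG m x) = Phi k)
    (hU : ∀ k s, Psi (k * uG m s) = Psi k) (γ : Gamma F (m + 1)) (v : Vert F) :
    extT Phi Psi (γ • v) = extT Phi Psi v := by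
  obtain ⟨h, hp, he⟩ := Gamma_elim γ
  have key : ∀ g : Gam F m, pr F m (h * g) = pr F m g := by
    intro g
    rw [map_mul, hp, one_mul]
  by_cases h0 : ∃ g : Gam F m, v0 g.1 = v
  · obtain ⟨g, rfl⟩ := h0
    rw [smul_v0 γ h g he, extT_v0 hE, extT_v0 hE, key]
  · by_cases h1 : ∃ g : Gam F m, v1 g.1 = v
    · obtain ⟨g, rfl⟩ := h1
      rw [smul_v1 γ h g he, extT_v1 hU, extT_v1 hU, key]
    · have hz : extT Phi Psi v = 0 := by
        by_contra hne
        rcases extT_ne hne with h2 | h2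
        · exact h0 h2
        · exact h1 h2
      rw [hz]
      by_contra hne
      obtain ⟨h', hp', he'⟩ := Gamma_elim γ⁻¹
      rcases extT_ne hne with ⟨g, hg⟩ | ⟨g, hg⟩
      · apply h0
        refine ⟨h' * g, ?_⟩
        rw [← smul_v0 γ⁻¹ h' g he', hg, inv_smul_smul]
      · apply h1
        refine ⟨h' * g, ?_⟩
        rw [← smul_v1 γ⁻¹ h' g he', hg, inv_smul_smul]

end

end Anq13
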