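import Mathlib
import Pool.Agent.Anq13.Lam

/-!
# MP_d4d904_co : the second eigenvector of A(n,q), real valued and of sum zero on both sides
-/

namespace Anq13

open Polynomial Matrix

variable {F : Type} [Field F]

open Classical in
/-- the largest eigenvalue is at most `q` -/
theorem lam1_le [Fintype F] (n : ℕ) :
    (adjA_herm F (n + 1)).eigenvalues₀ ⟨0, lt_trans Nat.zero_lt_one (one_lt_card F (n + 1))⟩ ≤
      (Fintype.card F : ℝ) := by
  classical
  have hq := adjA_one (F := F) (n + 1) (Nat.succ_pos n)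
  have hnn : ∀ i j, 0 ≤ adjA F (n + 1) i j := by
    intro i j
    rcases i with p | l <;> rcases j with p' | l'
    · rw [adj_pp42]
    · rw [adj_pl42]; split_ifs <;> norm_num
    · rw [adj_lp42]; split_ifs <;> norm_num
    · rw [adj_ll42]
  set hA := adjA_herm F (n + 1)
  set k : Fin (Fintype.card ((Fin (n + 1) → F) ⊕ (Fin (n + 1) → F))) :=
    ⟨0, lt_trans Nat.zero_lt_one (one_lt_card F (n + 1))⟩
  set j := (Fintype.equivOfCardEq (Fintype.card_fin
    (Fintype.card ((Fin (n + 1) → F) ⊕ (Fin (n + 1) → F))))) k with hj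
  have h1 : hA.eigenvalues j = hA.eigenvalues₀ k := by
    rw [Matrix.IsHermitian.eigenvalues, hj, Equiv.symm_apply_apply]
  rw [← h1]
  refine eig_le (adjA F (n + 1)) hnn _ hq (⇑(hA.eigenvectorBasis j)) ?_ _
    (hA.mulVec_eigenvectorBasis j)
  intro h0
  have h2 := hA.eigenvectorBasis.orthonormal.ne_zero j
  apply h2
  ext i
  exact congrFun h0 i

/-- the second eigenvalue is greater than `-q` -/
theorem lam2_gt [Fintype F] (n : ℕ) : -(Fintype.card F : ℝ) < lam2 F (n + 1) := by
  classical
  by_contra hcon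
  push Not at hcon
  set hA := adjA_herm F (n + 1) with hhA
  set V := ((Fin (n + 1) → F) ⊕ (Fin (n + 1) → F)) with hV
  have htr : ∑ i, hA.eigenvalues i = 0 := by
    have h := hA.trace_eq_sum_eigenvalues
    have h2 : (adjA F (n + 1)).trace = 0 := by
      unfold adjA
      rw [SimpleGraph.trace_adjMatrix]
    rw [h2] at h
    exact_mod_cast h.symm
  have htr0 : ∑ k, hA.eigenvalues₀ k = 0 := by
    rw [← htr]
    symm
    unfold Matrix.IsHermitian.eigenvalues
    exact Equiv.sum_comp (Fintype.equivOfCardEq (Fintype.card_fin (Fintype.card V))).symm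
      hA.eigenvalues₀
  have hq0 : (1 : ℝ) < (Fintype.card F : ℝ) := by exact_mod_cast Fintype.one_lt_card
  set z : Fin (Fintype.card V) := ⟨0, lt_trans Nat.zero_lt_one (one_lt_card F (n + 1))⟩ with hz
  have h1 := lam1_le (F := F) n
  rw [← Finset.add_sum_erase _ _ (Finset.mem_univ z)] at htr0
  have h2 : ∑ k ∈ Finset.univ.erase z, hA.eigenvalues₀ k ≤
      ∑ k ∈ (Finset.univ.erase z : Finset (Fin (Fintype.card V))), (-(Fintype.card F : ℝ)) := by
    apply Finset.sum_le_sum
    intro k hk
    refine le_trans (hA.eigenvalues₀_antitone ?_) hcon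
    rw [Finset.mem_erase] at hk
    show (⟨1, one_lt_card F (n + 1)⟩ : Fin (Fintype.card V)) ≤ k
    rw [Fin.le_def]
    have : (k : ℕ) ≠ 0 := by
      intro h3
      exact hk.1 (Fin.ext h3)
    show 1 ≤ (k : ℕ)
    omega
  rw [Finset.sum_const, Finset.card_erase_of_mem (Finset.mem_univ z), Finset.card_univ,
    Fintype.card_fin, nsmul_eq_mul] at h2
  have h3 : 2 < Fintype.card V := by
    show 2 < Fintype.card ((Fin (n + 1) → F) ⊕ (Fin (n + 1) → F))
    rw [Fintype.card_sum, Fintype.card_fun, Fintype.card_fin, pow_succ]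
    have h4 : 1 < Fintype.card F := Fintype.one_lt_card
    have h5 : 0 < Fintype.card F ^ n := pow_pos (by omega) n
    nlinarith
  have h6 : (2 : ℝ) ≤ ((Fintype.card V - 1 : ℕ) : ℝ) := by
    have : 2 ≤ Fintype.card V - 1 := by omega
    exact_mod_cast this
  nlinarith

open Classical in
/-- a real eigenpair for the second eigenvalue, of sum zero on both sides -/
theorem lam2_real [Fintype F] (n : ℕ) :
    ∃ f g : (Fin (n + 1) → F) → ℝ, ¬ (f = 0 ∧ g = 0) ∧
      (∀ l, ∑ p ∈ Finset.univ.filter (fun p : Fin (n + 1) → F => Inc p l), f p =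
        lam2 F (n + 1) * g l) ∧
      (∀ p, ∑ l ∈ Finset.univ.filter (fun l : Fin (n + 1) → F => Inc p l), g l =
        lam2 F (n + 1) * f p) ∧ ∑ p, f p = 0 ∧ ∑ l, g l = 0 := by
  obtain ⟨f, g, hne, hE, hs⟩ := lam2_eigA (F := F) n
  set L := lam2 F (n + 1) with hL
  have key : ∃ f' g' : (Fin (n + 1) → F) → ℝ, ¬ (f' = 0 ∧ g' = 0) ∧
      (∀ l, ∑ p ∈ Finset.univ.filter (fun p : Fin (n + 1) → F => Inc p l), f' p = L * g' l) ∧
      (∀ p, ∑ l ∈ Finset.univ.filter (fun l : Fin (n + 1) → F => Inc p l), g' l = L * f' p) ∧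
      ∑ p, f' p + ∑ l, g' l = 0 := by
    by_cases hre : (fun p => (f p).re) = 0 ∧ (fun l => (g l).re) = 0
    · refine ⟨fun p => (f p).im, fun l => (g l).im, ?_, ?_, ?_, ?_⟩
      · rintro ⟨h1, h2⟩
        apply hne
        constructor
        · funext p
          exact Complex.ext (congrFun hre.1 p) (congrFun h1 p)
        · funext l
          exact Complex.ext (congrFun hre.2 l) (congrFun h2 l)
      · intro l
        have h := congrArg Complex.im (hE.sumP l)
        rw [Complex.im_sum, Complex.im_ofReal_mul] at h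
        exact h
      · intro p
        have h := congrArg Complex.im (hE.sumL p)
        rw [Complex.im_sum, Complex.im_ofReal_mul] at h
        exact h
      · have h := congrArg Complex.im hs
        rw [Complex.add_im, Complex.im_sum, Complex.im_sum] at h
        exact h
    · refine ⟨fun p => (f p).re, fun l => (g l).re, hre, ?_, ?_, ?_⟩
      · intro l
        have h := congrArg Complex.re (hE.sumP l)
        rw [Complex.re_sum, Complex.re_ofReal_mul] at h
        exact h
      · intro p
        have h := congrArg Complex.re (hE.sumL p)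
        rw [Complex.re_sum, Complex.re_ofReal_mul] at h
        exact h
      · have h := congrArg Complex.re hs
        rw [Complex.add_re, Complex.re_sum, Complex.re_sum] at h
        exact h
  obtain ⟨f', g', hne', hP, hLL, hs'⟩ := key
  have hgt := lam2_gt (F := F) n
  have h1 : (Fintype.card F : ℝ) * ∑ p, f' p = L * ∑ l, g' l := by
    rw [Finset.mul_sum, Finset.mul_sum]
    simp only [← hP, Finset.sum_filter]
    rw [Finset.sum_comm]
    refine Finset.sum_congr rfl ?_
    intro p _
    rw [← Finset.sum_filter, Finset.sum_const, card_lin42 (Nat.succ_pos n) p, nsmul_eq_mul]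
  have h2 : ((Fintype.card F : ℝ) + L) * ∑ l, g' l = 0 := by
    have h3 : ∑ p, f' p = - ∑ l, g' l := by linarith
    rw [h3] at h1
    linarith
  have h4 : ∑ l, g' l = 0 := by
    rcases mul_eq_zero.1 h2 with h5 | h5
    · linarith
    · exact h5
  exact ⟨f', g', hne', hP, hLL, by linarith, h4⟩

end Anq13
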