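import Mathlib
import Pool.Agent.Anq13.TreeFun

/-!
# MP_d4d904_co : orbits of the congruence subgroup
-/

namespace Anq13

open Polynomial Matrix WithZero

noncomputable section

variable {F : Type} [Field F]

/-! ## the reduction modulo `X^(m+1)` is surjective -/

/-- `(1 r; 0 1)` -/
def e12 {R : Type*} [CommRing R] (r : R) : SpecialLinearGroup (Fin 2) R := sl 1 r 0 1 (by ring)

/-- `(1 0; r 1)` -/
def e21 {R : Type*} [CommRing R] (r : R) : SpecialLinearGroup (Fin 2) R := sl 1 0 r 1 (by ring)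

theorem map_e12 {R S : Type*} [CommRing R] [CommRing S] (f : R →+* S) (r : R) :
    SpecialLinearGroup.map f (e12 r) = e12 (f r) := by
  apply sl_ext
  · show f 1 = 1; simp
  · rfl
  · show f 0 = 0; simp
  · show f 1 = 1; simp

theorem map_e21 {R S : Type*} [CommRing R] [CommRing S] (f : R →+* S) (r : R) :
    SpecialLinearGroup.map f (e21 r) = e21 (f r) := by
  apply sl_ext
  · show f 1 = 1; simp
  · show f 0 = 0; simp
  · rfl
  · show f 1 = 1; simp

theorem me12 {R : Type*} [CommRing R] (k : SpecialLinearGroup (Fin 2) R) (r : R) :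
    (k * e12 r) 0 0 = k 0 0 ∧ (k * e12 r) 0 1 = k 0 0 * r + k 0 1 ∧
      (k * e12 r) 1 0 = k 1 0 ∧ (k * e12 r) 1 1 = k 1 0 * r + k 1 1 := by
  refine ⟨?_, ?_, ?_, ?_⟩
  · rw [mul_00]; simp [e12]
  · rw [mul_01]; simp [e12]
  · rw [mul_10]; simp [e12]
  · rw [mul_11]; simp [e12]

theorem me21 {R : Type*} [CommRing R] (k : SpecialLinearGroup (Fin 2) R) (r : R) :
    (k * e21 r) 0 0 = k 0 0 + k 0 1 * r ∧ (k * e21 r) 0 1 = k 0 1 ∧
      (k * e21 r) 1 0 = k 1 0 + k 1 1 * r ∧ (k * e21 r) 1 1 = k 1 1 := by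
  refine ⟨?_, ?_, ?_, ?_⟩
  · rw [mul_00]; simp [e21]
  · rw [mul_01]; simp [e21]
  · rw [mul_10]; simp [e21]
  · rw [mul_11]; simp [e21]

theorem diag_eq {R : Type*} [CommRing R] (s d : R) (h : s * d = 1) :
    sl s 0 0 d (by rw [h]; ring) = e12 s * e21 (-d) * e12 s * e12 (-1) * e21 1 * e12 (-1) := by
  obtain ⟨a1, a2, a3, a4⟩ := me21 (e12 s) (-d)
  obtain ⟨b1, b2, b3, b4⟩ := me12 (e12 s * e21 (-d)) s
  obtain ⟨c1, c2, c3, c4⟩ := me12 (e12 s * e21 (-d) * e12 s) (-1)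
  obtain ⟨d1, d2, d3, d4⟩ := me21 (e12 s * e21 (-d) * e12 s * e12 (-1)) 1
  obtain ⟨f1, f2, f3, f4⟩ := me12 (e12 s * e21 (-d) * e12 s * e12 (-1) * e21 1) (-1)
  have g1 : (e12 s : SpecialLinearGroup (Fin 2) R) 0 0 = 1 := rfl
  have g2 : (e12 s : SpecialLinearGroup (Fin 2) R) 0 1 = s := rfl
  have g3 : (e12 s : SpecialLinearGroup (Fin 2) R) 1 0 = 0 := rfl
  have g4 : (e12 s : SpecialLinearGroup (Fin 2) R) 1 1 = 1 := rfl
  rw [g1, g2] at a1
  rw [g2] at a2
  rw [g3, g4] at a3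
  rw [g4] at a4
  rw [a1] at b1
  rw [a1, a2] at b2
  rw [a3] at b3
  rw [a3, a4] at b4
  rw [b1] at c1
  rw [b1, b2] at c2
  rw [b3] at c3
  rw [b3, b4] at c4
  rw [c1, c2] at d1
  rw [c2] at d2
  rw [c3, c4] at d3
  rw [c4] at d4
  rw [d1] at f1
  rw [d1, d2] at f2
  rw [d3] at f3
  rw [d3, d4] at f4
  apply sl_ext
  · rw [f1, sl_00]
    linear_combination s * h
  · rw [f2, sl_01]
    linear_combination (-1 : R) * h
  · rw [f3, sl_10]
    linear_combination h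
  · rw [f4, sl_11]
    ring

theorem gauss_eq {R : Type*} [CommRing R] (k : SpecialLinearGroup (Fin 2) R) (s : R)
    (h : s * k 1 1 = 1) :
    k = e12 (k 0 1 * s) * sl s 0 0 (k 1 1) (by rw [h]; ring) * e21 (k 1 0 * s) := by
  have hd := det_eq k
  apply sl_ext
  · rw [mul_00, mul_00, mul_01]
    simp [e12, e21]
    linear_combination (-k 0 0) * h + s * hd - k 0 1 * s * k 1 0 * h
  · rw [mul_01, mul_00, mul_01]
    simp [e12, e21]
    linear_combination (-k 0 1) * h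
  · rw [mul_10, mul_10, mul_11]
    simp [e12, e21]
    linear_combination (-k 1 0) * h
  · rw [mul_11, mul_10, mul_11]
    simp [e12, e21]

theorem pr_surj (m : ℕ) : Function.Surjective (pr F m) := by
  intro k
  obtain ⟨s, hs, -⟩ := exists_inv (k.1 1 1) ((mem_Gs k.1).1 k.2).2.2
  rw [mul_comm] at hs
  have h1 : ∀ r : Rg F m, ∃ g : SpecialLinearGroup (Fin 2) F[X],
      SpecialLinearGroup.map (AdjoinRoot.mk (X ^ (m + 1) : F[X])) g = e12 r := by
    intro r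
    obtain ⟨f, rfl⟩ := exists_mk r
    exact ⟨e12 f, map_e12 _ _⟩
  have h2 : ∀ r : Rg F m, ∃ g : SpecialLinearGroup (Fin 2) F[X],
      SpecialLinearGroup.map (AdjoinRoot.mk (X ^ (m + 1) : F[X])) g = e21 r := by
    intro r
    obtain ⟨f, rfl⟩ := exists_mk r
    exact ⟨e21 f, map_e21 _ _⟩
  obtain ⟨g, hg⟩ : ∃ g : SpecialLinearGroup (Fin 2) F[X],
      SpecialLinearGroup.map (AdjoinRoot.mk (X ^ (m + 1) : F[X])) g = k.1 := by
    rw [gauss_eq k.1 s hs, diag_eq _ _ hs]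
    obtain ⟨g1, hg1⟩ := h1 (k.1 0 1 * s)
    obtain ⟨g2, hg2⟩ := h1 s
    obtain ⟨g3, hg3⟩ := h2 (-k.1 1 1)
    obtain ⟨g4, hg4⟩ := h1 (-1)
    obtain ⟨g5, hg5⟩ := h2 1
    obtain ⟨g6, hg6⟩ := h2 (k.1 1 0 * s)
    refine ⟨g1 * (g2 * g3 * g2 * g4 * g5 * g4) * g6, ?_⟩
    rw [map_mul, map_mul, map_mul, map_mul, map_mul, map_mul, map_mul, hg1, hg2, hg3, hg4, hg5,
      hg6]
  have hg2 : g ∈ Gam F m := by
    show SpecialLinearGroup.map (AdjoinRoot.mk (X ^ (m + 1) : F[X])) g ∈ Gs F m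
    rw [hg]
    exact k.2
  refine ⟨⟨g, hg2⟩, ?_⟩
  apply Subtype.ext
  exact hg

/-- a lift of an element of the finite group -/
def lft {m : ℕ} (k : Gs F m) : Gam F m := (pr_surj m k).choose

theorem pr_lft {m : ℕ} (k : Gs F m) : pr F m (lft k) = k := (pr_surj m k).choose_spec

/-! ## injectivity of the letters -/

theorem eG_one {m : ℕ} {x : F} (h : eG m x = 1) : x = 0 := by
  have h1 : cf 0 ((eG m x : SpecialLinearGroup (Fin 2) (Rg F m)) 1 0) = 0 := by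
    rw [h, show ((1 : Gs F m) : SpecialLinearGroup (Fin 2) (Rg F m)) 1 0 = 0 by
      rw [Subgroup.coe_one]; simp]
    simp
  have h2 : cf 0 ((eG m x : SpecialLinearGroup (Fin 2) (Rg F m)) 1 0) = x := by
    show cf 0 (mk m (C x)) = x
    rw [cf_mk 0 (Nat.zero_le _)]
    simp
  rw [← h2, h1]

theorem uG_one {m : ℕ} (hm : 1 ≤ m) {s : F} (h : uG m s = 1) : s = 0 := by
  have h1 : cf 1 ((uG m s : SpecialLinearGroup (Fin 2) (Rg F m)) 0 1) = 0 := by
    rw [h, show ((1 : Gs F m) : SpecialLinearGroup (Fin 2) (Rg F m)) 0 1 = 0 by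
      rw [Subgroup.coe_one]; simp]
    simp
  have h2 : cf 1 ((uG m s : SpecialLinearGroup (Fin 2) (Rg F m)) 0 1) = -s := by
    rw [uG_01_31, cf_neg, cf_cs_mul_31 1 hm, cf_mk 1 hm, coeff_X_one, mul_one]
  rw [h1] at h2
  exact (neg_eq_zero.1 h2.symm)

theorem eP_z (m : ℕ) : eP m (0 : F) = 1 := by
  apply Subtype.ext
  apply sl_ext
  · rfl
  · rfl
  · show C (0 : F) = 0; simp
  · rfl

theorem uP_z (m : ℕ) : uP m (0 : F) = 1 := by
  apply Subtype.ext
  apply sl_ext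
  · rfl
  · show -(C (0 : F) * X) = 0; simp
  · rfl
  · rfl

theorem eG_a (m : ℕ) (x y : F) : eG m (x + y) = eG m x * eG m y := by
  unfold eG
  rw [← map_mul]
  congr 1
  apply Subtype.ext
  apply sl_ext
  · rw [Subgroup.coe_mul, mul_00]; simp [eP]
  · rw [Subgroup.coe_mul, mul_01]; simp [eP]
  · rw [Subgroup.coe_mul, mul_10]; simp [eP]
  · rw [Subgroup.coe_mul, mul_11]; simp [eP]

theorem uG_a (m : ℕ) (x y : F) : uG m (x + y) = uG m x * uG m y := by
  unfold uG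
  rw [← map_mul]
  congr 1
  apply Subtype.ext
  apply sl_ext
  · rw [Subgroup.coe_mul, mul_00]; simp [uP]
  · rw [Subgroup.coe_mul, mul_01]; simp [uP]; ring
  · rw [Subgroup.coe_mul, mul_10]; simp [uP]
  · rw [Subgroup.coe_mul, mul_11]; simp [uP]

theorem eG_i {m : ℕ} (k : Gs F m) : Function.Injective (fun x : F => k * eG m x) := by
  intro x y h
  have h1 : eG m x = eG m y := mul_left_cancel h
  have h2 : eG m x = eG m (x - y) * eG m y := by rw [← eG_a, sub_add_cancel]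
  rw [h1] at h2
  have h3 : eG m (x - y) = 1 := mul_eq_right.1 h2.symm
  exact sub_eq_zero.1 (eG_one h3)

theorem uG_i {m : ℕ} (hm : 1 ≤ m) (k : Gs F m) : Function.Injective (fun x : F => k * uG m x) := by
  intro x y h
  have h1 : uG m x = uG m y := mul_left_cancel h
  have h2 : uG m x = uG m (x - y) * uG m y := by rw [← uG_a, sub_add_cancel]
  rw [h1] at h2
  have h3 : uG m (x - y) = 1 := mul_eq_right.1 h2.symm
  exact sub_eq_zero.1 (uG_one hm h3)

/-! ## orbits -/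

/-- the orbits of `Γ(t^(m+1))` -/
abbrev Orb (F : Type) [Field F] (m : ℕ) : Type :=
  MulAction.orbitRel.Quotient (Gamma F (m + 1)) (Vert F)

/-- the orbit of a vertex -/
def orbO (m : ℕ) (v : Vert F) : Orb F m := Quotient.mk _ v

theorem orbO_eq {m : ℕ} {v w : Vert F} :
    orbO m v = orbO m w ↔ ∃ γ : Gamma F (m + 1), γ • w = v := by
  unfold orbO
  rw [Quotient.eq]
  exact MulAction.orbitRel_apply

theorem orbO_out {m : ℕ} (v : Vert F) : ∃ γ : Gamma F (m + 1), γ • v = (orbO m v).out := by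
  rw [← orbO_eq]
  exact Quotient.out_eq _

/-- the vertices over the two kinds of group elements -/
def vv {m : ℕ} : Gs F m ⊕ Gs F m → Vert F
  | Sum.inl k => v0 (lft k).1
  | Sum.inr k => v1 (lft k).1

theorem orb_v0 {m : ℕ} (g g' : Gam F m) :
    orbO m (v0 g.1) = orbO m (v0 g'.1) ↔ ∃ x, pr F m g = pr F m g' * eG m x := by
  rw [orbO_eq]
  constructor
  · rintro ⟨γ, hγ⟩
    obtain ⟨h, hp, he⟩ := Gamma_elim γ
    rw [smul_v0 γ h g' he] at hγ
    obtain ⟨x, hx⟩ := stab0 hγ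
    refine ⟨x, ?_⟩
    rw [hx, map_mul, map_mul, hp, one_mul]
    rfl
  · rintro ⟨x, hx⟩
    have h1 : pr F m (g * (g' * eP m x)⁻¹) = 1 := by
      rw [map_mul, map_inv, map_mul, hx]
      exact mul_inv_cancel _
    refine ⟨⟨toK F (g * (g' * eP m x)⁻¹).1, Gamma_intro h1⟩, ?_⟩
    rw [← v0_mul_eP g' x, smul_v0 _ (g * (g' * eP m x)⁻¹) _ rfl, inv_mul_cancel_right]

theorem orb_v1 {m : ℕ} (g g' : Gam F m) :
    orbO m (v1 g.1) = orbO m (v1 g'.1) ↔ ∃ s, pr F m g = pr F m g' * uG m s := by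
  rw [orbO_eq]
  constructor
  · rintro ⟨γ, hγ⟩
    obtain ⟨h, hp, he⟩ := Gamma_elim γ
    rw [smul_v1 γ h g' he] at hγ
    obtain ⟨x, hx⟩ := stab1 hγ
    refine ⟨x, ?_⟩
    rw [hx, map_mul, map_mul, hp, one_mul]
    rfl
  · rintro ⟨x, hx⟩
    have h1 : pr F m (g * (g' * uP m x)⁻¹) = 1 := by
      rw [map_mul, map_inv, map_mul, hx]
      exact mul_inv_cancel _
    refine ⟨⟨toK F (g * (g' * uP m x)⁻¹).1, Gamma_intro h1⟩, ?_⟩
    rw [← v1_mul_uP g' x, smul_v1 _ (g * (g' * uP m x)⁻¹) _ rfl, inv_mul_cancel_right]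

theorem orb_v01 {m : ℕ} (g g' : Gam F m) : orbO m (v0 g.1) ≠ orbO m (v1 g'.1) := by
  intro h
  obtain ⟨γ, hγ⟩ := orbO_eq.1 h
  obtain ⟨h, hp, he⟩ := Gamma_elim γ
  rw [smul_v1 γ h g' he] at hγ
  exact v0_ne_v1 _ _ hγ.symm

/-! ## stabilisers in the congruence subgroup -/

theorem stab_v0 {m : ℕ} (g : Gam F m) :
    Nat.card (MulAction.stabilizer (Gamma F (m + 1)) (v0 g.1)) = 1 := by
  have h0 : MulAction.stabilizer (Gamma F (m + 1)) (v0 g.1) = ⊥ := by
    rw [Subgroup.eq_bot_iff_forall]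
    intro γ hγ
    rw [MulAction.mem_stabilizer_iff] at hγ
    obtain ⟨h, hp, he⟩ := Gamma_elim γ
    rw [smul_v0 γ h g he] at hγ
    obtain ⟨x, hx⟩ := stab0 hγ.symm
    have h1 : eG m x = 1 := by
      have h2 := congrArg (pr F m) hx
      rw [map_mul, map_mul, hp, one_mul] at h2
      exact mul_eq_left.1 h2.symm
    rw [eG_one h1, eP_z, mul_one] at hx
    have h3 : h = 1 := mul_eq_right.1 hx
    apply Subtype.ext
    rw [he, h3]
    simp
  rw [h0]
  simp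

theorem stab_v1 {m : ℕ} (hm : 1 ≤ m) (g : Gam F m) :
    Nat.card (MulAction.stabilizer (Gamma F (m + 1)) (v1 g.1)) = 1 := by
  have h0 : MulAction.stabilizer (Gamma F (m + 1)) (v1 g.1) = ⊥ := by
    rw [Subgroup.eq_bot_iff_forall]
    intro γ hγ
    rw [MulAction.mem_stabilizer_iff] at hγ
    obtain ⟨h, hp, he⟩ := Gamma_elim γ
    rw [smul_v1 γ h g he] at hγ
    obtain ⟨x, hx⟩ := stab1 hγ.symm
    have h1 : uG m x = 1 := by
      have h2 := congrArg (pr F m) hx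
      rw [map_mul, map_mul, hp, one_mul] at h2
      exact mul_eq_left.1 h2.symm
    rw [uG_one hm h1, uP_z, mul_one] at hx
    have h3 : h = 1 := mul_eq_right.1 hx
    apply Subtype.ext
    rw [he, h3]
    simp
  rw [h0]
  simp

end

end Anq13
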