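import Mathlib
import Pool.Agent.Anq13.TreeOrb

/-!
# MP_d4d904_co : sums over the orbits
-/

namespace Anq13

open Polynomial Matrix WithZero

noncomputable section

variable {F : Type} [Field F]

theorem eG_z (m : ℕ) : eG m (0 : F) = 1 := by
  unfold eG
  rw [eP_z, map_one]

theorem uG_z (m : ℕ) : uG m (0 : F) = 1 := by
  unfold uG
  rw [uP_z, map_one]

theorem orbit_sum [Fintype F] {m : ℕ} [Fintype (Gs F m)] (hm : 1 ≤ m) (c : Vert F → ℝ)
    (A B : Gs F m → ℝ) (h0 : ∀ g : Gam F m, c (v0 g.1) = A (pr F m g))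
    (h1 : ∀ g : Gam F m, c (v1 g.1) = B (pr F m g))
    (h2 : ∀ v, c v ≠ 0 → (∃ g : Gam F m, v0 g.1 = v) ∨ ∃ g : Gam F m, v1 g.1 = v) :
    {o : Orb F m | c o.out ≠ 0}.Finite ∧
    (Fintype.card F : ℝ) * ∑ᶠ o : Orb F m,
      c o.out / (Nat.card (MulAction.stabilizer (Gamma F (m + 1)) o.out) : ℝ) =
      ∑ k, A k + ∑ k, B k := by
  classical
  set j : Gs F m ⊕ Gs F m → Orb F m := fun a => orbO m (vv a) with hj
  set G : Orb F m → ℝ := fun o =>
    c o.out / (Nat.card (MulAction.stabilizer (Gamma F (m + 1)) o.out) : ℝ) with hG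
  have hGj : ∀ a, G (j a) = Sum.elim A B a := by
    intro a
    obtain ⟨γ, hγ⟩ := orbO_out (m := m) (vv a)
    obtain ⟨h, hp, he⟩ := Gamma_elim γ
    rcases a with k | k
    · have e1 : (j (Sum.inl k)).out = v0 (h * lft k).1 := by
        rw [← smul_v0 γ h _ he]
        exact hγ.symm
      simp only [hG, Sum.elim_inl]
      rw [e1, stab_v0, h0, map_mul, hp, one_mul, pr_lft]
      simp
    · have e1 : (j (Sum.inr k)).out = v1 (h * lft k).1 := by
        rw [← smul_v1 γ h _ he]
        exact hγ.symm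
      simp only [hG, Sum.elim_inr]
      rw [e1, stab_v1 hm, h1, map_mul, hp, one_mul, pr_lft]
      simp
  have hsurj : ∀ o : Orb F m, c o.out ≠ 0 → ∃ a, j a = o := by
    intro o ho
    have hoo : orbO m o.out = o := Quotient.out_eq o
    rcases h2 _ ho with ⟨g, hg⟩ | ⟨g, hg⟩
    · refine ⟨Sum.inl (pr F m g), ?_⟩
      rw [← hoo, ← hg]
      show orbO m (v0 (lft (pr F m g)).1) = _
      rw [orb_v0]
      exact ⟨0, by rw [pr_lft, eG_z, mul_one]⟩
    · refine ⟨Sum.inr (pr F m g), ?_⟩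
      rw [← hoo, ← hg]
      show orbO m (v1 (lft (pr F m g)).1) = _
      rw [orb_v1]
      exact ⟨0, by rw [pr_lft, uG_z, mul_one]⟩
  have hcard : ∀ a0, (Finset.univ.filter (fun a => j a = j a0)).card = Fintype.card F := by
    intro a0
    rcases a0 with k0 | k0
    · have e1 : Finset.univ.filter (fun a => j a = j (Sum.inl k0)) =
          Finset.univ.image (fun x : F => (Sum.inl (k0 * eG m x) : Gs F m ⊕ Gs F m)) := by
        ext a
        rw [Finset.mem_filter, Finset.mem_image]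
        constructor
        · rintro ⟨-, ha⟩
          rcases a with k | k
          · have h3 : orbO m (v0 (lft k).1) = orbO m (v0 (lft k0).1) := ha
            rw [orb_v0, pr_lft, pr_lft] at h3
            obtain ⟨x, hx⟩ := h3
            exact ⟨x, Finset.mem_univ _, by rw [hx]⟩
          · have h3 : orbO m (v1 (lft k).1) = orbO m (v0 (lft k0).1) := ha
            exact absurd h3.symm (orb_v01 _ _)
        · rintro ⟨x, -, rfl⟩
          refine ⟨Finset.mem_univ _, ?_⟩
          show orbO m (v0 (lft (k0 * eG m x)).1) = orbO m (v0 (lft k0).1)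
          rw [orb_v0, pr_lft, pr_lft]
          exact ⟨x, rfl⟩
      have e2 : Function.Injective (fun x : F => (Sum.inl (k0 * eG m x) : Gs F m ⊕ Gs F m)) :=
        Sum.inl_injective.comp (eG_i k0)
      rw [e1, Finset.card_image_of_injective _ e2, Finset.card_univ]
    · have e1 : Finset.univ.filter (fun a => j a = j (Sum.inr k0)) =
          Finset.univ.image (fun x : F => (Sum.inr (k0 * uG m x) : Gs F m ⊕ Gs F m)) := by
        ext a
        rw [Finset.mem_filter, Finset.mem_image]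
        constructor
        · rintro ⟨-, ha⟩
          rcases a with k | k
          · have h3 : orbO m (v0 (lft k).1) = orbO m (v1 (lft k0).1) := ha
            exact absurd h3 (orb_v01 _ _)
          · have h3 : orbO m (v1 (lft k).1) = orbO m (v1 (lft k0).1) := ha
            rw [orb_v1, pr_lft, pr_lft] at h3
            obtain ⟨x, hx⟩ := h3
            exact ⟨x, Finset.mem_univ _, by rw [hx]⟩
        · rintro ⟨x, -, rfl⟩
          refine ⟨Finset.mem_univ _, ?_⟩
          show orbO m (v1 (lft (k0 * uG m x)).1) = orbO m (v1 (lft k0).1)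
          rw [orb_v1, pr_lft, pr_lft]
          exact ⟨x, rfl⟩
      have e2 : Function.Injective (fun x : F => (Sum.inr (k0 * uG m x) : Gs F m ⊕ Gs F m)) :=
        Sum.inr_injective.comp (uG_i hm k0)
      rw [e1, Finset.card_image_of_injective _ e2, Finset.card_univ]
  constructor
  · apply Set.Finite.subset (Finset.univ.image j).finite_toSet
    intro o ho
    obtain ⟨a, ha⟩ := hsurj o ho
    rw [Finset.mem_coe, Finset.mem_image]
    exact ⟨a, Finset.mem_univ _, ha⟩
  · have hs : Function.support G ⊆ ((Finset.univ.image j : Finset (Orb F m)) : Set (Orb F m)) := by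
      intro o ho
      have h3 : c o.out ≠ 0 := by
        intro h4
        apply ho
        simp only [hG]
        rw [h4, zero_div]
      obtain ⟨a, ha⟩ := hsurj o h3
      rw [Finset.mem_coe, Finset.mem_image]
      exact ⟨a, Finset.mem_univ _, ha⟩
    rw [finsum_eq_sum_of_support_subset G hs, Finset.mul_sum]
    have h4 : ∑ a, G (j a) = ∑ k, A k + ∑ k, B k := by
      rw [Fintype.sum_sum_type]
      congr 1
      · exact Finset.sum_congr rfl (fun k _ => hGj (Sum.inl k))
      · exact Finset.sum_congr rfl (fun k _ => hGj (Sum.inr k))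
    rw [← h4, Finset.sum_comp G j]
    refine Finset.sum_congr rfl ?_
    intro o ho
    rw [Finset.mem_image] at ho
    obtain ⟨a, -, rfl⟩ := ho
    rw [hcard a, nsmul_eq_mul]

/-! ## the fibres of the map to the lines -/

theorem exists_cf {m : ℕ} (a : ℕ → F) : ∃ r : Rg F m, ∀ i ≤ m, cf i r = a i := by
  refine ⟨mk m (∑ j ∈ Finset.range (m + 1), C (a j) * X ^ j), ?_⟩
  intro i hi
  rw [cf_mk i hi, finsetSum_coeff]
  simp only [coeff_C_mul, coeff_X_pow, mul_ite, mul_one, mul_zero]
  rw [Finset.sum_ite_eq, if_pos (Finset.mem_range.2 (by omega))]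

theorem exists_Gs {m : ℕ} (b c d : Rg F m) (hb : cf 0 b = 0) (hd : cf 0 d = 1) :
    ∃ k : Gs F m, k.1 0 1 = b ∧ k.1 1 0 = c ∧ k.1 1 1 = d := by
  obtain ⟨s, hs, hs0⟩ := exists_inv d hd
  refine ⟨⟨sl ((1 + b * c) * s) b c d ?_, ?_⟩, rfl, rfl, rfl⟩
  · linear_combination (1 + b * c) * hs
  · rw [mem_Gs]
    refine ⟨?_, hb, hd⟩
    rw [sl_00, cf0_mul, cf_add, cf0_mul, hb, hs0, cf0_one]
    ring

theorem Gs_ext3 {m : ℕ} {k k' : Gs F m} (h01 : k.1 0 1 = k'.1 0 1) (h10 : k.1 1 0 = k'.1 1 0)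
    (h11 : k.1 1 1 = k'.1 1 1) : k = k' := by
  apply Subtype.ext
  apply sl_ext _ _ ?_ h01 h10 h11
  obtain ⟨s, hs, -⟩ := exists_inv (k.1 1 1) (cf11_31 k)
  have d1 := det_eq k.1
  have d2 := det_eq k'.1
  rw [← h01, ← h10, ← h11] at d2
  linear_combination (k'.1 0 0 - k.1 0 0) * hs + s * (d1 - d2)

theorem fiber_le {m : ℕ} [Fintype (Gs F m)] [DecidableEq F] (n : ℕ) (hm : 1 ≤ m)
    (hn2 : n ≤ 2 * m + 1) (l l' : Fin n → F) :
    (Finset.univ.filter (fun k : Gs F m => line31 n k = l)).card ≤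
      (Finset.univ.filter (fun k : Gs F m => line31 n k = l')).card := by
  classical
  set dl : ℕ → F := fun i => if h : i < n then l' ⟨i, h⟩ - l ⟨i, h⟩ else 0 with hdl
  obtain ⟨δ, hδ⟩ := exists_cf (m := m) (fun i => if i = 0 then 0 else dl (2 * i - 1))
  obtain ⟨ε, hε⟩ := exists_cf (m := m) (fun i => if i = 0 then 0 else dl (2 * i))
  obtain ⟨β, hβ⟩ := exists_cf (m := m) (fun i => if i = 1 then dl 0 else 0)
  have hex : ∀ k : Gs F m, ∃ k' : Gs F m, k'.1 0 1 = k.1 0 1 + β ∧
      k'.1 1 0 = k.1 1 0 + cs (cf 0 (k.1 1 0)) * δ - ε ∧ k'.1 1 1 = k.1 1 1 + δ := by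
    intro k
    apply exists_Gs
    · rw [cf_add, cf01_31, hβ 0 (by omega)]
      simp
    · rw [cf_add, cf11_31, hδ 0 (by omega)]
      simp
  choose τ hτ1 hτ2 hτ3 using hex
  have hc0 : ∀ k, cf 0 ((τ k).1 1 0) = cf 0 (k.1 1 0) := by
    intro k
    rw [hτ2, cf_sub, cf_add, cf0_mul, hδ 0 (by omega), hε 0 (by omega)]
    simp
  apply Finset.card_le_card_of_injOn τ
  · intro k hk
    rw [Finset.mem_coe, Finset.mem_filter] at hk ⊢
    refine ⟨Finset.mem_univ _, ?_⟩
    funext i
    have hi := i.2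
    have hl : ∀ i : Fin n, line31 n k i = l i := fun i => congrFun hk.2 i
    have hli := hl i
    simp only [line31] at hli ⊢
    by_cases h0 : (i : ℕ) = 0
    · rw [if_pos h0] at hli ⊢
      rw [hτ1, cf_add, hli, hβ 1 hm, if_pos rfl]
      simp only [hdl]
      rw [dif_pos (show 0 < n by omega)]
      have : (⟨0, by omega⟩ : Fin n) = i := Fin.ext h0.symm
      rw [this]
      ring
    · rw [if_neg h0] at hli ⊢
      by_cases hE : Even (i : ℕ)
      · rw [if_pos hE] at hli ⊢
        obtain ⟨r, hr⟩ := hE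
        rw [hc0, hτ3, hτ2, cf_add, cf_sub, cf_add, cf_cs_mul_31 _ (by omega), hε _ (by omega),
          if_neg (by omega)]
        have h5 : 2 * ((i : ℕ) / 2) = i := by omega
        rw [h5]
        simp only [hdl]
        rw [dif_pos hi]
        rw [← hli]
        ring
      · rw [if_neg hE] at hli ⊢
        rw [Nat.not_even_iff_odd] at hE
        obtain ⟨r, hr⟩ := hE
        rw [hτ3, cf_add, hδ _ (by omega), if_neg (by omega)]
        have h5 : 2 * (((i : ℕ) + 1) / 2) - 1 = i := by omega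
        rw [h5, hli]
        simp only [hdl]
        rw [dif_pos hi]
        ring
  · intro k _ k' _ he
    have e0 : cf 0 (k.1 1 0) = cf 0 (k'.1 1 0) := by rw [← hc0 k, ← hc0 k', he]
    have e1 : k.1 0 1 + β = k'.1 0 1 + β := by rw [← hτ1, ← hτ1, he]
    have e2 : k.1 1 0 + cs (cf 0 (k.1 1 0)) * δ - ε = k'.1 1 0 + cs (cf 0 (k'.1 1 0)) * δ - ε := by
      rw [← hτ2, ← hτ2, he]
    have e3 : k.1 1 1 + δ = k'.1 1 1 + δ := by rw [← hτ3, ← hτ3, he]
    rw [e0] at e2
    apply Gs_ext3
    · exact add_right_cancel e1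
    · linear_combination e2
    · exact add_right_cancel e3

theorem sum_line_zero {m : ℕ} [Fintype (Gs F m)] [Fintype F] (n : ℕ) (hm : 1 ≤ m)
    (hn2 : n ≤ 2 * m + 1) (g : (Fin n → F) → ℝ) (hg : ∑ l, g l = 0) :
    ∑ k : Gs F m, g (line31 n k) = 0 := by
  classical
  rw [← Finset.sum_fiberwise' Finset.univ (fun k : Gs F m => line31 n k) g]
  have h1 : ∀ l : Fin n → F, ∑ k ∈ Finset.univ.filter (fun k : Gs F m => line31 n k = l), g l =
      ((Finset.univ.filter (fun k : Gs F m => line31 n k = 0)).card : ℝ) * g l := by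
    intro l
    rw [Finset.sum_const, nsmul_eq_mul]
    congr 2
    exact le_antisymm (fiber_le n hm hn2 _ _) (fiber_le n hm hn2 _ _)
  rw [Finset.sum_congr rfl (fun l _ => h1 l), ← Finset.mul_sum, hg, mul_zero]

end

end Anq13
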