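import Mathlib
import Pool.Agent.Anq13.TreeSum
import Pool.Agent.Anq13.TreeSpec

/-!
# MP_d4d904_co : the second eigenvalue of A(n,q) is a Rayleigh quotient on `Γ(t^N) \ T`
-/

namespace Anq13

open Polynomial Matrix WithZero

noncomputable section

variable {F : Type} [Field F]

theorem sgn_v0 (g : SpecialLinearGroup (Fin 2) F[X]) : sgn F (v0 g) = 1 := by
  unfold sgn sgv
  rw [if_pos]
  refine ⟨toK F g, rfl, 1, ?_⟩
  rw [toK_det]
  simp

theorem sgn_v1 (g : SpecialLinearGroup (Fin 2) F[X]) : sgn F (v1 g) = -1 := by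
  unfold sgn sgv
  rw [if_neg]
  rintro ⟨x, hx, r, hr⟩
  obtain ⟨z, hd, -⟩ := eq_imp (F := F) (a := toK F g * dt F) (b := x) hx.symm
  have h1 : toK F g * dt F * ((toK F g * dt F)⁻¹ * x) = x := by group
  have h2 : val F x.1.det = exp (1 + 2 * z) := by
    rw [← h1, Units.val_mul, Matrix.det_mul, map_mul, hd, Units.val_mul, Matrix.det_mul, toK_det,
      one_mul, dt_det, val_X, exp_add]
  rw [hr] at h2
  have hr0 : r ≠ 0 := by
    rintro rfl
    rw [mul_zero] at h2
    exact exp_ne_zero h2.symm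
  rw [← exp_log hr0, ← exp_add, exp_inj] at h2
  omega

theorem tree_main [Fintype F] (n : ℕ) (hn : 2 ≤ n) :
    ∃ f : Vert F → ℝ, TestFn F (n / 2 + 1) f ∧ 0 < ip F (n / 2 + 1) f f ∧
      ip F (n / 2 + 1) (hecke f) f = lam2 F n * ip F (n / 2 + 1) f f := by
  classical
  obtain ⟨n', rfl⟩ : ∃ n', n = n' + 1 := ⟨n - 1, by omega⟩
  obtain ⟨f, g, hne, hP, hL, hf0, hg0⟩ := lam2_real (F := F) n'
  set lam := lam2 F (n' + 1) with hlam
  set m := (n' + 1) / 2 with hmdef
  have hm : 1 ≤ m := by omega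
  have hn0 : 0 < n' + 1 := by omega
  have hn2 : n' + 1 ≤ 2 * m + 1 := by omega
  have : Fintype (Gs F m) := Fintype.ofFinite _
  set Phi : Gs F m → ℝ := fun k => g (line31 (n' + 1) k) with hPhi
  set Psi : Gs F m → ℝ := fun k => f (point31 (n' + 1) k) with hPsi
  have hE : ∀ k x, Phi (k * eG m x) = Phi k := by
    intro k x
    simp only [hPhi, line_e_31 (n' + 1) hn2]
  have hU : ∀ k s, Psi (k * uG m s) = Psi k := by
    intro k s
    simp only [hPsi, point_u_31 (n' + 1) hm hn2]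
  have hsE : ∀ k, ∑ x, Psi (k * eG m x) = lam * Phi k := by
    intro k
    have h := sum_points_31 (n' + 1) hn0 hn2 (fun p => (f p : ℂ)) k
      (Finset.univ.filter (fun p => Inc p (line31 (n' + 1) k))) (by intro p; simp)
    rw [hPhi]
    simp only
    rw [← hP]
    exact_mod_cast h
  have hsU : ∀ k, ∑ s, Phi (k * uG m s) = lam * Psi k := by
    intro k
    have h := sum_lines_31 (n' + 1) hm hn0 hn2 (fun l => (g l : ℂ)) k
      (Finset.univ.filter (fun l => Inc (point31 (n' + 1) k) l)) (by intro l; simp)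
    rw [hPsi]
    simp only
    rw [← hL]
    exact_mod_cast h
  have hq : (0 : ℝ) < (Fintype.card F : ℝ) := by exact_mod_cast Fintype.card_pos
  have sPhi : ∑ k, Phi k = 0 := sum_line_zero (n' + 1) hm hn2 g hg0
  have sPsi : ∑ k, Psi k = 0 := by
    have h1 : ∑ k, ∑ x, Psi (k * eG m x) = lam * ∑ k, Phi k := by
      rw [Finset.mul_sum]
      exact Finset.sum_congr rfl (fun k _ => hsE k)
    rw [Finset.sum_comm, sPhi, mul_zero] at h1
    have h2 : ∀ x : F, ∑ k, Psi (k * eG m x) = ∑ k, Psi k := by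
      intro x
      exact Equiv.sum_comp (Equiv.mulRight (eG m x)) Psi
    rw [Finset.sum_congr rfl (fun x _ => h2 x), Finset.sum_const, Finset.card_univ,
      nsmul_eq_mul] at h1
    rcases mul_eq_zero.1 h1 with h3 | h3
    · exact absurd h3 (ne_of_gt hq)
    · exact h3
  set T : Vert F → ℝ := extT Phi Psi with hT
  have T0 : ∀ g : Gam F m, T (v0 g.1) = Phi (pr F m g) := fun g => extT_v0 hE g
  have T1 : ∀ g : Gam F m, T (v1 g.1) = Psi (pr F m g) := fun g => extT_v1 hU g
  have Tne : ∀ v, T v ≠ 0 → (∃ g : Gam F m, v0 g.1 = v) ∨ ∃ g : Gam F m, v1 g.1 = v :=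
    fun v hv => extT_ne hv
  have hmul : ∀ v, hecke T v * T v = lam * (T v * T v) := by
    intro v
    by_cases hv : T v = 0
    · rw [hv]; ring
    · rcases Tne v hv with ⟨k, rfl⟩ | ⟨k, rfl⟩
      · rw [hT, hecke_v0 hU, hsE, ← hT, T0]; ring
      · rw [hT, hecke_v1 hE, hsU, ← hT, T1]; ring
  obtain ⟨fin1, o1⟩ := orbit_sum hm (fun v => T v * 1) Phi Psi
    (fun g => by simp only [mul_one]; exact T0 g) (fun g => by simp only [mul_one]; exact T1 g)
    (fun v hv => Tne v (by simpa using hv))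
  obtain ⟨-, o2⟩ := orbit_sum hm (fun v => T v * sgn F v) Phi (fun k => -Psi k)
    (fun g => by simp only [sgn_v0, mul_one]; exact T0 g)
    (fun g => by simp only [sgn_v1, mul_neg, mul_one]; rw [T1])
    (fun v hv => Tne v (left_ne_zero_of_mul hv))
  obtain ⟨-, o3⟩ := orbit_sum hm (fun v => T v * T v) (fun k => Phi k * Phi k)
    (fun k => Psi k * Psi k) (fun g => by simp only [T0]) (fun g => by simp only [T1])
    (fun v hv => Tne v (left_ne_zero_of_mul hv))
  have hfin : {o : Orb F m | T o.out ≠ 0}.Finite := by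
    simpa using fin1
  have hpos : 0 < ∑ k, Phi k * Phi k + ∑ k, Psi k * Psi k := by
    have n1 : 0 ≤ ∑ k, Phi k * Phi k := Finset.sum_nonneg (fun k _ => mul_self_nonneg _)
    have n2 : 0 ≤ ∑ k, Psi k * Psi k := Finset.sum_nonneg (fun k _ => mul_self_nonneg _)
    by_cases hg : g = 0
    · have hf : f ≠ 0 := fun h => hne ⟨h, hg⟩
      obtain ⟨p, hp⟩ := Function.ne_iff.1 hf
      obtain ⟨k, hk⟩ := line_onto_31 (n' + 1) hm hn2 (fun i => lin42 p 0 i)
      have hk2 : point31 (n' + 1) (k * eG m (p ⟨0, hn0⟩ - point31 (n' + 1) k ⟨0, hn0⟩)) = p := by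
        apply inc_unique_p hn0 (line31 (n' + 1) k)
        · have h := line_point_inc_31 (n' + 1)
            (k * eG m (p ⟨0, hn0⟩ - point31 (n' + 1) k ⟨0, hn0⟩))
          rw [line_e_31 (n' + 1) hn2] at h
          exact h
        · rw [hk]
          exact inc_lin42 p 0
        · rw [point_e_31]; ring
      have h3 : 0 < ∑ k, Psi k * Psi k := by
        refine Finset.sum_pos' (fun k _ => mul_self_nonneg _)
          ⟨k * eG m (p ⟨0, hn0⟩ - point31 (n' + 1) k ⟨0, hn0⟩), Finset.mem_univ _, ?_⟩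
        simp only [hPsi]
        rw [hk2]
        exact mul_self_pos.2 hp
      linarith
    · obtain ⟨l, hl⟩ := Function.ne_iff.1 hg
      obtain ⟨k, hk⟩ := line_onto_31 (n' + 1) hm hn2 l
      have h3 : 0 < ∑ k, Phi k * Phi k := by
        refine Finset.sum_pos' (fun k _ => mul_self_nonneg _) ⟨k, Finset.mem_univ _, ?_⟩
        simp only [hPhi]
        rw [hk]
        exact mul_self_pos.2 hl
      linarith
  refine ⟨T, ⟨?_, hfin, ?_, ?_⟩, ?_, ?_⟩
  · intro γ v
    exact extT_inv hE hU γ v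
  · have h3 : (Fintype.card F : ℝ) * ip F (m + 1) T (fun _ => 1) = 0 := by
      have h5 : ∑ k, Phi k + ∑ k, Psi k = 0 := by
        rw [sPhi, sPsi]; ring
      rw [← h5]
      exact o1
    rcases mul_eq_zero.1 h3 with h4 | h4
    · exact absurd h4 (ne_of_gt hq)
    · exact h4
  · have h3 : (Fintype.card F : ℝ) * ip F (m + 1) T (sgn F) = 0 := by
      have h5 : ∑ k, Phi k + ∑ k, (-Psi k) = 0 := by
        rw [Finset.sum_neg_distrib, sPhi, sPsi]; ring
      rw [← h5]
      exact o2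
    rcases mul_eq_zero.1 h3 with h4 | h4
    · exact absurd h4 (ne_of_gt hq)
    · exact h4
  · have h3 : 0 < (Fintype.card F : ℝ) * ip F (m + 1) T T := by
      have h4 : (Fintype.card F : ℝ) * ip F (m + 1) T T =
        ∑ k, Phi k * Phi k + ∑ k, Psi k * Psi k := o3
      rw [h4]
      exact hpos
    exact (mul_pos_iff_of_pos_left hq).1 h3
  · unfold ip ipC
    rw [mul_finsum]
    apply finsum_congr
    intro o
    rw [hmul, mul_div_assoc]

end

end Anq13
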